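import Pool.Agent.Lib.MP_361057_co.Mg.G001

section

/-! Definitions for the cluster graph. -/

open Finset Classical

namespace OddImm

universe u

variable {V : Type u} [Fintype V] {ι : Type} [Fintype ι]

/-- The pairs of the `F s(i,j)`, `j ≠ i`, with both ends in `O i`. -/
noncomputable def inn (O : ι → Finset V) (F : Sym2 ι → Multiset (Sym2 V)) (i : ι) :
    Multiset (Sym2 V) :=
  ∑ j ∈ (univ : Finset ι).filter (fun j => j ≠ i), (F s(i, j)).filter (Ins (O i))

/-- The type of a vertex. -/
noncomputable def ty [Nonempty ι] (O : ι → Finset V) (v : V) : ι :=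
  if h : ∃ i, v ∈ O i then h.choose else Classical.arbitrary ι

/-- The part represented by `x`. -/
noncomputable def part [Nonempty ι] (O : ι → Finset V) (c : ι → V → V) (x : V) : Finset V :=
  (O (ty O x)).filter (fun v => c (ty O x) v = x)

/-- The representatives. -/
noncomputable def reps (O : ι → Finset V) (c : ι → V → V) : Finset V :=
  (univ : Finset ι).biUnion (fun i => (O i).image (c i))

/-- The inner pairs of a part. -/
noncomputable def cinn [Nonempty ι] (O : ι → Finset V) (F : Sym2 ι → Multiset (Sym2 V))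
    (c : ι → V → V) (x : V) : Multiset (Sym2 V) :=
  (inn O F (ty O x)).filter (Ins (part O c x))

/-- `x` and `y` are joined, by the pair `s(u,w)`. -/
def Joined [Nonempty ι] (O : ι → Finset V) (F : Sym2 ι → Multiset (Sym2 V))
    (c : ι → V → V) (x y u w : V) : Prop :=
  x ∈ reps O c ∧ y ∈ reps O c ∧ ty O x ≠ ty O y ∧ u ∈ part O c x ∧ w ∈ part O c y ∧
    s(u, w) ∈ F s(ty O x, ty O y)

theorem Joined.symm [Nonempty ι] {O : ι → Finset V} {F : Sym2 ι → Multiset (Sym2 V)}
    {c : ι → V → V} {x y u w : V} (h : Joined O F c x y u w) : Joined O F c y x w u := by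
  obtain ⟨h1, h2, h3, h4, h5, h6⟩ := h
  refine ⟨h2, h1, fun e => h3 e.symm, h5, h4, ?_⟩
  rw [Sym2.eq_swap (a := w), Sym2.eq_swap (a := ty O y)]
  exact h6

/-- The cluster graph. -/
def cgr [Nonempty ι] (O : ι → Finset V) (F : Sym2 ι → Multiset (Sym2 V))
    (c : ι → V → V) : SimpleGraph V where
  Adj x y := ∃ u w, Joined O F c x y u w
  symm := ⟨fun x y ⟨u, w, h⟩ => ⟨w, u, h.symm⟩⟩
  loopless := ⟨fun x ⟨u, w, h⟩ => h.2.2.1 rfl⟩

/-- The chosen pair of an edge of the cluster graph. -/
noncomputable def prf [Nonempty ι] (O : ι → Finset V) (F : Sym2 ι → Multiset (Sym2 V))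
    (c : ι → V → V) (e : Sym2 V) : Sym2 V :=
  if h : ∃ q : Sym2 V, ∃ x y u w, e = s(x, y) ∧ q = s(u, w) ∧ Joined O F c x y u w
    then h.choose else e

/-- The ends of `e` are in different parts. -/
def Spl (c : V → V) (e : Sym2 V) : Prop := ∃ a ∈ e, ∃ b ∈ e, c a ≠ c b

/-- What is used of the partitions. -/
structure PH (O : ι → Finset V) (F : Sym2 ι → Multiset (Sym2 V)) (κ : ℕ)
    (c : ι → V → V) : Prop where
  mem : ∀ i, ∀ v ∈ O i, c i v ∈ O i
  idem : ∀ i, ∀ v ∈ O i, c i (c i v) = c i v
  count : ∀ i, ((inn O F i).countP (Spl (c i))) + κ ≤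
    κ * ((O i).image (c i)).card
  conn : ∀ i, ∀ x ∈ (O i).image (c i), ∀ S ⊆ (O i).filter (fun v => c i v = x),
    S.Nonempty → S ≠ (O i).filter (fun v => c i v = x) →
    κ ≤ cut ((inn O F i).filter (Ins ((O i).filter (fun v => c i v = x)))) S

section Lemmas

variable [Nonempty ι] {R : Multiset (Sym2 V) → Prop} {O : ι → Finset V}
  {F : Sym2 ι → Multiset (Sym2 V)} {c : ι → V → V} {κ : ℕ}

theorem ty_eq (h : Str R O F) {i : ι} {v : V} (hv : v ∈ O i) : ty O v = i := by
  have hex : ∃ i, v ∈ O i := ⟨i, hv⟩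
  have h1 : ty O v = hex.choose := by simp [ty, hex]
  rw [h1]
  by_contra hne
  exact Finset.disjoint_left.1 (h.disj _ _ hne) hex.choose_spec hv

theorem rep_mem (hc : PH O F κ c) {i : ι} {x : V} (hx : x ∈ (O i).image (c i)) :
    x ∈ O i ∧ c i x = x := by
  obtain ⟨v, hv, rfl⟩ := Finset.mem_image.1 hx
  exact ⟨hc.mem i v hv, hc.idem i v hv⟩

theorem mem_reps {x : V} : x ∈ reps O c ↔ ∃ i, x ∈ (O i).image (c i) := by
  simp [reps]

theorem reps_spec (h : Str R O F) (hc : PH O F κ c) {x : V} (hx : x ∈ reps O c) :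
    x ∈ O (ty O x) ∧ c (ty O x) x = x ∧ x ∈ (O (ty O x)).image (c (ty O x)) := by
  obtain ⟨i, hi⟩ := mem_reps.1 hx
  obtain ⟨h1, h2⟩ := rep_mem hc hi
  have h3 : ty O x = i := ty_eq h h1
  rw [h3]
  exact ⟨h1, h2, hi⟩

theorem mem_part {x v : V} : v ∈ part O c x ↔ v ∈ O (ty O x) ∧ c (ty O x) v = x := by
  simp [part]

theorem part_ty (h : Str R O F) {x v : V} (hv : v ∈ part O c x) : ty O v = ty O x :=
  ty_eq h (mem_part.1 hv).1

theorem part_rep (h : Str R O F) {x v : V} (hv : v ∈ part O c x) : c (ty O v) v = x := by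
  rw [part_ty h hv]
  exact (mem_part.1 hv).2

theorem prf_spec {x y : V} (h : (cgr O F c).Adj x y) :
    ∃ u w, prf O F c s(x, y) = s(u, w) ∧ Joined O F c x y u w := by
  obtain ⟨u, w, huw⟩ := h
  have hex : ∃ q : Sym2 V, ∃ x' y' u w, s(x, y) = s(x', y') ∧ q = s(u, w) ∧
      Joined O F c x' y' u w := ⟨s(u, w), x, y, u, w, rfl, rfl, huw⟩
  have h1 : prf O F c s(x, y) = hex.choose := by
    unfold prf
    rw [dif_pos hex]
  obtain ⟨x', y', u', w', e1, e2, e3⟩ := hex.choose_spec
  rw [h1, e2]
  rcases Sym2.eq_iff.1 e1 with ⟨rfl, rfl⟩ | ⟨rfl, rfl⟩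
  · exact ⟨u', w', rfl, e3⟩
  · exact ⟨w', u', Sym2.eq_swap, e3.symm⟩

end Lemmas

end OddImm
end

section

/-! The cluster graph has many edges. -/

open Finset Classical

namespace OddImm

universe u

variable {V : Type u} [Fintype V] {ι : Type} [Fintype ι]

omit [Fintype V] in
theorem count_aux (O : Finset V) (c : V → V) (T : Finset V) (I : Multiset (Sym2 V))
    (hin : ∀ e ∈ I, Ins O e) :
    ∑ x ∈ T, cut I (O.filter (fun v => c v = x)) ≤ 2 * I.countP (Spl c) := by
  induction I using Multiset.induction_on with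
  | empty => simp
  | cons e I ih =>
    have ih' := ih (fun e' he' => hin e' (Multiset.mem_cons_of_mem he'))
    have he : Ins O e := hin e (Multiset.mem_cons_self _ _)
    simp only [cut_cons, Finset.sum_add_distrib, Multiset.countP_cons]
    have key : ∑ x ∈ T, (if Cr (O.filter (fun v => c v = x)) e then 1 else 0) ≤
        2 * (if Spl c e then 1 else 0) := by
      induction e using Sym2.ind with
      | _ a b =>
        rw [ins_mk] at he
        rw [← Finset.card_filter]
        split_ifs with hs
        · have hsub : T.filter (fun x => Cr (O.filter (fun v => c v = x)) s(a, b)) ⊆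
              {c a, c b} := by
            intro x hx
            have hx2 := (Finset.mem_filter.1 hx).2
            rw [cr_mk] at hx2
            simp only [Finset.mem_filter, Finset.mem_insert, Finset.mem_singleton] at hx2 ⊢
            tauto
          calc _ ≤ ({c a, c b} : Finset V).card := Finset.card_le_card hsub
            _ ≤ 2 := Finset.card_le_two
            _ = 2 * 1 := rfl
        · rw [Nat.mul_zero, Nat.le_zero, Finset.card_eq_zero, Finset.filter_eq_empty_iff]
          intro x _ hx2
          apply hs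
          rw [cr_mk] at hx2
          simp only [Finset.mem_filter] at hx2
          refine ⟨a, Sym2.mem_mk_left a b, b, Sym2.mem_mk_right a b, fun hab => ?_⟩
          rw [hab] at hx2
          tauto
    omega

theorem count_local [Nonempty ι] {R : Multiset (Sym2 V) → Prop}
    {O : ι → Finset V} {F : Sym2 ι → Multiset (Sym2 V)} (h : Str R O F) {κ : ℕ}
    {c : ι → V → V} (hc : PH O F κ c) {i : ι} {x : V} (hx : x ∈ (O i).image (c i)) :
    (JJ F i ((O i).filter (fun v => c i v = x))).card ≤
      (nb (cgr O F c) x).card + cut (inn O F i) ((O i).filter (fun v => c i v = x)) := by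
  obtain ⟨hxO, hcx⟩ := rep_mem hc hx
  have htx : ty O x = i := ty_eq h hxO
  set C := (O i).filter (fun v => c i v = x) with hC
  have hpart : part O c x = C := by rw [part, htx]
  -- the first kind of labels
  set J1 := (univ : Finset ι).filter
    (fun j => j ≠ i ∧ 1 ≤ cut ((F s(i, j)).filter (Ins (O i))) C) with hJ1
  have hsub : JJ F i C ⊆ J1 ∪ (nb (cgr O F c) x).image (ty O) := by
    intro j hj
    obtain ⟨-, hji, hcut⟩ := Finset.mem_filter.1 hj
    obtain ⟨e, he, hcr⟩ : ∃ e ∈ F s(i, j), Cr C e := by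
      have := Multiset.countP_pos.1 (Nat.lt_of_lt_of_le Nat.zero_lt_one hcut)
      exact this
    rw [Finset.mem_union]
    -- write e = s(a,b) with a ∈ C, b ∉ C
    obtain ⟨a, b, rfl, ha, hb⟩ : ∃ a b, e = s(a, b) ∧ a ∈ C ∧ b ∉ C := by
      induction e using Sym2.ind with
      | _ a b =>
        rw [cr_mk] at hcr
        rcases hcr with ⟨h1, h2⟩ | ⟨h1, h2⟩
        · exact ⟨a, b, rfl, h1, h2⟩
        · exact ⟨b, a, Sym2.eq_swap, h2, h1⟩
    have haO : a ∈ O i := (Finset.mem_filter.1 ha).1
    have hbd : b ∈ O i ∨ b ∈ O j := by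
      by_contra hno
      have h0 := h.deg i j hji.symm b
      rw [if_neg hno] at h0
      have : 0 < dg (F s(i, j)) b := Multiset.countP_pos.2 ⟨_, he, Sym2.mem_mk_right a b⟩
      omega
    rcases hbd with hb1 | hb1
    · left
      refine Finset.mem_filter.2 ⟨Finset.mem_univ _, hji, ?_⟩
      refine Multiset.countP_pos.2 ⟨s(a, b), ?_, hcr⟩
      rw [Multiset.mem_filter]
      refine ⟨he, ?_⟩
      rw [ins_mk]
      exact ⟨haO, hb1⟩
    · right
      refine Finset.mem_image.2 ⟨c j b, ?_, ?_⟩
      · rw [mem_nb]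
        have hcb : c j b ∈ (O j).image (c j) := Finset.mem_image_of_mem _ hb1
        obtain ⟨hy1, hy2⟩ := rep_mem hc hcb
        have hty : ty O (c j b) = j := ty_eq h hy1
        refine ⟨a, b, mem_reps.2 ⟨i, hx⟩, mem_reps.2 ⟨j, hcb⟩, ?_, ?_, ?_, ?_⟩
        · rw [htx, hty]
          exact hji.symm
        · rw [hpart]
          exact ha
        · rw [mem_part, hty]
          exact ⟨hb1, rfl⟩
        · rw [htx, hty]
          exact he
      · exact ty_eq h (hc.mem j b hb1)
  have hJ1c : J1.card ≤ cut (inn O F i) C := by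
    rw [inn, cut_sum]
    calc J1.card = ∑ j ∈ J1, 1 := by simp
      _ ≤ ∑ j ∈ J1, cut ((F s(i, j)).filter (Ins (O i))) C :=
          Finset.sum_le_sum (fun j hj => (Finset.mem_filter.1 hj).2.2)
      _ ≤ ∑ j ∈ (univ : Finset ι).filter (fun j => j ≠ i),
            cut ((F s(i, j)).filter (Ins (O i))) C := by
          refine Finset.sum_le_sum_of_subset ?_
          intro j hj
          exact Finset.mem_filter.2 ⟨Finset.mem_univ _, (Finset.mem_filter.1 hj).2.1⟩
  calc (JJ F i C).card ≤ (J1 ∪ (nb (cgr O F c) x).image (ty O)).card :=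
        Finset.card_le_card hsub
    _ ≤ J1.card + ((nb (cgr O F c) x).image (ty O)).card := Finset.card_union_le _ _
    _ ≤ cut (inn O F i) C + (nb (cgr O F c) x).card :=
        Nat.add_le_add hJ1c Finset.card_image_le
    _ = _ := Nat.add_comm _ _

theorem cluster_count [Nonempty ι] {R : Multiset (Sym2 V) → Prop}
    {O : ι → Finset V} {F : Sym2 ι → Multiset (Sym2 V)} (h : Str R O F) {κ : ℕ}
    {c : ι → V → V} (hc : PH O F κ c) (hκ : 8 * κ ≤ Fintype.card ι)
    (hstar : ∀ i, ∀ C ⊆ O i, C.Nonempty → Fintype.card ι ≤ 2 * (JJ F i C).card) :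
    κ * (reps O c).card ≤ (ed (cgr O F c)).card := by
  have hdisj : (↑(univ : Finset ι) : Set ι).PairwiseDisjoint
      (fun i => (O i).image (c i)) := by
    intro i _ j _ hij
    rw [Function.onFun, Finset.disjoint_left]
    intro x hx hx'
    exact Finset.disjoint_left.1 (h.disj i j hij) (rep_mem hc hx).1 (rep_mem hc hx').1
  have hloc : ∀ i, 2 * κ * ((O i).image (c i)).card ≤
      ∑ x ∈ (O i).image (c i), (nb (cgr O F c) x).card := by
    intro i
    have h1 : ∑ x ∈ (O i).image (c i), 4 * κ ≤
        ∑ x ∈ (O i).image (c i), ((nb (cgr O F c) x).card +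
          cut (inn O F i) ((O i).filter (fun v => c i v = x))) := by
      refine Finset.sum_le_sum (fun x hx => ?_)
      have h2 := count_local h hc hx
      have h3 := hstar i ((O i).filter (fun v => c i v = x)) (Finset.filter_subset _ _)
        ⟨x, Finset.mem_filter.2 (rep_mem hc hx)⟩
      omega
    rw [Finset.sum_add_distrib, Finset.sum_const, smul_eq_mul] at h1
    have h4 := count_aux (O i) (c i) ((O i).image (c i)) (inn O F i) (by
      intro e he
      obtain ⟨j, hj, hej⟩ := Multiset.mem_sum.1 he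
      exact (Multiset.mem_filter.1 hej).2)
    have h5 := hc.count i
    nlinarith
  have hsum : ∑ i : ι, 2 * κ * ((O i).image (c i)).card ≤
      ∑ x ∈ reps O c, (nb (cgr O F c) x).card := by
    rw [reps, Finset.sum_biUnion hdisj]
    exact Finset.sum_le_sum (fun i _ => hloc i)
  have hcard : (reps O c).card = ∑ i : ι, ((O i).image (c i)).card := by
    rw [reps, Finset.card_biUnion]
    intro i hi j hj hij
    exact hdisj hi hj hij
  rw [← Finset.mul_sum, ← hcard] at hsum
  have h6 : ∑ x ∈ reps O c, (nb (cgr O F c) x).card ≤ ∑ x, (nb (cgr O F c) x).card :=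
    Finset.sum_le_sum_of_subset (Finset.subset_univ _)
  rw [sum_nb] at h6
  nlinarith

end OddImm
end

section

/-! The cluster state is realised. -/

open Finset Classical

namespace OddImm

universe u

variable {V : Type u} [Fintype V] {ι : Type} [Fintype ι]

theorem clusterReal_ed [Nonempty ι] {O : ι → Finset V} {F : Sym2 ι → Multiset (Sym2 V)}
    {c : ι → V → V} {e : Sym2 V} (he : e ∈ ed (cgr O F c)) :
    ∃ x y u w, e = s(x, y) ∧ prf O F c e = s(u, w) ∧ Joined O F c x y u w := by
  have h1 : e ∈ (cgr O F c).edgeSet := by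
    unfold ed at he
    exact (Finset.mem_filter.1 he).2
  induction e using Sym2.inductionOn with
  | hf x y =>
    rw [SimpleGraph.mem_edgeSet] at h1
    obtain ⟨u, w, h2, h3⟩ := prf_spec h1
    exact ⟨x, y, u, w, rfl, h2, h3⟩

theorem clusterReal_ends [Nonempty ι] {R : Multiset (Sym2 V) → Prop}
    {O : ι → Finset V} {F : Sym2 ι → Multiset (Sym2 V)} (h : Str R O F)
    {c : ι → V → V} {x y u w : V} (hj : Joined O F c x y u w) :
    c (ty O u) u = x ∧ c (ty O w) w = y ∧ ty O u ≠ ty O w ∧ s(u, w) ∈ F s(ty O u, ty O w) := by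
  obtain ⟨_, _, h3, h4, h5, h6⟩ := hj
  refine ⟨part_rep h h4, part_rep h h5, ?_, ?_⟩
  · rw [part_ty h h4, part_ty h h5]
    exact h3
  · rw [part_ty h h4, part_ty h h5]
    exact h6

theorem cluster_real [Nonempty ι] {R : Multiset (Sym2 V) → Prop} (hR : LiftClosed R)
    {O : ι → Finset V} {F : Sym2 ι → Multiset (Sym2 V)} (h : Str R O F) {κ : ℕ}
    {c : ι → V → V} (hc : PH O F κ c) :
    R ((∑ x ∈ reps O c, cinn O F c x) + (ed (cgr O F c)).map (prf O F c)) := by
  refine hR.mono ?_ h.real
  rw [Multiset.le_iff_count]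
  intro e₀
  rw [Multiset.count_add, Multiset.count_sum', Multiset.count_sum']
  have hnd : ((ed (cgr O F c)).map (prf O F c)).Nodup := by
    apply Multiset.Nodup.map_on
    · intro e he e' he' hee
      obtain ⟨x, y, u, w, h1, h2, h3⟩ := clusterReal_ed he
      obtain ⟨x', y', u', w', h1', h2', h3'⟩ := clusterReal_ed he'
      obtain ⟨h4, h5, _, _⟩ := clusterReal_ends h h3
      obtain ⟨h4', h5', _, _⟩ := clusterReal_ends h h3'
      rw [h2, h2'] at hee
      rw [h1, h1']
      rcases Sym2.eq_iff.1 hee with ⟨r1, r2⟩ | ⟨r1, r2⟩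
      · rw [← h4, ← h5, ← h4', ← h5', r1, r2]
      · rw [← h4, ← h5, ← h4', ← h5', r1, r2]
        exact Sym2.eq_swap
    · unfold ed
      exact Finset.nodup _
  by_cases hA : ∃ x ∈ reps O c, Ins (part O c x) e₀
  · obtain ⟨x, hx, hins⟩ := hA
    induction e₀ using Sym2.inductionOn with
    | hf a b =>
      obtain ⟨ha, hb⟩ := ins_mk.1 hins
      have hta := part_ty h ha
      have htb := part_ty h hb
      have h2 : Multiset.count s(a, b) ((ed (cgr O F c)).map (prf O F c)) = 0 := by
        rw [Multiset.count_eq_zero]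
        intro hm
        obtain ⟨e, he, hee⟩ := Multiset.mem_map.1 hm
        obtain ⟨x', y', u, w, h1, h2, h3⟩ := clusterReal_ed he
        obtain ⟨_, _, h6, _⟩ := clusterReal_ends h h3
        rw [h2] at hee
        rcases Sym2.eq_iff.1 hee with ⟨r1, r2⟩ | ⟨r1, r2⟩
        · apply h6
          rw [r1, r2, hta, htb]
        · apply h6
          rw [r1, r2, hta, htb]
      have h1 : ∑ x' ∈ reps O c, Multiset.count s(a, b) (cinn O F c x')
          = Multiset.count s(a, b) (cinn O F c x) := by
        apply Finset.sum_eq_single x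
        · intro x' _ hne
          rw [Multiset.count_eq_zero]
          intro hm
          unfold cinn at hm
          have h3 := (Multiset.mem_filter.1 hm).2
          have h4 := (ins_mk.1 h3).1
          apply hne
          rw [← part_rep h h4, ← part_rep h ha]
        · intro hx'
          exact absurd hx hx'
      rw [h1, h2, add_zero]
      have h3 : Multiset.count s(a, b) (cinn O F c x)
          ≤ Multiset.count s(a, b) (inn O F (ty O x)) := by
        unfold cinn
        exact Multiset.count_le_of_le _ (Multiset.filter_le _ _)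
      refine h3.trans ?_
      unfold inn
      rw [Multiset.count_sum']
      have himg : ∑ j ∈ (univ : Finset ι).filter (fun j => j ≠ ty O x),
          Multiset.count s(a, b) (F s(ty O x, j))
          ≤ ∑ e ∈ (univ : Finset (Sym2 ι)).filter (fun e => ¬ e.IsDiag),
            Multiset.count s(a, b) (F e) := by
        rw [← Finset.sum_image (f := fun e => Multiset.count s(a, b) (F e))
          (g := fun j => s(ty O x, j)) (fun j _ j' _ hjj => Sym2.congr_right.1 hjj)]
        apply Finset.sum_le_sum_of_subset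
        intro e he
        obtain ⟨j, hj, rfl⟩ := Finset.mem_image.1 he
        rw [Finset.mem_filter] at hj ⊢
        refine ⟨mem_univ _, ?_⟩
        rw [Sym2.mk_isDiag_iff]
        exact fun hh => hj.2 hh.symm
      refine le_trans (Finset.sum_le_sum fun j _ => ?_) himg
      exact Multiset.count_le_of_le _ (Multiset.filter_le _ _)
  · have h1 : ∑ x' ∈ reps O c, Multiset.count e₀ (cinn O F c x') = 0 := by
      apply Finset.sum_eq_zero
      intro x' hx'
      rw [Multiset.count_eq_zero]
      intro hm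
      unfold cinn at hm
      exact hA ⟨x', hx', (Multiset.mem_filter.1 hm).2⟩
    rw [h1, zero_add]
    by_cases hm : e₀ ∈ (ed (cgr O F c)).map (prf O F c)
    · rw [Multiset.count_eq_one_of_mem hnd hm]
      obtain ⟨e, he, hee⟩ := Multiset.mem_map.1 hm
      obtain ⟨x', y', u, w, h1, h2, h3⟩ := clusterReal_ed he
      obtain ⟨_, _, h6, h7⟩ := clusterReal_ends h h3
      have h8 : e₀ ∈ F s(ty O u, ty O w) := by
        rw [← hee, h2]
        exact h7
      have h9 : s(ty O u, ty O w) ∈ (univ : Finset (Sym2 ι)).filter (fun e => ¬ e.IsDiag) := by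
        rw [Finset.mem_filter]
        refine ⟨mem_univ _, ?_⟩
        rw [Sym2.mk_isDiag_iff]
        exact h6
      calc 1 ≤ Multiset.count e₀ (F s(ty O u, ty O w)) := Multiset.one_le_count_iff_mem.2 h8
        _ ≤ _ := Finset.single_le_sum
            (f := fun e => Multiset.count e₀ (F e)) (fun _ _ => Nat.zero_le _) h9
    · rw [Multiset.count_eq_zero.2 hm]
      exact Nat.zero_le _

end OddImm
end
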