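import Pool.Agent.Lib.MP_361057_co.Mg.G001
import Pool.Agent.Lib.MP_361057_co.Mg.G002

section

/-! Extremal partition into highly connected parts. -/

open Finset Classical

namespace OddImm

universe u

variable {V : Type u}

theorem partition_countP_le {α : Type*} (I : Multiset α) (P' P Q : α → Prop)
    [DecidablePred P'] [DecidablePred P] [DecidablePred Q]
    (h : ∀ e ∈ I, P' e → P e ∨ Q e) :
    I.countP P' ≤ I.countP P + I.countP Q := by
  induction I using Multiset.induction_on with
  | empty => simp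
  | cons e I ih =>
    have ih' := ih (fun x hx => h x (Multiset.mem_cons_of_mem hx))
    have he := h e (Multiset.mem_cons_self e I)
    simp only [Multiset.countP_cons]
    by_cases h1 : P' e
    · rcases he h1 with h2 | h2
      · by_cases h3 : Q e <;> simp [h1, h2, h3] <;> omega
      · by_cases h3 : P e <;> simp [h1, h2, h3] <;> omega
    · by_cases h2 : P e <;> by_cases h3 : Q e <;> simp [h1, h2, h3] <;> omega

theorem exists_partition (O : Finset V) (hO : O.Nonempty) (I : Multiset (Sym2 V))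
    (hI : Loopless I) (hin : ∀ e ∈ I, Ins O e) (κ : ℕ) :
    ∃ c : V → V, (∀ v ∈ O, c v ∈ O) ∧ (∀ v ∈ O, c (c v) = c v) ∧
      (I.countP (fun e => ∃ a ∈ e, ∃ b ∈ e, c a ≠ c b)) + κ ≤ κ * (O.image c).card ∧
      ∀ x ∈ O.image c, ∀ S ⊆ O.filter (fun v => c v = x), S.Nonempty →
        S ≠ O.filter (fun v => c v = x) →
        κ ≤ cut (I.filter (Ins (O.filter (fun v => c v = x)))) S := by
  obtain ⟨o, ho⟩ := hO
  set Φ : (V → V) → ℕ := fun c => (I.countP (fun e => ∃ a ∈ e, ∃ b ∈ e, c a ≠ c b)) +
    κ * (O.card - (O.image c).card) with hΦ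
  obtain ⟨c, hc, hmin⟩ := WellFounded.has_min (measure Φ).wf
    {c : V → V | (∀ v ∈ O, c v ∈ O) ∧ (∀ v ∈ O, c (c v) = c v)}
    ⟨fun _ => o, fun _ _ => ho, fun _ _ => rfl⟩
  obtain ⟨hc1, hc2⟩ := hc
  have hmin' : ∀ c' : V → V, (∀ v ∈ O, c' v ∈ O) → (∀ v ∈ O, c' (c' v) = c' v) → Φ c ≤ Φ c' :=
    fun c' h1 h2 => not_lt.1 (hmin c' ⟨h1, h2⟩)
  refine ⟨c, hc1, hc2, ?_, ?_⟩
  · have h1 := hmin' (fun _ => o) (fun _ _ => ho) (fun _ _ => rfl)
    have h2 : Φ (fun _ => o) = κ * (O.card - 1) := by
      have e1 : O.image (fun _ : V => o) = {o} := Finset.image_const ⟨o, ho⟩ o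
      have e2 : I.countP (fun e => ∃ a ∈ e, ∃ b ∈ e, (fun _ : V => o) a ≠ (fun _ : V => o) b) = 0 := by
        rw [Multiset.countP_eq_zero]
        rintro e he ⟨a, _, b, _, h⟩
        exact h rfl
      simp only [hΦ]
      rw [e1, Finset.card_singleton]
      simp only [ne_eq, not_true_eq_false, and_false, exists_false] at e2 ⊢
      rw [e2, zero_add]
    rw [h2] at h1
    have h3 : (O.image c).card ≤ O.card := Finset.card_image_le
    have h4 : 1 ≤ O.card := Finset.card_pos.2 ⟨o, ho⟩
    obtain ⟨k, hk⟩ := Nat.exists_eq_add_of_le h3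
    have e3 : O.card - (O.image c).card = k := by omega
    have e4 : κ * (O.card - 1) + κ = κ * (O.image c).card + κ * k := by
      rw [← mul_add, ← hk]
      obtain ⟨m, hm⟩ := Nat.exists_eq_add_of_le h4
      rw [hm]
      have : 1 + m - 1 = m := by omega
      rw [this]
      ring
    simp only [hΦ, e3] at h1
    omega
  · intro x hx S hS hSn hSne
    set C := O.filter (fun v => c v = x) with hC
    obtain ⟨s, hs⟩ := hSn
    obtain ⟨r, hr⟩ : ∃ r, r ∈ C ∧ r ∉ S := by
      by_contra hcon
      push Not at hcon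
      exact hSne (Finset.Subset.antisymm hS hcon)
    obtain ⟨hrC, hrS⟩ := hr
    have hmemC : ∀ v, v ∈ C ↔ v ∈ O ∧ c v = x := fun v => by rw [hC, Finset.mem_filter]
    have hsC := hS hs
    set c' : V → V := fun v => if v ∈ S then s else if c v = x then r else c v with hc'
    have c'S : ∀ v, v ∈ S → c' v = s := fun v hv => by simp [hc', hv]
    have c'C : ∀ v, v ∉ S → c v = x → c' v = r := fun v hv hv' => by simp [hc', hv, hv']
    have c'N : ∀ v, v ∉ S → c v ≠ x → c' v = c v := fun v hv hv' => by simp [hc', hv, hv']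
    have hSx : ∀ v, v ∈ S → c v = x := fun v hv => ((hmemC v).1 (hS hv)).2
    have h1 : ∀ v ∈ O, c' v ∈ O := by
      intro v hv
      by_cases hvS : v ∈ S
      · rw [c'S v hvS]; exact ((hmemC s).1 hsC).1
      · by_cases hvx : c v = x
        · rw [c'C v hvS hvx]; exact ((hmemC r).1 hrC).1
        · rw [c'N v hvS hvx]; exact hc1 v hv
    have h2 : ∀ v ∈ O, c' (c' v) = c' v := by
      intro v hv
      by_cases hvS : v ∈ S
      · rw [c'S v hvS, c'S s hs]
      · by_cases hvx : c v = x
        · rw [c'C v hvS hvx, c'C r hrS ((hmemC r).1 hrC).2]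
        · rw [c'N v hvS hvx]
          have h3 : c (c v) ≠ x := by rw [hc2 v hv]; exact hvx
          have h4 : c v ∉ S := fun h => h3 (hSx _ h)
          rw [c'N _ h4 h3, hc2 v hv]
    have h3 := hmin' c' h1 h2
    have hinter : I.countP (fun e => ∃ a ∈ e, ∃ b ∈ e, c' a ≠ c' b) ≤
        I.countP (fun e => ∃ a ∈ e, ∃ b ∈ e, c a ≠ c b) + cut (I.filter (Ins C)) S := by
      have : cut (I.filter (Ins C)) S = I.countP (fun e => Cr S e ∧ Ins C e) := by
        unfold cut
        rw [Multiset.countP_filter]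
      rw [this]
      apply partition_countP_le
      rintro e he ⟨a, ha, b, hb, hab⟩
      by_cases hcab : c a = c b
      · right
        have haO := hin e he a ha
        have hbO := hin e he b hb
        have hne : a ≠ b := fun h => hab (by rw [h])
        have hab' : e = s(a, b) := (Sym2.mem_and_mem_iff hne).1 ⟨ha, hb⟩
        by_cases hax : c a = x
        · have hbx : c b = x := by rw [← hcab]; exact hax
          rw [hab', cr_mk, ins_mk]
          refine ⟨?_, (hmemC a).2 ⟨haO, hax⟩, (hmemC b).2 ⟨hbO, hbx⟩⟩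
          by_cases haS : a ∈ S <;> by_cases hbS : b ∈ S
          · exact absurd (by rw [c'S a haS, c'S b hbS]) hab
          · exact Or.inl ⟨haS, hbS⟩
          · exact Or.inr ⟨haS, hbS⟩
          · exact absurd (by rw [c'C a haS hax, c'C b hbS hbx]) hab
        · have hbx : c b ≠ x := by rw [← hcab]; exact hax
          have haS : a ∉ S := fun h => hax (hSx _ h)
          have hbS : b ∉ S := fun h => hbx (hSx _ h)
          exact absurd (by rw [c'N a haS hax, c'N b hbS hbx, hcab]) hab
      · exact Or.inl ⟨a, ha, b, hb, hcab⟩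
    have himg : (O.image c).card + 1 ≤ (O.image c').card := by
      have hsub : insert s (insert r ((O.image c).erase x)) ⊆ O.image c' := by
        intro y hy
        rw [Finset.mem_insert, Finset.mem_insert, Finset.mem_erase] at hy
        rcases hy with rfl | rfl | ⟨hyx, hy⟩
        · exact Finset.mem_image.2 ⟨_, ((hmemC _).1 hsC).1, c'S _ hs⟩
        · exact Finset.mem_image.2 ⟨_, ((hmemC _).1 hrC).1, c'C _ hrS ((hmemC _).1 hrC).2⟩
        · obtain ⟨v, hv, rfl⟩ := Finset.mem_image.1 hy
          exact Finset.mem_image.2 ⟨v, hv, c'N v (fun h => hyx (hSx _ h)) hyx⟩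
      have hfix : ∀ y ∈ O.image c, c y = y := by
        intro y hy
        obtain ⟨v, hv, rfl⟩ := Finset.mem_image.1 hy
        exact hc2 v hv
      have hrn : r ∉ (O.image c).erase x := by
        rw [Finset.mem_erase]
        rintro ⟨h5, h6⟩
        exact h5 (by rw [← hfix r h6]; exact ((hmemC r).1 hrC).2)
      have hsn : s ∉ insert r ((O.image c).erase x) := by
        rw [Finset.mem_insert, Finset.mem_erase]
        rintro (h5 | ⟨h5, h6⟩)
        · exact hrS (h5 ▸ hs)
        · exact h5 (by rw [← hfix s h6]; exact ((hmemC s).1 hsC).2)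
      have h5 := Finset.card_le_card hsub
      rw [Finset.card_insert_of_notMem hsn, Finset.card_insert_of_notMem hrn,
        Finset.card_erase_of_mem hx] at h5
      have h6 : 1 ≤ (O.image c).card := Finset.card_pos.2 ⟨x, hx⟩
      omega
    have h4 : (O.image c').card ≤ O.card := Finset.card_image_le
    have h5 : O.card - (O.image c).card = (O.card - (O.image c').card) +
        ((O.image c').card - (O.image c).card) := by omega
    have h6 : κ ≤ κ * ((O.image c').card - (O.image c).card) :=
      Nat.le_mul_of_pos_right κ (by omega)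
    simp only [hΦ] at h3
    rw [h5, mul_add] at h3
    omega

end OddImm
end

section

/-! The cluster graph. -/

open Finset Classical

namespace OddImm

universe u

variable {V : Type u} [Fintype V]

theorem exists_PH {R : Multiset (Sym2 V) → Prop} {ι : Type}
    [Fintype ι] {O : ι → Finset V} {F : Sym2 ι → Multiset (Sym2 V)}
    (h : Str R O F) (κ : ℕ) : ∃ c : ι → V → V, PH O F κ c := by
  have key : ∀ i : ι, ∃ c : V → V, (∀ v ∈ O i, c v ∈ O i) ∧ (∀ v ∈ O i, c (c v) = c v) ∧
      ((inn O F i).countP (Spl c)) + κ ≤ κ * ((O i).image c).card ∧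
      ∀ x ∈ (O i).image c, ∀ S ⊆ (O i).filter (fun v => c v = x), S.Nonempty →
        S ≠ (O i).filter (fun v => c v = x) →
        κ ≤ cut ((inn O F i).filter (Ins ((O i).filter (fun v => c v = x)))) S := by
    intro i
    have h1 : Loopless (inn O F i) := by
      intro e he
      obtain ⟨j, hj, hej⟩ := Multiset.mem_sum.1 he
      exact h.loopless _ e (Multiset.mem_filter.1 hej).1
    have h2 : ∀ e ∈ inn O F i, Ins (O i) e := by
      intro e he
      obtain ⟨j, hj, hej⟩ := Multiset.mem_sum.1 he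
      exact (Multiset.mem_filter.1 hej).2
    obtain ⟨c, a1, a2, a3, a4⟩ :=
      exists_partition (O i) (Finset.card_pos.1 (h.odd i).pos) (inn O F i) h1 h2 κ
    refine ⟨c, a1, a2, ?_, a4⟩
    refine le_trans (le_of_eq ?_) a3
    congr 1
  choose c h1 h2 h3 h4 using key
  exact ⟨c, ⟨h1, h2, h3, h4⟩⟩

theorem exists_CS {R : Multiset (Sym2 V) → Prop} (hR : LiftClosed R) {ι : Type}
    [Fintype ι] [Nonempty ι] {O : ι → Finset V} {F : Sym2 ι → Multiset (Sym2 V)}
    (h : Str R O F) (κ : ℕ) (hκ : 8 * κ ≤ Fintype.card ι)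
    (hstar : ∀ i, ∀ C ⊆ O i, C.Nonempty → Fintype.card ι ≤ 2 * (JJ F i C).card) :
    ∃ (A : Finset V) (Cl : V → Finset V) (I : V → Multiset (Sym2 V)) (G : SimpleGraph V)
      (Pr : Sym2 V → Sym2 V), CS R κ A Cl I G Pr ∧ A.Nonempty ∧
      κ * A.card ≤ (ed G).card := by
  obtain ⟨c, hc⟩ := exists_PH h κ
  refine ⟨reps O c, part O c, cinn O F c, cgr O F c, prf O F c, ?_, ?_,
    cluster_count h hc hκ hstar⟩
  · constructor
    · intro x hx
      obtain ⟨h1, h2, h3⟩ := reps_spec h hc hx
      exact mem_part.2 ⟨h1, h2⟩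
    · intro x hx y hy hxy
      rw [Finset.disjoint_left]
      intro v hv hv'
      exact hxy ((part_rep h hv).symm.trans (part_rep h hv'))
    · intro x hx e he
      obtain ⟨j, hj, hej⟩ := Multiset.mem_sum.1 (Multiset.mem_filter.1 he).1
      exact h.loopless _ e (Multiset.mem_filter.1 hej).1
    · intro x hx e he
      exact (Multiset.mem_filter.1 he).2
    · intro x hx S hS hne hSne
      obtain ⟨h1, h2, h3⟩ := reps_spec h hc hx
      exact hc.conn (ty O x) x h3 S hS hne hSne
    · rintro x y ⟨u, w, huw⟩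
      exact huw.1
    · intro x y hxy
      obtain ⟨u, w, e1, e2⟩ := prf_spec hxy
      exact ⟨u, e2.2.2.2.1, w, e2.2.2.2.2.1, e1⟩
    · exact cluster_real hR h hc
  · obtain ⟨i⟩ := (inferInstance : Nonempty ι)
    obtain ⟨v, hv⟩ := Finset.card_pos.1 (h.odd i).pos
    exact ⟨c i v, mem_reps.2 ⟨i, Finset.mem_image_of_mem _ hv⟩⟩

end OddImm
end
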