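import Pool.Agent.Lib.MP_361057_co.Mg.G001

section

/-! From a realised clique to an immersion. -/

open Finset Classical

namespace OddImm

universe u

variable {V : Type u} [Fintype V]

theorem extract_orient {V : Type u} (G : SimpleGraph V) (w : Σ p : V × V, G.Walk p.1 p.2)
    {a b : V} (h : s(w.1.1, w.1.2) = s(a, b)) :
    ∃ q : G.Walk a b, q.IsPath ∧ ∀ e ∈ q.edges, e ∈ w.2.edges := by
  obtain ⟨⟨x, y⟩, w⟩ := w
  simp only at h w ⊢
  rw [Sym2.eq_iff] at h
  rcases h with ⟨rfl, rfl⟩ | ⟨rfl, rfl⟩
  · exact ⟨w.bypass, w.bypass_isPath, fun e he => w.edges_bypass_subset_edges he⟩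
  · refine ⟨w.reverse.bypass, w.reverse.bypass_isPath, fun e he => ?_⟩
    have h1 := w.reverse.edges_bypass_subset_edges he
    rw [SimpleGraph.Walk.edges_reverse, List.mem_reverse] at h1
    exact h1

theorem clique_of_real (G : SimpleGraph V) (P : Finset V) (h : Real G (prs P)) :
    HasCliqueImmersion G P.card := by
  obtain ⟨L, hL, hnd⟩ := h
  rw [Multiset.nodup_bind] at hnd
  let φ : Fin P.card → V := fun i => (P.equivFin.symm i : V)
  have hφ : Function.Injective φ := fun i j hij =>
    P.equivFin.symm.injective (Subtype.ext hij)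
  have hφP : ∀ i, φ i ∈ P := fun i => (P.equivFin.symm i).2
  have hex : ∀ i j : Fin P.card, i < j → ∃ w ∈ L, s(w.1.1, w.1.2) = s(φ i, φ j) := by
    intro i j hij
    have h1 : s(φ i, φ j) ∈ prs P := by
      unfold prs
      rw [Finset.mem_val, Finset.mem_filter]
      refine ⟨Finset.mem_univ _, ?_, ?_⟩
      · rw [Sym2.mk_isDiag_iff]
        exact fun hh => hij.ne (hφ hh)
      · intro v hv
        rw [Sym2.mem_iff] at hv
        rcases hv with rfl | rfl
        · exact hφP i
        · exact hφP j
    rw [← hL, Multiset.mem_map] at h1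
    exact h1
  choose w hwL hw using hex
  have hpath : ∀ i j (hij : i < j), ∃ q : G.Walk (φ i) (φ j), q.IsPath ∧
      ∀ e ∈ q.edges, e ∈ (w i j hij).2.edges := fun i j hij => extract_orient G _ (hw i j hij)
  choose q hq1 hq2 using hpath
  refine ⟨φ, hφ, q, hq1, ?_⟩
  intro i j hij i' j' hij' hne e he he'
  have hww : w i j hij ≠ w i' j' hij' := by
    intro heq
    have h1 := hw i j hij
    rw [heq, hw i' j' hij', Sym2.eq_iff] at h1
    rcases h1 with ⟨h1, h2⟩ | ⟨h1, h2⟩
    · exact hne (by rw [hφ h1, hφ h2])
    · have e1 := hφ h1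
      have e2 := hφ h2
      subst e1 e2
      exact absurd hij (not_lt.mpr hij'.le)
  have hsymm : Std.Symm (Function.onFun Disjoint
      (fun w : (Σ p : V × V, G.Walk p.1 p.2) => ((w.2.edges : List (Sym2 V)) :
        Multiset (Sym2 V)))) := ⟨fun a b hab => Disjoint.symm hab⟩
  have hdis := Multiset.Pairwise.forall hnd.2 (hwL i j hij) (hwL i' j' hij') hww
  exact (Multiset.disjoint_left.mp hdis) (Multiset.mem_coe.mpr (hq2 i j hij e he))
    (Multiset.mem_coe.mpr (hq2 i' j' hij' e he'))

end OddImm
end

section

/-! Parity lemma (T-joins by lifting). -/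

open Finset Classical

namespace OddImm

universe u

variable {V : Type u}

theorem parity_matching {R : Multiset (Sym2 V) → Prop} (hR : LiftClosed R)
    (F G₀ : Multiset (Sym2 V)) (hF : Loopless F) (h : R (F + G₀)) :
    ∃ M : Multiset (Sym2 V), Loopless M ∧ (∀ v, dg M v = dg F v % 2) ∧ R (M + G₀) := by
  have key : ∀ n : ℕ, ∀ F : Multiset (Sym2 V), F.card = n → Loopless F → R (F + G₀) →
      ∃ M : Multiset (Sym2 V), Loopless M ∧ (∀ v, dg M v = dg F v % 2) ∧ R (M + G₀) := by
    intro n
    induction n using Nat.strong_induction_on with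
    | _ n ih =>
      intro F hn hF h
      by_cases hv : ∃ v, 2 ≤ dg F v
      · obtain ⟨v, hv⟩ := hv
        have h1 : 0 < Multiset.countP (fun e => v ∈ e) F := by
          have : dg F v = Multiset.countP (fun e => v ∈ e) F := rfl
          omega
        obtain ⟨e1, he1, hve1⟩ := Multiset.countP_pos.1 h1
        obtain ⟨F1, rfl⟩ := Multiset.exists_cons_of_mem he1
        have hd1 := dg_cons e1 F1 v
        rw [if_pos hve1] at hd1
        have h2 : 0 < Multiset.countP (fun e => v ∈ e) F1 := by
          have : dg F1 v = Multiset.countP (fun e => v ∈ e) F1 := rfl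
          omega
        obtain ⟨e2, he2, hve2⟩ := Multiset.countP_pos.1 h2
        obtain ⟨F2, rfl⟩ := Multiset.exists_cons_of_mem he2
        obtain ⟨hl1, hl'⟩ := loopless_cons.1 hF
        obtain ⟨hl2, hl3⟩ := loopless_cons.1 hl'
        obtain ⟨a, rfl⟩ := Sym2.mem_iff_exists.1 hve1
        obtain ⟨c, rfl⟩ := Sym2.mem_iff_exists.1 hve2
        have hva : v ≠ a := by simpa using hl1
        have hvc : v ≠ c := by simpa using hl2
        simp only [Multiset.card_cons] at hn
        by_cases hac : a = c
        · subst hac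
          obtain ⟨M, hM1, hM2, hM3⟩ := ih F2.card (by omega) F2 rfl hl3
            (hR.mono (by
              refine Multiset.add_le_add_right ?_
              exact (Multiset.le_cons_self _ _).trans (Multiset.le_cons_self _ _)) h)
          refine ⟨M, hM1, fun w => ?_, hM3⟩
          rw [hM2 w, dg_cons, dg_cons]
          split_ifs <;> omega
        · have h3 : R (s(a, c) ::ₘ (F2 + G₀)) := by
            refine hR.lift (b := v) hac ?_
            have : (s(v, a) ::ₘ s(v, c) ::ₘ F2) + G₀ = s(a, v) ::ₘ s(v, c) ::ₘ (F2 + G₀) := by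
              rw [Multiset.cons_add, Multiset.cons_add, Sym2.eq_swap]
            rwa [this] at h
          rw [← Multiset.cons_add] at h3
          obtain ⟨M, hM1, hM2, hM3⟩ := ih (s(a, c) ::ₘ F2).card
            (by simp only [Multiset.card_cons]; omega) (s(a, c) ::ₘ F2) rfl
            (loopless_cons.2 ⟨by simpa using hac, hl3⟩) h3
          refine ⟨M, hM1, fun w => ?_, hM3⟩
          rw [hM2 w, dg_cons, dg_cons, dg_cons]
          simp only [Sym2.mem_iff]
          by_cases h5 : w = v
          · subst h5
            simp [hva, hvc]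
            omega
          · by_cases h6 : w = a
            · subst h6
              simp [h5, hac]
            · by_cases h7 : w = c
              · subst h7
                simp [h5, h6]
              · simp [h5, h6, h7]
      · push Not at hv
        refine ⟨F, hF, fun w => ?_, h⟩
        have := hv w
        omega
  exact key _ F rfl hF h

theorem parity_shift {R : Multiset (Sym2 V) → Prop} (hR : LiftClosed R)
    (X : Multiset (Sym2 V)) : LiftClosed (fun Y => R (X + Y)) where
  mono := fun hST h => hR.mono (Multiset.add_le_add_left hST) h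
  lift := by
    intro S a b c hac h
    have h' : R (s(a, b) ::ₘ s(b, c) ::ₘ (X + S)) := by
      rw [Multiset.add_cons, Multiset.add_cons] at h
      exact h
    have := hR.lift hac h'
    rw [Multiset.add_cons]
    exact this

theorem parity_family_aux {κ : Type*} (T : Finset κ) :
    ∀ {R : Multiset (Sym2 V) → Prop} (_ : LiftClosed R)
      (F : κ → Multiset (Sym2 V)) (_ : ∀ e ∈ T, Loopless (F e)) (_ : R (∑ e ∈ T, F e)),
    ∃ M : κ → Multiset (Sym2 V), (∀ e ∈ T, Loopless (M e) ∧ ∀ v, dg (M e) v = dg (F e) v % 2) ∧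
      (∀ e ∉ T, M e = 0) ∧ R (∑ e ∈ T, M e) := by
  induction T using Finset.induction_on with
  | empty =>
    intro R hR F hF h
    refine ⟨fun _ => 0, by simp, fun _ _ => rfl, ?_⟩
    simpa using h
  | insert a T ha ih =>
    intro R hR F hF h
    rw [Finset.sum_insert ha] at h
    obtain ⟨Ma, hMa1, hMa2, hMa3⟩ := parity_matching hR (F a) _ (hF a (Finset.mem_insert_self _ _)) h
    obtain ⟨M, hM1, hM2, hM3⟩ := ih (parity_shift hR Ma) F
      (fun e he => hF e (Finset.mem_insert_of_mem he)) hMa3
    have hne : ∀ e ∈ T, Function.update M a Ma e = M e := by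
      intro e he
      have : e ≠ a := by
        rintro rfl
        exact ha he
      simp [Function.update, this]
    refine ⟨Function.update M a Ma, ?_, ?_, ?_⟩
    · intro e he
      rcases Finset.mem_insert.1 he with rfl | he
      · rw [Function.update_self]
        exact ⟨hMa1, hMa2⟩
      · rw [hne e he]
        exact hM1 e he
    · intro e he
      have h1 : e ≠ a := by
        rintro rfl
        exact he (Finset.mem_insert_self _ _)
      have h2 : e ∉ T := fun h' => he (Finset.mem_insert_of_mem h')
      rw [Function.update_of_ne h1]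
      exact hM2 e h2
    · rw [Finset.sum_insert ha, Function.update_self, Finset.sum_congr rfl hne]
      exact hM3

theorem parity_family {R : Multiset (Sym2 V) → Prop} (hR : LiftClosed R) {κ : Type*}
    (T : Finset κ) (F : κ → Multiset (Sym2 V)) (hF : ∀ e ∈ T, Loopless (F e))
    (h : R (∑ e ∈ T, F e)) :
    ∃ M : κ → Multiset (Sym2 V), (∀ e ∈ T, Loopless (M e) ∧ ∀ v, dg (M e) v = dg (F e) v % 2) ∧
      (∀ e ∉ T, M e = 0) ∧ R (∑ e ∈ T, M e) :=
  parity_family_aux T hR F hF h

end OddImm
end

section

/-! Kempe elimination of an even set with few boundary labels. -/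

open Finset Classical

namespace OddImm

universe u

variable {V : Type u}

/-- Without crossing pairs the pairs inside `C` have the full degree on `C`. -/
theorem kempe_dg_ins {F : Multiset (Sym2 V)} {C : Finset V} (hc : cut F C = 0) (v : V) :
    dg (F.filter (Ins C)) v = if v ∈ C then dg F v else 0 := by
  have hcr : ∀ e ∈ F, ¬ Cr C e := by
    unfold cut at hc
    exact Multiset.countP_eq_zero.1 hc
  unfold dg
  rw [Multiset.countP_filter]
  split_ifs with hv
  · apply Multiset.countP_congr rfl
    intro e he
    simp only [eq_iff_iff, and_iff_left_iff_imp]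
    intro hve w hw
    by_contra hwC
    exact hcr e he ⟨⟨v, hve, hv⟩, ⟨w, hw, hwC⟩⟩
  · rw [Multiset.countP_eq_zero]
    rintro e _ ⟨hve, hins⟩
    exact hv (hins v hve)

theorem kempe_dg_not {F : Multiset (Sym2 V)} {C : Finset V} (v : V) :
    dg (F.filter (Ins C)) v + dg (F.filter (fun e => ¬ Ins C e)) v = dg F v := by
  rw [← dg_add, Multiset.filter_add_not]

theorem kempe_loopless_filter {F : Multiset (Sym2 V)} (hF : Loopless F)
    (P : Sym2 V → Prop) [DecidablePred P] : Loopless (F.filter P) :=
  fun e he => hF e (Multiset.mem_of_mem_filter he)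

variable [Fintype V]

theorem kempe {R : Multiset (Sym2 V) → Prop} (hR : LiftClosed R) {ι : Type} [Fintype ι]
    {O : ι → Finset V} {F : Sym2 ι → Multiset (Sym2 V)} (h : Str R O F) (i : ι)
    (C : Finset V) (hC : C ⊆ O i) (hne : C.Nonempty) (hev : Even C.card)
    (hJ : 2 * (JJ F i C).card + 1 ≤ Fintype.card ι) :
    ∃ (O' : ι → Finset V) (F' : Sym2 ι → Multiset (Sym2 V)), Str R O' F' ∧
      ∑ k, (O' k).card < ∑ k, (O k).card := by
  set J := JJ F i C with hJdef
  set K := ((univ : Finset ι).erase i) \ J with hK
  have hJsub : J ⊆ (univ : Finset ι).erase i := by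
    intro j hj
    rw [hJdef, JJ, Finset.mem_filter] at hj
    exact Finset.mem_erase.2 ⟨hj.2.1, mem_univ _⟩
  have hKcard : J.card ≤ K.card := by
    rw [hK, Finset.card_sdiff_of_subset hJsub, Finset.card_erase_of_mem (mem_univ _),
      Finset.card_univ]
    omega
  obtain ⟨σ, hσK, hσinj⟩ : ∃ σ : ι → ι, (∀ j ∈ J, σ j ∈ K) ∧ Set.InjOn σ J := by
    have hne' : Nonempty (J ↪ K) := by
      apply Function.Embedding.nonempty_of_card_le
      simpa using hKcard
    obtain ⟨τ⟩ := hne'
    refine ⟨fun j => if hj : j ∈ J then ((τ ⟨j, hj⟩ : K) : ι) else j, ?_, ?_⟩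
    · intro j hj
      simp only [dif_pos hj]
      exact (τ ⟨j, hj⟩).2
    · intro a ha b hb hab
      have ha' : a ∈ J := ha
      have hb' : b ∈ J := hb
      simp only [dif_pos ha', dif_pos hb'] at hab
      have h1 := τ.injective (Subtype.ext hab)
      exact congrArg Subtype.val h1
  have hcutK : ∀ j ∈ K, cut (F s(i, j)) C = 0 := by
    intro j hj
    rw [hK, Finset.mem_sdiff, Finset.mem_erase] at hj
    by_contra hc
    apply hj.2
    rw [hJdef, JJ, Finset.mem_filter]
    exact ⟨mem_univ _, hj.1.1, by omega⟩
  -- new multisets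
  set g : ι → Multiset (Sym2 V) := fun j =>
    if j ∈ J then F s(i, j) + (F s(i, σ j)).filter (Ins C)
    else (F s(i, j)).filter (fun e => ¬ Ins C e) with hg
  set F₁ : Sym2 ι → Multiset (Sym2 V) := fun e =>
    if he : i ∈ e then g (Sym2.Mem.other he) else F e with hF₁
  have hF₁i : ∀ j, F₁ s(i, j) = g j := by
    intro j
    have he : i ∈ s(i, j) := by simp
    have h1 : Sym2.Mem.other he = j := by
      have := Sym2.other_spec he
      exact Sym2.congr_right.1 this
    simp only [hF₁, dif_pos he, h1]
  have hF₁n : ∀ e, i ∉ e → F₁ e = F e := by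
    intro e he
    simp only [hF₁, dif_neg he]
  set T := (univ : Finset (Sym2 ι)).filter (fun e => ¬ e.IsDiag) with hT
  -- the sum
  have hsum : ∑ e ∈ T, F₁ e ≤ ∑ e ∈ T, F e := by
    rw [← Finset.sum_filter_add_sum_filter_not T (fun e => i ∈ e) F₁,
      ← Finset.sum_filter_add_sum_filter_not T (fun e => i ∈ e) F]
    have hrest : ∑ e ∈ T.filter (fun e => ¬ i ∈ e), F₁ e
        = ∑ e ∈ T.filter (fun e => ¬ i ∈ e), F e := by
      apply Finset.sum_congr rfl
      intro e he
      exact hF₁n e (Finset.mem_filter.1 he).2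
    rw [hrest]
    apply add_le_add_left
    have himg : T.filter (fun e => i ∈ e)
        = ((univ : Finset ι).erase i).image (fun j => s(i, j)) := by
      ext e
      simp only [hT, Finset.mem_filter, mem_univ, true_and, Finset.mem_image, Finset.mem_erase,
        and_true]
      constructor
      · rintro ⟨h1, h2⟩
        refine ⟨Sym2.Mem.other h2, ?_, Sym2.other_spec h2⟩
        intro h3
        apply h1
        rw [← Sym2.other_spec h2, h3]
        simp
      · rintro ⟨j, hj, rfl⟩
        refine ⟨?_, by simp⟩
        simp only [Sym2.mk_isDiag_iff]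
        exact fun h => hj h.symm
    have hinj : Set.InjOn (fun j => s(i, j)) ((univ : Finset ι).erase i) := by
      intro a _ b _ hab
      exact Sym2.congr_right.1 hab
    rw [himg, Finset.sum_image hinj, Finset.sum_image hinj]
    have hsplit : ∀ f : ι → Multiset (Sym2 V),
        ∑ j ∈ (univ : Finset ι).erase i, f j = ∑ j ∈ J, f j + ∑ j ∈ K, f j := by
      intro f
      rw [hK, add_comm, Finset.sum_sdiff hJsub]
    rw [hsplit, hsplit]
    have h1 : ∑ j ∈ J, F₁ s(i, j)
        = ∑ j ∈ J, F s(i, j) + ∑ j ∈ J, (F s(i, σ j)).filter (Ins C) := by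
      rw [← Finset.sum_add_distrib]
      apply Finset.sum_congr rfl
      intro j hj
      rw [hF₁i, hg]
      simp only [if_pos hj]
    have h2 : ∑ j ∈ K, F₁ s(i, j) = ∑ j ∈ K, (F s(i, j)).filter (fun e => ¬ Ins C e) := by
      apply Finset.sum_congr rfl
      intro j hj
      rw [hF₁i, hg]
      simp only [if_neg (Finset.mem_sdiff.1 hj).2]
    have h3 : ∑ j ∈ J, (F s(i, σ j)).filter (Ins C) ≤ ∑ j ∈ K, (F s(i, j)).filter (Ins C) := by
      rw [← Finset.sum_image (f := fun j => (F s(i, j)).filter (Ins C)) (g := σ) hσinj]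
      apply Finset.sum_le_sum_of_subset
      intro j hj
      obtain ⟨j', hj', rfl⟩ := Finset.mem_image.1 hj
      exact hσK j' hj'
    have h4 : ∑ j ∈ K, F s(i, j) = ∑ j ∈ K, (F s(i, j)).filter (Ins C)
        + ∑ j ∈ K, (F s(i, j)).filter (fun e => ¬ Ins C e) := by
      rw [← Finset.sum_add_distrib]
      apply Finset.sum_congr rfl
      intro j _
      rw [Multiset.filter_add_not]
    rw [h1, h2, h4, add_assoc]
    gcongr
  have hloop : ∀ e ∈ T, Loopless (F₁ e) := by
    intro e _
    by_cases he : i ∈ e
    · simp only [hF₁, dif_pos he, hg]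
      split_ifs
      · exact loopless_add (h.loopless _) (kempe_loopless_filter (h.loopless _) _)
      · exact kempe_loopless_filter (h.loopless _) _
    · rw [hF₁n e he]
      exact h.loopless e
  obtain ⟨M, hM1, hM2, hM3⟩ := parity_family hR T F₁ hloop (hR.mono hsum h.real)
  -- degrees
  have hdeg1 : ∀ j, j ≠ i → ∀ v, dg (F₁ s(i, j)) v % 2 = if v ∈ O i \ C ∨ v ∈ O j then 1 else 0 := by
    intro j hj v
    have hd := h.deg i j hj.symm v
    have hdisj := h.disj i j hj.symm
    rw [hF₁i, hg]
    by_cases hjJ : j ∈ J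
    · simp only [if_pos hjJ]
      have hσ := hσK j hjJ
      have hσi : σ j ≠ i := (Finset.mem_erase.1 (Finset.mem_sdiff.1 hσ).1).1
      have hd2 := h.deg i (σ j) hσi.symm v
      rw [dg_add, kempe_dg_ins (hcutK _ hσ), hd, hd2]
      by_cases hvC : v ∈ C
      · have hvO : v ∈ O i := hC hvC
        have hvOj : v ∉ O j := Finset.disjoint_left.1 hdisj hvO
        simp [hvC, hvO, hvOj]
      · rw [if_neg hvC]
        simp only [Finset.mem_sdiff, hvC, not_false_eq_true, and_true, add_zero]
        split_ifs <;> rfl
    · simp only [if_neg hjJ]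
      have hjK : j ∈ K := by
        rw [hK, Finset.mem_sdiff, Finset.mem_erase]
        exact ⟨⟨hj, mem_univ _⟩, hjJ⟩
      have h5 := kempe_dg_not (F := F s(i, j)) (C := C) v
      rw [kempe_dg_ins (hcutK _ hjK), hd] at h5
      by_cases hvC : v ∈ C
      · have hvO : v ∈ O i := hC hvC
        have hvOj : v ∉ O j := Finset.disjoint_left.1 hdisj hvO
        simp only [hvC, hvO, true_or, if_true] at h5
        have h6 : dg ((F s(i, j)).filter (fun e => ¬ Ins C e)) v = 0 := by omega
        rw [h6]
        simp [hvC, hvOj]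
      · simp only [hvC, if_false, zero_add] at h5
        rw [h5]
        simp only [Finset.mem_sdiff, hvC, not_false_eq_true, and_true]
        split_ifs <;> rfl
  refine ⟨fun k => if k = i then O i \ C else O k, M, ⟨?_, ?_, ?_, ?_, ?_⟩, ?_⟩
  · intro e
    by_cases he : e ∈ T
    · exact (hM1 e he).1
    · rw [hM2 e he]
      intro e' he'
      simp at he'
  · intro k
    by_cases hk : k = i
    · subst hk
      simp only [if_true]
      rw [Finset.card_sdiff_of_subset hC]
      have h1 := h.odd k
      have h2 : C.card ≤ (O k).card := Finset.card_le_card hC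
      exact Nat.Odd.sub_even h2 h1 hev
    · simp only [if_neg hk]
      exact h.odd k
  · intro a b hab
    have hsub : ∀ k, (if k = i then O i \ C else O k) ⊆ O k := by
      intro k
      by_cases hk : k = i
      · subst hk
        simp only [if_true]
        exact Finset.sdiff_subset
      · simp only [if_neg hk]
        exact Finset.Subset.refl _
    exact Finset.disjoint_of_subset_left (hsub a)
      (Finset.disjoint_of_subset_right (hsub b) (h.disj a b hab))
  · intro a b hab v
    have hTm : s(a, b) ∈ T := by
      rw [hT, Finset.mem_filter]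
      refine ⟨mem_univ _, ?_⟩
      simpa using hab
    rw [(hM1 _ hTm).2 v]
    by_cases ha : a = i
    · subst ha
      have hb : b ≠ a := hab.symm
      rw [hdeg1 b hb v]
      simp only [if_true, if_neg hb]
    · by_cases hb : b = i
      · subst hb
        rw [Sym2.eq_swap, hdeg1 a ha v]
        simp only [if_true, if_neg ha]
        congr 1
        exact propext or_comm
      · have he : i ∉ s(a, b) := by
          rw [Sym2.mem_iff]
          rintro (h1 | h1)
          · exact ha h1.symm
          · exact hb h1.symm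
        rw [hF₁n _ he, h.deg a b hab v]
        simp only [if_neg ha, if_neg hb]
        split_ifs <;> rfl
  · exact hM3
  · apply Finset.sum_lt_sum
    · intro k _
      by_cases hk : k = i
      · subst hk
        simp only [if_true]
        exact Finset.card_le_card Finset.sdiff_subset
      · simp only [if_neg hk]
        exact le_refl _
    · refine ⟨i, mem_univ _, ?_⟩
      simp only [if_true]
      rw [Finset.card_sdiff_of_subset hC]
      have h1 := hne.card_pos
      have h2 : C.card ≤ (O i).card := Finset.card_le_card hC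
      omega

end OddImm
end

section

/-! A minimal structure: every nonempty set has many boundary labels. -/

open Finset Classical

namespace OddImm

universe u

variable {V : Type u} [Fintype V]

theorem Star_odd {R : Multiset (Sym2 V) → Prop} {ι : Type} [Fintype ι]
    {O : ι → Finset V} {F : Sym2 ι → Multiset (Sym2 V)} (h : Str R O F) (i : ι)
    (C : Finset V) (hC : C ⊆ O i) (hodd : Odd C.card) :
    (JJ F i C).card + 1 = Fintype.card ι := by
  have h1 : JJ F i C = (univ : Finset ι).erase i := by
    ext j
    simp only [JJ, mem_filter, mem_univ, true_and, mem_erase, and_true]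
    constructor
    · exact fun h => h.1
    · intro hj
      refine ⟨hj, ?_⟩
      by_contra hcut
      have hcut0 : cut (F s(i, j)) C = 0 := by omega
      have hsum := sum_dg (h.loopless s(i, j)) C
      rw [hcut0, zero_add] at hsum
      have h2 : ∑ v ∈ C, dg (F s(i, j)) v = C.card := by
        rw [card_eq_sum_ones]
        refine sum_congr rfl fun v hv => ?_
        rw [h.deg i j (Ne.symm hj) v, if_pos (Or.inl (hC hv))]
      rw [h2] at hsum
      rw [hsum] at hodd
      exact (Nat.not_odd_iff_even.2 (even_two_mul _)) hodd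
  rw [h1, card_erase_add_one (mem_univ i), card_univ]

theorem exists_star_str {R : Multiset (Sym2 V) → Prop} (hR : LiftClosed R) {ι : Type}
    [Fintype ι] (hn : 2 ≤ Fintype.card ι) {O₀ : ι → Finset V}
    {F₀ : Sym2 ι → Multiset (Sym2 V)} (h₀ : Str R O₀ F₀) :
    ∃ (O : ι → Finset V) (F : Sym2 ι → Multiset (Sym2 V)), Str R O F ∧
      ∀ i, ∀ C ⊆ O i, C.Nonempty → Fintype.card ι ≤ 2 * (JJ F i C).card := by
  have hex : ∃ m, ∃ (O : ι → Finset V) (F : Sym2 ι → Multiset (Sym2 V)), Str R O F ∧
      ∑ k, (O k).card = m := ⟨_, O₀, F₀, h₀, rfl⟩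
  obtain ⟨O, F, hOF, hm⟩ := Nat.find_spec hex
  refine ⟨O, F, hOF, fun i C hC hne => ?_⟩
  by_contra hcon
  push Not at hcon
  rcases Nat.even_or_odd C.card with hev | hodd
  · obtain ⟨O', F', hOF', hlt⟩ := kempe hR hOF i C hC hne hev (by omega)
    rw [hm] at hlt
    exact Nat.find_min hex hlt ⟨O', F', hOF', rfl⟩
  · have h1 := Star_odd hOF i C hC hodd
    omega

end OddImm
end
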