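import Pool.Agent.Lib.MP_361057_co.Mg.G006
import Pool.Agent.Lib.MP_361057_co.Fan

section

/-! The elimination process: start, size bound, adding hubs. -/

open Finset Classical

namespace OddImm

universe u

variable {V : Type u} [Fintype V] {R : Multiset (Sym2 V) → Prop} {t : ℕ} {W : Finset V}
  {H : SimpleGraph V} {v₀ : V} {E : Finset V} {L : List V} {G : SimpleGraph V}

/-- The starting configuration. -/
theorem Config.start (ht : 2 ≤ t) (hg : Good R (29 * t) W H v₀) :
    Config R t W H v₀ ∅ [v₀] H where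
  nodup := List.nodup_singleton _
  last := ⟨[], rfl⟩
  EW := empty_subset _
  LW := by
    intro x hx
    rw [List.mem_singleton] at hx
    subst hx
    exact ⟨hg.mem, notMem_empty _⟩
  inG := fun x y hxy => ⟨hg.inW x y hxy, notMem_empty _⟩
  real := hg.real
  small := by
    rw [card_empty, List.length_singleton]
    omega
  c1 := fun _ _ _ _ => rfl
  c2 := by
    intro z hz
    rw [List.mem_singleton] at hz
    subst hz
    have : (nb H z \ (∅ ∪ [z].toFinset)) \ nb H z = ∅ := by
      rw [sdiff_eq_empty_iff_subset]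
      exact sdiff_subset
    rw [this, card_empty]
    omega
  c3 := by
    intro x _ _
    rw [Finset.sdiff_self, card_empty]
  c4 := by
    intro z hz
    rcases hz with hz | hz
    · exact absurd hz (notMem_empty _)
    · rw [List.mem_singleton] at hz
      subst hz
      rw [Finset.sdiff_self, card_empty]
      exact Nat.zero_le _
  c5 := ⟨Or.inl rfl, trivial⟩

theorem confA_K0 (hg : Good R (29 * t) W H v₀) : 29 * t ≤ (nb H v₀).card + 1 := hg.deg₀

theorem confA_card_le (hc : Config R t W H v₀ E L G) :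
    (E ∪ L.toFinset).card ≤ E.card + L.length :=
  (card_union_le _ _).trans (Nat.add_le_add_left (List.toFinset_card_le L) _)

/-- Pending vertices have many neighbours that are not pending. -/
theorem Config.large (hg : Good R (29 * t) W H v₀) (hc : Config R t W H v₀ E L G)
    {z : V} (hz : z ∈ L) : 25 * t ≤ (nb G z \ L.toFinset).card := by
  have h0 := confA_K0 hg
  have h1 := hc.c2 z hz
  have h2 := confA_card_le hc
  have h3 := hc.small
  have h4 : 1 ≤ L.length := List.length_pos_of_mem hz
  have h5 : (nb H v₀).card ≤ (nb H v₀ \ (E ∪ L.toFinset)).card + (E ∪ L.toFinset).card := by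
    have := card_le_card (show nb H v₀ ⊆ (nb H v₀ \ (E ∪ L.toFinset)) ∪ (E ∪ L.toFinset) by
      intro x hx
      rw [mem_union, mem_sdiff]
      by_cases h : x ∈ E ∪ L.toFinset
      · exact Or.inr h
      · exact Or.inl ⟨hx, h⟩)
    exact this.trans (card_union_le _ _)
  have h6 : (nb H v₀ \ (E ∪ L.toFinset)).card ≤
      ((nb H v₀ \ (E ∪ L.toFinset)) \ nb G z).card + (nb G z \ L.toFinset).card := by
    have := card_le_card (show (nb H v₀ \ (E ∪ L.toFinset)) ⊆
        ((nb H v₀ \ (E ∪ L.toFinset)) \ nb G z) ∪ (nb G z \ L.toFinset) by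
      intro x hx
      rw [mem_union]
      by_cases h : x ∈ nb G z
      · right
        rw [mem_sdiff, mem_union] at hx
        rw [mem_sdiff]
        exact ⟨h, fun h' => hx.2 (Or.inr h')⟩
      · left
        rw [mem_sdiff]
        exact ⟨hx, h⟩)
    exact this.trans (card_union_le _ _)
  omega

theorem confA_ch {r : V} (hch : Ch G (r :: L)) (l : List V) (hl : ∀ h ∈ l, G.Adj h r) :
    Ch G (l ++ (r :: L)) := by
  induction l with
  | nil => exact hch
  | cons a l ih =>
    rw [List.cons_append]
    refine ⟨Or.inr ⟨r, ?_, hl a List.mem_cons_self⟩, ih (fun h hh => hl h (List.mem_cons_of_mem _ hh))⟩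
    exact List.mem_append_right _ List.mem_cons_self

/-- Adding hubs of the top element. -/
theorem Config.addHubs (hR : LiftClosed R) (ht : 2 ≤ t) (hg : Good R (29 * t) W H v₀)
    (hno : ¬ ∃ P : Finset V, P.card = t ∧ R (prs P)) {r : V}
    (hc : Config R t W H v₀ E (r :: L) G) (X' : Finset V)
    (hX' : X' ⊆ nb G r \ (r :: L).toFinset)
    (hX1 : (nb G r \ (r :: L).toFinset).card ≤ X'.card + 1)
    (Hs : Finset V) (hHs : Hs ⊆ X') (hne : Hs.Nonempty)
    (hh : ∀ h ∈ Hs, (X' \ nb G h).card ≤ Hs.card)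
    (hcom : ∀ h ∈ Hs, ∀ h' ∈ Hs, X'.card ≤ 6 * (nb G h ∩ nb G h' ∩ X').card) :
    Config R t W H v₀ E (Hs.toList ++ (r :: L)) G := by
  have hHsX : Hs ⊆ nb G r \ (r :: L).toFinset := hHs.trans hX'
  have hHsadj : ∀ h ∈ Hs, G.Adj r h := fun h hh' => mem_nb.mp (mem_sdiff.mp (hHsX hh')).1
  have hHsnL : ∀ h ∈ Hs, h ∉ r :: L := by
    intro h hh' hcon
    exact (mem_sdiff.mp (hHsX hh')).2 (List.mem_toFinset.mpr hcon)
  have hHsW : ∀ h ∈ Hs, h ∈ W ∧ h ∉ E := fun h hh' => hc.inG h r (hHsadj h hh').symm
  have hHs1 : 1 ≤ Hs.card := card_pos.mpr hne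
  have hlen : (Hs.toList ++ (r :: L)).length = Hs.card + (r :: L).length := by
    rw [List.length_append, length_toList]
  have hmem : ∀ z, z ∈ Hs.toList ++ (r :: L) ↔ z ∈ Hs ∨ z ∈ r :: L := by
    intro z
    rw [List.mem_append, mem_toList]
  have hnodup : (Hs.toList ++ (r :: L)).Nodup := by
    rw [List.nodup_append]
    refine ⟨Finset.nodup_toList _, hc.nodup, ?_⟩
    rintro a ha b hb rfl
    exact hHsnL a (mem_toList.mp ha) hb
  have hsub : (r :: L).toFinset ⊆ (Hs.toList ++ (r :: L)).toFinset := by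
    intro x hx
    rw [List.mem_toFinset] at hx ⊢
    rw [hmem]
    exact Or.inr hx
  have hElt : E.card + 1 ≤ E.card + (r :: L).length := by
    rw [List.length_cons]; omega
  -- the basic bound for (C2)
  have hc2h : ∀ h ∈ Hs, ((nb H v₀ \ (E ∪ (r :: L).toFinset)) \ nb G h).card ≤
      2 * (E.card + (r :: L).length) + E.card + (Hs.card + 1) := by
    intro h hhs
    have h1 : ((nb H v₀ \ (E ∪ (r :: L).toFinset)) \ nb G h) ⊆
        ((nb H v₀ \ (E ∪ (r :: L).toFinset)) \ nb G r) ∪
          ((X' \ nb G h) ∪ ((nb G r \ (r :: L).toFinset) \ X')) := by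
      intro x hx
      rw [mem_sdiff] at hx
      have hx0 := mem_sdiff.mp hx.1
      simp only [mem_union, mem_sdiff (a := x)] at hx0 ⊢
      by_cases h1 : x ∈ nb G r
      · right
        have h2 : x ∉ (r :: L).toFinset := fun h2 => hx0.2 (Or.inr h2)
        by_cases h3 : x ∈ X'
        · exact Or.inl ⟨h3, hx.2⟩
        · exact Or.inr ⟨⟨h1, h2⟩, h3⟩
      · exact Or.inl ⟨hx0, h1⟩
    have h2 := card_le_card h1
    have h3 := card_union_le ((nb H v₀ \ (E ∪ (r :: L).toFinset)) \ nb G r)
      ((X' \ nb G h) ∪ ((nb G r \ (r :: L).toFinset) \ X'))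
    have h4 := card_union_le (X' \ nb G h) ((nb G r \ (r :: L).toFinset) \ X')
    have h5 := hc.c2 r List.mem_cons_self
    have h6 := hh h hhs
    have h7 : ((nb G r \ (r :: L).toFinset) \ X').card ≤ 1 := by
      rw [card_sdiff_of_subset hX']
      omega
    omega
  have hc4 : ∀ z, z ∈ E ∨ z ∈ Hs.toList ++ (r :: L) →
      (nb H v₀ \ nb H z).card ≤ 6 * (E.card + (Hs.toList ++ (r :: L)).length) := by
    intro z hz
    rw [hlen]
    rcases hz with hz | hz
    · have := hc.c4 z (Or.inl hz)
      omega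
    · rw [hmem] at hz
      rcases hz with hz | hz
      · have h1 : (nb H v₀ \ nb H z) ⊆
            ((nb H v₀ \ (E ∪ (r :: L).toFinset)) \ nb G z) ∪
              ((E ∪ (r :: L).toFinset) ∪ (nb G z \ nb H z)) := by
          intro x hx
          rw [mem_sdiff] at hx
          rw [mem_union, mem_union, mem_sdiff, mem_sdiff, mem_sdiff]
          by_cases h1 : x ∈ E ∪ (r :: L).toFinset
          · exact Or.inr (Or.inl h1)
          · by_cases h2 : x ∈ nb G z
            · exact Or.inr (Or.inr ⟨h2, hx.2⟩)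
            · exact Or.inl ⟨⟨hx.1, h1⟩, h2⟩
        have h2 := card_le_card h1
        have h3 := card_union_le ((nb H v₀ \ (E ∪ (r :: L).toFinset)) \ nb G z)
          ((E ∪ (r :: L).toFinset) ∪ (nb G z \ nb H z))
        have h4 := card_union_le (E ∪ (r :: L).toFinset) (nb G z \ nb H z)
        have h5 := hc2h z hz
        have h6 := confA_card_le hc
        have h7 := hc.c3 z (hHsW z hz).1 (hHsW z hz).2
        omega
      · have := hc.c4 z (Or.inr hz)
        omega
  have hsmall : E.card + (Hs.toList ++ (r :: L)).length < t := by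
    by_contra hcon
    push Not at hcon
    apply hno
    have hX'big : 25 * t ≤ X'.card + 1 := (Config.large hg hc List.mem_cons_self).trans hX1
    -- few hubs
    by_cases hHt : t ≤ Hs.card
    · obtain ⟨P, hPH, hPt⟩ := exists_subset_card_eq hHt
      refine ⟨P, hPt, clique_of_common hR G hc.real P ?_⟩
      intro p hp q hq _
      have h1 := hcom p (hPH hp) q (hPH hq)
      have h2 : (nb G p ∩ nb G q ∩ X').card ≤ ((nb G p ∩ nb G q) \ P).card + P.card := by
        have := card_le_card (show nb G p ∩ nb G q ∩ X' ⊆ ((nb G p ∩ nb G q) \ P) ∪ P by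
          intro x hx
          rw [mem_inter] at hx
          rw [mem_union, mem_sdiff]
          by_cases h : x ∈ P
          · exact Or.inr h
          · exact Or.inl ⟨hx.1, h⟩)
        exact this.trans (card_union_le _ _)
      omega
    · have hcard : (E ∪ (Hs.toList ++ (r :: L)).toFinset).card =
          E.card + (Hs.toList ++ (r :: L)).length := by
        rw [card_union_of_disjoint, List.toFinset_card_of_nodup hnodup]
        rw [Finset.disjoint_left]
        intro x hx hx'
        rw [List.mem_toFinset, hmem] at hx'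
        rcases hx' with hx' | hx'
        · exact (hHsW x hx').2 hx
        · exact (hc.LW x hx').2 hx
      rw [← hcard] at hcon
      obtain ⟨P, hPH, hPt⟩ := exists_subset_card_eq hcon
      refine ⟨P, hPt, clique_of_common hR H hg.real P ?_⟩
      have hsm := hc.small
      have hK := confA_K0 hg
      have hP4 : ∀ p ∈ P, (nb H v₀ \ nb H p).card ≤
          6 * (E.card + (Hs.toList ++ (r :: L)).length) := by
        intro p hp
        apply hc4
        have := hPH hp
        rwa [mem_union, List.mem_toFinset] at this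
      rw [hlen] at hP4
      intro p hp q hq _
      have h1 := hP4 p hp
      have h2 := hP4 q hq
      have h3 : (nb H v₀).card ≤ (nb H v₀ \ nb H p).card + ((nb H v₀ \ nb H q).card +
          (((nb H p ∩ nb H q) \ P).card + P.card)) := by
        have h4 := card_le_card (show nb H v₀ ⊆ (nb H v₀ \ nb H p) ∪ ((nb H v₀ \ nb H q) ∪
            (((nb H p ∩ nb H q) \ P) ∪ P)) by
          intro x hx
          simp only [mem_union, mem_sdiff, mem_inter]
          by_cases ha : x ∈ nb H p
          · by_cases hb : x ∈ nb H q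
            · by_cases hc' : x ∈ P
              · exact Or.inr (Or.inr (Or.inr hc'))
              · exact Or.inr (Or.inr (Or.inl ⟨⟨ha, hb⟩, hc'⟩))
            · exact Or.inr (Or.inl ⟨hx, hb⟩)
          · exact Or.inl ⟨hx, ha⟩)
        have h5 := card_union_le (nb H v₀ \ nb H p) ((nb H v₀ \ nb H q) ∪
            (((nb H p ∩ nb H q) \ P) ∪ P))
        have h6 := card_union_le (nb H v₀ \ nb H q) (((nb H p ∩ nb H q) \ P) ∪ P)
        have h7 := card_union_le ((nb H p ∩ nb H q) \ P) P
        omega
      omega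
  refine ⟨hnodup, ?_, hc.EW, ?_, hc.inG, hc.real, hsmall, ?_, ?_, hc.c3, hc4, ?_⟩
  · obtain ⟨l, hl⟩ := hc.last
    refine ⟨Hs.toList ++ l, ?_⟩
    rw [hl, List.append_assoc]
  · intro x hx
    rw [hmem] at hx
    rcases hx with hx | hx
    · exact hHsW x hx
    · exact hc.LW x hx
  · intro x hxW hxE hxL
    apply hc.c1 x hxW hxE
    intro h
    apply hxL
    rw [hmem]
    exact Or.inr h
  · intro z hz
    rw [hlen]
    have hss : ∀ y : V, ((nb H v₀ \ (E ∪ (Hs.toList ++ (r :: L)).toFinset)) \ nb G y).card ≤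
        ((nb H v₀ \ (E ∪ (r :: L).toFinset)) \ nb G y).card := by
      intro y
      apply card_le_card
      apply sdiff_subset_sdiff _ (le_refl _)
      apply sdiff_subset_sdiff (le_refl _)
      exact union_subset_union (le_refl _) hsub
    rw [hmem] at hz
    rcases hz with hz | hz
    · have h1 := hss z
      have h2 := hc2h z hz
      omega
    · have h1 := hss z
      have h2 := hc.c2 z hz
      omega
  · apply confA_ch hc.c5
    intro h hh'
    exact (hHsadj h (mem_toList.mp hh')).symm

end OddImm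
end

section

/-! The lift of a path with three edges. -/

open Finset Classical

namespace OddImm

universe u

variable {V : Type u} [Fintype V]

/-- Hypotheses for the lift `y - r - p - z  ↦  yz`. -/
structure PLHyp (G : SimpleGraph V) (y r p z : V) : Prop where
  yr : G.Adj y r
  rp : G.Adj r p
  pz : G.Adj p z
  yz : y ≠ z
  yp : y ≠ p
  rz : r ≠ z
  nyz : ¬ G.Adj y z

theorem PL_adj_aux {G : SimpleGraph V} {y r p z : V} (h : PLHyp G y r p z) {a b : V} :
    (plG G y r p z).Adj a b ↔
      (G.Adj a b ∧ s(a, b) ≠ s(y, r) ∧ s(a, b) ≠ s(r, p) ∧ s(a, b) ≠ s(p, z)) ∨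
        s(a, b) = s(y, z) := by
  unfold plG
  rw [SimpleGraph.fromEdgeSet_adj]
  simp only [Set.mem_union, Set.mem_ofPred_eq, Set.mem_singleton_iff, SimpleGraph.mem_edgeSet]
  constructor
  · rintro ⟨h1, _⟩
    exact h1
  · intro h1
    refine ⟨h1, ?_⟩
    rcases h1 with h1 | h1
    · exact h1.1.ne
    · rintro rfl
      have := h.yz
      rcases Sym2.eq_iff.1 h1 with ⟨h2, h3⟩ | ⟨h2, h3⟩
      · exact this (h2.symm.trans h3)
      · exact this (h3.symm.trans h2)

theorem plG_adj {G : SimpleGraph V} {y r p z : V} (h : PLHyp G y r p z) {a b : V} :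
    (plG G y r p z).Adj a b ↔
      (G.Adj a b ∧ s(a, b) ≠ s(y, r) ∧ s(a, b) ≠ s(r, p) ∧ s(a, b) ≠ s(p, z)) ∨
        s(a, b) = s(y, z) := PL_adj_aux h

theorem R_pl {R : Multiset (Sym2 V) → Prop} (hR : LiftClosed R) {G : SimpleGraph V}
    {y r p z : V} (h : PLHyp G y r p z) (hG : R (ed G)) : R (ed (plG G y r p z)) := by
  set T : Finset (Sym2 V) := (univ : Finset (Sym2 V)).filter
    (fun e => e ∈ G.edgeSet ∧ e ≠ s(y, r) ∧ e ≠ s(r, p) ∧ e ≠ s(p, z)) with hT
  have hyr := h.yr.ne
  have hrp := h.rp.ne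
  have hpz := h.pz.ne
  have hyz := h.yz
  have hyp := h.yp
  have hrz := h.rz
  have n1 : s(p, z) ∉ T := by simp [hT]
  have n2 : s(r, p) ∉ insert s(p, z) T := by
    rw [Finset.mem_insert, not_or]
    refine ⟨?_, by simp [hT]⟩
    intro he
    rcases Sym2.eq_iff.1 he with ⟨h2, _⟩ | ⟨h2, _⟩
    · exact hrp h2
    · exact hrz h2
  have n3 : s(y, r) ∉ insert s(r, p) (insert s(p, z) T) := by
    rw [Finset.mem_insert, Finset.mem_insert, not_or, not_or]
    refine ⟨?_, ?_, by simp [hT]⟩
    · intro he
      rcases Sym2.eq_iff.1 he with ⟨h2, _⟩ | ⟨h2, _⟩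
      · exact hyr h2
      · exact hyp h2
    · intro he
      rcases Sym2.eq_iff.1 he with ⟨h2, _⟩ | ⟨h2, _⟩
      · exact hyp h2
      · exact hyz h2
  have n4 : s(y, z) ∉ T := by
    intro he
    have := (Finset.mem_filter.1 he).2.1
    exact h.nyz this
  have e1 : (univ : Finset (Sym2 V)).filter (fun e => e ∈ G.edgeSet)
      = insert s(y, r) (insert s(r, p) (insert s(p, z) T)) := by
    ext e
    simp only [hT, Finset.mem_filter, Finset.mem_univ, true_and, Finset.mem_insert]
    constructor
    · intro he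
      by_cases c1 : e = s(y, r)
      · exact Or.inl c1
      · by_cases c2 : e = s(r, p)
        · exact Or.inr (Or.inl c2)
        · by_cases c3 : e = s(p, z)
          · exact Or.inr (Or.inr (Or.inl c3))
          · exact Or.inr (Or.inr (Or.inr ⟨he, c1, c2, c3⟩))
    · rintro (rfl | rfl | rfl | he)
      · exact h.yr
      · exact h.rp
      · exact h.pz
      · exact he.1
  have e2 : (univ : Finset (Sym2 V)).filter (fun e => e ∈ (plG G y r p z).edgeSet)
      = insert s(y, z) T := by
    ext e
    induction e using Sym2.ind with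
    | _ a b =>
      simp only [hT, Finset.mem_filter, Finset.mem_univ, true_and, Finset.mem_insert,
        SimpleGraph.mem_edgeSet]
      rw [PL_adj_aux h]
      tauto
  unfold ed at hG ⊢
  rw [e1, Finset.insert_val_of_notMem n3, Finset.insert_val_of_notMem n2,
    Finset.insert_val_of_notMem n1] at hG
  rw [e2, Finset.insert_val_of_notMem n4]
  exact hR.lift hyz (hR.lift hyp hG)

theorem nb_pl_y {G : SimpleGraph V} {y r p z : V} (h : PLHyp G y r p z) :
    nb (plG G y r p z) y = insert z ((nb G y).erase r) := by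
  have hyr := h.yr.ne
  have hyz := h.yz
  have hyp := h.yp
  ext w
  simp only [nb, Finset.mem_filter, Finset.mem_univ, true_and, Finset.mem_insert,
    Finset.mem_erase]
  rw [PL_adj_aux h]
  rw [ne_eq, ne_eq, ne_eq, Sym2.eq_iff, Sym2.eq_iff, Sym2.eq_iff, Sym2.eq_iff]
  constructor
  · rintro (⟨h1, h2, h3, h4⟩ | (⟨_, h1⟩ | ⟨h1, _⟩))
    · right
      refine ⟨?_, h1⟩
      rintro rfl
      exact h2 (Or.inl ⟨rfl, rfl⟩)
    · exact Or.inl h1
    · exact absurd h1 hyz
  · rintro (rfl | ⟨h1, h2⟩)
    · exact Or.inr (Or.inl ⟨rfl, rfl⟩)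
    · refine Or.inl ⟨h2, ?_, ?_, ?_⟩
      · rintro (⟨_, h3⟩ | ⟨h3, _⟩)
        · exact h1 h3
        · exact hyr h3
      · rintro (⟨h3, _⟩ | ⟨h3, _⟩)
        · exact hyr h3
        · exact hyp h3
      · rintro (⟨h3, _⟩ | ⟨h3, _⟩)
        · exact hyp h3
        · exact hyz h3

theorem nb_pl_z {G : SimpleGraph V} {y r p z : V} (h : PLHyp G y r p z) :
    nb (plG G y r p z) z = insert y ((nb G z).erase p) := by
  have hpz := h.pz.ne
  have hyz := h.yz
  have hrz := h.rz
  ext w
  simp only [nb, Finset.mem_filter, Finset.mem_univ, true_and, Finset.mem_insert,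
    Finset.mem_erase]
  rw [PL_adj_aux h]
  rw [ne_eq, ne_eq, ne_eq, Sym2.eq_iff, Sym2.eq_iff, Sym2.eq_iff, Sym2.eq_iff]
  constructor
  · rintro (⟨h1, h2, h3, h4⟩ | (⟨h1, _⟩ | ⟨_, h1⟩))
    · right
      refine ⟨?_, h1⟩
      rintro rfl
      exact h4 (Or.inr ⟨rfl, rfl⟩)
    · exact absurd h1.symm hyz
    · exact Or.inl h1
  · rintro (rfl | ⟨h1, h2⟩)
    · exact Or.inr (Or.inr ⟨rfl, rfl⟩)
    · refine Or.inl ⟨h2, ?_, ?_, ?_⟩
      · rintro (⟨h3, _⟩ | ⟨h3, _⟩)
        · exact hyz h3.symm
        · exact hrz h3.symm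
      · rintro (⟨h3, _⟩ | ⟨h3, _⟩)
        · exact hrz h3.symm
        · exact hpz h3.symm
      · rintro (⟨h3, _⟩ | ⟨_, h3⟩)
        · exact hpz h3.symm
        · exact h1 h3

theorem nb_pl_r {G : SimpleGraph V} {y r p z : V} (h : PLHyp G y r p z) :
    nb (plG G y r p z) r = ((nb G r).erase y).erase p := by
  have hyr := h.yr.ne
  have hrp := h.rp.ne
  have hrz := h.rz
  ext w
  simp only [nb, Finset.mem_filter, Finset.mem_univ, true_and, Finset.mem_erase]
  rw [PL_adj_aux h]
  rw [ne_eq, ne_eq, ne_eq, Sym2.eq_iff, Sym2.eq_iff, Sym2.eq_iff, Sym2.eq_iff]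
  constructor
  · rintro (⟨h1, h2, h3, h4⟩ | (⟨h1, _⟩ | ⟨h1, _⟩))
    · refine ⟨?_, ?_, h1⟩
      · rintro rfl
        exact h3 (Or.inl ⟨rfl, rfl⟩)
      · rintro rfl
        exact h2 (Or.inr ⟨rfl, rfl⟩)
    · exact absurd h1.symm hyr
    · exact absurd h1 hrz
  · rintro ⟨h1, h2, h3⟩
    refine Or.inl ⟨h3, ?_, ?_, ?_⟩
    · rintro (⟨h4, _⟩ | ⟨_, h4⟩)
      · exact hyr h4.symm
      · exact h2 h4
    · rintro (⟨_, h4⟩ | ⟨h4, _⟩)
      · exact h1 h4
      · exact hrp h4
    · rintro (⟨h4, _⟩ | ⟨h4, _⟩)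
      · exact hrp h4
      · exact hrz h4

theorem nb_pl_p {G : SimpleGraph V} {y r p z : V} (h : PLHyp G y r p z) :
    nb (plG G y r p z) p = ((nb G p).erase r).erase z := by
  have hrp := h.rp.ne
  have hpz := h.pz.ne
  have hyp := h.yp
  ext w
  simp only [nb, Finset.mem_filter, Finset.mem_univ, true_and, Finset.mem_erase]
  rw [PL_adj_aux h]
  rw [ne_eq, ne_eq, ne_eq, Sym2.eq_iff, Sym2.eq_iff, Sym2.eq_iff, Sym2.eq_iff]
  constructor
  · rintro (⟨h1, h2, h3, h4⟩ | (⟨h1, _⟩ | ⟨h1, _⟩))
    · refine ⟨?_, ?_, h1⟩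
      · rintro rfl
        exact h4 (Or.inl ⟨rfl, rfl⟩)
      · rintro rfl
        exact h3 (Or.inr ⟨rfl, rfl⟩)
    · exact absurd h1.symm hyp
    · exact absurd h1 hpz
  · rintro ⟨h1, h2, h3⟩
    refine Or.inl ⟨h3, ?_, ?_, ?_⟩
    · rintro (⟨h4, _⟩ | ⟨h4, _⟩)
      · exact hyp h4.symm
      · exact hrp h4.symm
    · rintro (⟨h4, _⟩ | ⟨_, h4⟩)
      · exact hrp h4.symm
      · exact h2 h4
    · rintro (⟨_, h4⟩ | ⟨h4, _⟩)
      · exact h1 h4
      · exact hpz h4

theorem nb_pl_other {G : SimpleGraph V} {y r p z : V} (h : PLHyp G y r p z) {x : V}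
    (h1 : x ≠ y) (h2 : x ≠ r) (h3 : x ≠ p) (h4 : x ≠ z) :
    nb (plG G y r p z) x = nb G x := by
  ext w
  simp only [nb, Finset.mem_filter, Finset.mem_univ, true_and]
  rw [PL_adj_aux h]
  rw [ne_eq, ne_eq, ne_eq, Sym2.eq_iff, Sym2.eq_iff, Sym2.eq_iff, Sym2.eq_iff]
  constructor
  · rintro (⟨h5, _⟩ | (⟨h5, _⟩ | ⟨h5, _⟩))
    · exact h5
    · exact absurd h5 h1
    · exact absurd h5 h4
  · intro h5
    refine Or.inl ⟨h5, ?_, ?_, ?_⟩
    · rintro (⟨h6, _⟩ | ⟨h6, _⟩)
      · exact h1 h6
      · exact h2 h6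
    · rintro (⟨h6, _⟩ | ⟨h6, _⟩)
      · exact h2 h6
      · exact h3 h6
    · rintro (⟨h6, _⟩ | ⟨h6, _⟩)
      · exact h3 h6
      · exact h4 h6

end OddImm
end

section

/-! The elimination process: odd elimination. -/

open Finset Classical

namespace OddImm

universe u

variable {V : Type u} [Fintype V] {R : Multiset (Sym2 V) → Prop} {t : ℕ} {W : Finset V}
  {H : SimpleGraph V} {v₀ : V} {E : Finset V} {L : List V} {G : SimpleGraph V}

theorem ConfC_ch_mono {G G' : SimpleGraph V} : ∀ (L : List V),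
    (∀ a ∈ L, ∀ b ∈ L, G.Adj a b → G'.Adj a b) → Ch G L → Ch G' L
  | [], _, _ => trivial
  | z :: l, h, hc => by
    obtain ⟨h1, h2⟩ := hc
    refine ⟨?_, ConfC_ch_mono l (fun a ha b hb => h a (List.mem_cons_of_mem _ ha) b
      (List.mem_cons_of_mem _ hb)) h2⟩
    rcases h1 with h1 | ⟨p, hp, hzp⟩
    · exact Or.inl h1
    · exact Or.inr ⟨p, hp, h z List.mem_cons_self p (List.mem_cons_of_mem _ hp) hzp⟩

theorem ConfC_last {r : V} (hL : L ≠ []) (h : ∃ l, r :: L = l ++ [v₀]) : ∃ l, L = l ++ [v₀] := by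
  obtain ⟨l, hl⟩ := h
  cases l with
  | nil =>
    rw [List.nil_append] at hl
    exact absurd (List.cons.inj hl).2 hL
  | cons a l' =>
    rw [List.cons_append] at hl
    exact ⟨l', (List.cons.inj hl).2⟩

/-- At most one new neighbour by the lift of the path. -/
theorem ConfC_pl_new {y r p z : V} (h : PLHyp G y r p z) (x : V) :
    (nb (plG G y r p z) x \ nb G x).card ≤ 1 := by
  by_cases h1 : x = y
  · subst h1
    rw [nb_pl_y h]
    refine (Finset.card_le_card (t := {z}) ?_).trans (by simp)
    intro w hw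
    rw [Finset.mem_sdiff, Finset.mem_insert, Finset.mem_erase] at hw
    rw [Finset.mem_singleton]
    tauto
  by_cases h2 : x = z
  · subst h2
    rw [nb_pl_z h]
    refine (Finset.card_le_card (t := {y}) ?_).trans (by simp)
    intro w hw
    rw [Finset.mem_sdiff, Finset.mem_insert, Finset.mem_erase] at hw
    rw [Finset.mem_singleton]
    tauto
  have h3 : nb (plG G y r p z) x ⊆ nb G x := by
    by_cases h4 : x = r
    · subst h4
      rw [nb_pl_r h]
      exact (Finset.erase_subset _ _).trans (Finset.erase_subset _ _)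
    by_cases h5 : x = p
    · subst h5
      rw [nb_pl_p h]
      exact (Finset.erase_subset _ _).trans (Finset.erase_subset _ _)
    rw [nb_pl_other h h1 h4 h5 h2]
  rw [Finset.sdiff_eq_empty_iff_subset.2 h3]
  simp

/-- Eliminating the top element (not the last one), odd case. -/
theorem Config.elimOdd (hR : LiftClosed R) (hg : Good R (29 * t) W H v₀) {r p y z : V}
    (hc : Config R t W H v₀ E (r :: L) G) (hp : p ∈ L) (hrp : G.Adj r p)
    (hy : y ∈ nb G r \ (r :: L).toFinset) (hz : z ∈ nb G p \ (r :: L).toFinset)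
    (hyz : y ≠ z) (hnyz : ¬ G.Adj y z) (M : Finset (Sym2 V))
    (hM : IsMt M ((nb G r \ (r :: L).toFinset).erase y) G)
    (hcov : ∀ x ∈ (nb G r \ (r :: L).toFinset).erase y, ∃ e ∈ M, x ∈ e) :
    Config R t W H v₀ (insert r E) L (elimG (plG G y r p z) r M) := by
  obtain ⟨hy1, hy2⟩ := Finset.mem_sdiff.1 hy
  obtain ⟨hz1, hz2⟩ := Finset.mem_sdiff.1 hz
  rw [mem_nb] at hy1 hz1
  rw [List.mem_toFinset, List.mem_cons] at hy2 hz2
  push Not at hy2 hz2
  have hnd := List.nodup_cons.1 hc.nodup
  have hrW := hc.LW r List.mem_cons_self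
  have hLr : ∀ x ∈ L, x ≠ r := fun x hx h => hnd.1 (h ▸ hx)
  have hpr : p ≠ r := hLr p hp
  have hyp : y ≠ p := fun h => hy2.2 (h ▸ hp)
  have hzp : z ≠ p := fun h => hz2.2 (h ▸ hp)
  have hpl : PLHyp G y r p z := ⟨hy1.symm, hrp, hz1, hyz, hyp, Ne.symm hz2.1, hnyz⟩
  set G1 := plG G y r p z with hG1
  have hMsub : ∀ e ∈ M, ∀ x ∈ e, G.Adj r x ∧ x ∉ (r :: L) ∧ x ≠ y := by
    intro e he x hx
    have h1 := hM.ins e he x hx
    rw [Finset.mem_erase, Finset.mem_sdiff, mem_nb, List.mem_toFinset] at h1
    exact ⟨h1.2.1, h1.2.2, h1.1⟩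
  have hnbr : ∀ x, x ∈ nb G1 r ↔ G.Adj r x ∧ x ≠ y ∧ x ≠ p := by
    intro x
    rw [hG1, nb_pl_r hpl, Finset.mem_erase, Finset.mem_erase, mem_nb]
    tauto
  have hM' : IsMt M (nb G1 r) G1 := by
    refine ⟨hM.ndiag, ?_, ?_, hM.disj⟩
    · intro e he x hx
      obtain ⟨h1, h2, h3⟩ := hMsub e he x hx
      rw [hnbr]
      refine ⟨h1, h3, ?_⟩
      rintro rfl
      exact h2 (List.mem_cons_of_mem _ hp)
    · intro e he h
      have hn := hM.nadj e he
      induction e using Sym2.inductionOn with
      | hf a b =>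
        rw [SimpleGraph.mem_edgeSet] at h hn
        rw [hG1, plG_adj hpl] at h
        rcases h with h | h
        · exact hn h.1
        · have h1 : y ∈ s(a, b) := by rw [h]; exact Sym2.mem_mk_left y z
          exact (hMsub _ he y h1).2.2 rfl
  have hcard : (insert r E).card = E.card + 1 := Finset.card_insert_of_notMem hrW.2
  have hlen : (r :: L).length = L.length + 1 := rfl
  have hun : insert r E ∪ L.toFinset = E ∪ (r :: L).toFinset := by
    ext x
    simp only [Finset.mem_union, Finset.mem_insert, List.mem_toFinset, List.mem_cons]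
    tauto
  have hL : L ≠ [] := fun h => by rw [h] at hp; exact absurd hp List.not_mem_nil
  have hyW := hc.inG y r hy1.symm
  have hzW := hc.inG z p hz1.symm
  refine ⟨hnd.2, ConfC_last hL hc.last, ?_, ?_, ?_, R_elim hR G1 r M hM' (R_pl hR hpl hc.real),
    ?_, ?_, ?_, ?_, ?_, ?_⟩
  · exact Finset.insert_subset hrW.1 hc.EW
  · intro x hx
    obtain ⟨h1, h2⟩ := hc.LW x (List.mem_cons_of_mem _ hx)
    refine ⟨h1, ?_⟩
    rw [Finset.mem_insert]
    rintro (h | h)
    · exact hLr x hx h
    · exact h2 h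
  · intro a b hab
    have key : a ∈ W ∧ a ∉ E ∧ a ≠ r := by
      rw [elimG_adj hM'] at hab
      rcases hab with ⟨h1, h2, _⟩ | h1
      · rw [hG1, plG_adj hpl] at h1
        rcases h1 with h1 | h1
        · obtain ⟨h3, h4⟩ := hc.inG a b h1.1
          exact ⟨h3, h4, h2⟩
        · have h3 : a ∈ s(y, z) := by rw [← h1]; exact Sym2.mem_mk_left a b
          rcases Sym2.mem_iff.1 h3 with h4 | h4
          · rw [h4]; exact ⟨hyW.1, hyW.2, hy2.1⟩
          · rw [h4]; exact ⟨hzW.1, hzW.2, hz2.1⟩
      · obtain ⟨h2, _, _⟩ := hMsub _ h1 a (Sym2.mem_mk_left a b)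
        obtain ⟨h3, h4⟩ := hc.inG a r h2.symm
        exact ⟨h3, h4, h2.ne'⟩
    refine ⟨key.1, ?_⟩
    rw [Finset.mem_insert]
    rintro (h | h)
    · exact key.2.2 h
    · exact key.2.1 h
  · have := hc.small
    omega
  · intro x hxW hxE hxL
    rw [Finset.mem_insert] at hxE
    push Not at hxE
    have hxr : x ≠ r := hxE.1
    have hxp : x ≠ p := fun h => hxL (h ▸ hp)
    have hxL' : x ∉ r :: L := by
      rw [List.mem_cons]
      rintro (h | h)
      · exact hxr h
      · exact hxL h
    rw [← hc.c1 x hxW hxE.2 hxL']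
    have h1 : (nb (elimG G1 r M) x).card = (nb G1 x).card := by
      by_cases hx : x ∈ nb G1 r
      · apply nb_elim_matched hM'
        apply hcov
        obtain ⟨h2, h3, _⟩ := (hnbr x).1 hx
        rw [Finset.mem_erase, Finset.mem_sdiff, mem_nb, List.mem_toFinset]
        exact ⟨h3, h2, hxL'⟩
      · rw [nb_elim_far hM' hxr hx]
    rw [h1]
    by_cases hxy : x = y
    · subst hxy
      rw [hG1, nb_pl_y hpl, Finset.card_insert_of_notMem, Finset.card_erase_of_mem]
      · have h2 : 0 < (nb G x).card := Finset.card_pos.2 ⟨r, mem_nb.2 hpl.yr⟩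
        omega
      · exact mem_nb.2 hpl.yr
      · rw [Finset.mem_erase, mem_nb]
        exact fun h => hnyz h.2
    by_cases hxz : x = z
    · subst hxz
      rw [hG1, nb_pl_z hpl, Finset.card_insert_of_notMem, Finset.card_erase_of_mem]
      · have h2 : 0 < (nb G x).card := Finset.card_pos.2 ⟨p, mem_nb.2 hpl.pz.symm⟩
        omega
      · exact mem_nb.2 hpl.pz.symm
      · rw [Finset.mem_erase, mem_nb]
        exact fun h => hnyz h.2.symm
    rw [hG1, nb_pl_other hpl hxy hxr hxp hxz]
  · intro c hcL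
    have hcr : c ≠ r := hLr c hcL
    have hcy : c ≠ y := fun h => hy2.2 (h ▸ hcL)
    have hcz : c ≠ z := fun h => hz2.2 (h ▸ hcL)
    have h1 := hc.c2 c (List.mem_cons_of_mem _ hcL)
    have h2 : ((nb H v₀ \ (insert r E ∪ L.toFinset)) \ nb (elimG G1 r M) c) ⊆
        insert z ((nb H v₀ \ (E ∪ (r :: L).toFinset)) \ nb G c) := by
      rw [hun]
      intro x hx
      rw [Finset.mem_sdiff] at hx
      rw [Finset.mem_insert, Finset.mem_sdiff]
      by_cases hxz : x = z
      · exact Or.inl hxz
      right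
      refine ⟨hx.1, fun h => hx.2 ?_⟩
      apply nb_elim_sup hM' hcr
      have hxr : x ≠ r := by
        rintro rfl
        have h3 := (Finset.mem_sdiff.1 hx.1).2
        apply h3
        simp
      rw [Finset.mem_erase]
      refine ⟨hxr, ?_⟩
      by_cases hcp : c = p
      · subst hcp
        rw [hG1, nb_pl_p hpl, Finset.mem_erase, Finset.mem_erase]
        exact ⟨hxz, hxr, h⟩
      · rw [hG1, nb_pl_other hpl hcy hcr hcp hcz]
        exact h
    have h3 := (Finset.card_le_card h2).trans (Finset.card_insert_le _ _)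
    omega
  · intro x hxW hxE
    rw [Finset.mem_insert] at hxE
    push Not at hxE
    have h1 := hc.c3 x hxW hxE.2
    have h2 := nb_elim_new hM' x
    have h2' : (nb G1 x \ nb G x).card ≤ 1 := ConfC_pl_new hpl x
    have h3 : nb (elimG G1 r M) x \ nb H x ⊆
        ((nb (elimG G1 r M) x \ nb G1 x) ∪ (nb G1 x \ nb G x)) ∪ (nb G x \ nb H x) := by
      intro w hw
      simp only [Finset.mem_union, Finset.mem_sdiff] at hw ⊢
      by_cases h4 : w ∈ nb G x
      · exact Or.inr ⟨h4, hw.2⟩
      · by_cases h5 : w ∈ nb G1 x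
        · exact Or.inl (Or.inr ⟨h5, h4⟩)
        · exact Or.inl (Or.inl ⟨hw.1, h5⟩)
    have h4 := (Finset.card_le_card h3).trans (Finset.card_union_le _ _)
    have h5 := Finset.card_union_le (nb (elimG G1 r M) x \ nb G1 x) (nb G1 x \ nb G x)
    omega
  · intro c hcE
    have h1 := hc.c4 c (by
      rw [Finset.mem_insert] at hcE
      rw [List.mem_cons]
      tauto)
    omega
  · refine ConfC_ch_mono L ?_ hc.c5.2
    intro a ha b hb hab
    rw [elimG_adj hM', hG1, plG_adj hpl]
    refine Or.inl ⟨Or.inl ⟨hab, ?_, ?_, ?_⟩, hLr a ha, hLr b hb⟩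
    · intro h
      have h1 : r ∈ s(a, b) := by rw [h]; exact Sym2.mem_mk_right y r
      rcases Sym2.mem_iff.1 h1 with h2 | h2
      · exact hLr a ha h2.symm
      · exact hLr b hb h2.symm
    · intro h
      have h1 : r ∈ s(a, b) := by rw [h]; exact Sym2.mem_mk_left r p
      rcases Sym2.mem_iff.1 h1 with h2 | h2
      · exact hLr a ha h2.symm
      · exact hLr b hb h2.symm
    · intro h
      have h1 : z ∈ s(a, b) := by rw [h]; exact Sym2.mem_mk_right p z
      rcases Sym2.mem_iff.1 h1 with h2 | h2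
      · exact hz2.2 (h2 ▸ ha)
      · exact hz2.2 (h2 ▸ hb)

end OddImm
end

section

/-! Hub lemma, from Tutte's theorem. -/

open Finset Classical

namespace OddImm

universe u

variable {V : Type u} [Fintype V]

/-- The hub lemma, given the components. -/
theorem hub_core (G : SimpleGraph V) (X A : Finset V) (hA : A ⊆ X) {C : Type*} [DecidableEq C]
    (c : V → C)
    (hc : ∀ x ∈ X \ A, ∀ y ∈ X \ A, c x ≠ c y → G.Adj x y)
    (hcard : A.card + 2 ≤ ((X \ A).image c).card) :
    ∃ Hs ⊆ X, Hs.Nonempty ∧ (∀ h ∈ Hs, (X \ nb G h).card ≤ Hs.card) ∧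
      ∀ h ∈ Hs, ∀ h' ∈ Hs, X.card ≤ 6 * (nb G h ∩ nb G h' ∩ X).card := by
  set D := X \ A with hD
  have hne : (D.image c).Nonempty := Finset.card_pos.1 (by omega)
  obtain ⟨km, hkm, hmax⟩ := Finset.exists_max_image (D.image c)
    (fun k => (D.filter (fun x => c x = k)).card) hne
  set F : C → Finset V := fun k => D.filter (fun x => c x = k) with hF
  have hXD : X.card = A.card + D.card := by
    rw [hD, Finset.card_sdiff_of_subset hA]
    have := Finset.card_le_card hA
    omega
  have hDcard : (D.image c).card ≤ D.card := Finset.card_image_le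
  refine ⟨D.filter (fun x => c x ≠ km), ?_, ?_, ?_, ?_⟩
  · exact (Finset.filter_subset _ _).trans Finset.sdiff_subset
  · -- nonempty
    have h1 : ((D.image c).erase km).Nonempty := by
      rw [← Finset.card_pos, Finset.card_erase_of_mem hkm]
      omega
    obtain ⟨k, hk⟩ := h1
    rw [Finset.mem_erase] at hk
    obtain ⟨x, hx, hxk⟩ := Finset.mem_image.1 hk.2
    exact ⟨x, Finset.mem_filter.2 ⟨hx, by rw [hxk]; exact hk.1⟩⟩
  · intro h hh
    rw [Finset.mem_filter] at hh
    obtain ⟨hhD, hhk⟩ := hh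
    have h1 : X \ nb G h ⊆ A ∪ F (c h) := by
      intro x hx
      rw [Finset.mem_sdiff, mem_nb] at hx
      rw [Finset.mem_union]
      by_cases hxA : x ∈ A
      · exact Or.inl hxA
      · right
        have hxD : x ∈ D := by rw [hD, Finset.mem_sdiff]; exact ⟨hx.1, hxA⟩
        rw [hF]
        simp only [Finset.mem_filter]
        refine ⟨hxD, ?_⟩
        by_contra hne'
        exact hx.2 (hc h hhD x hxD (fun e => hne' e.symm))
    have h2 : (X \ nb G h).card ≤ A.card + (F (c h)).card :=
      (Finset.card_le_card h1).trans (Finset.card_union_le _ _)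
    -- the other components
    set O := D.filter (fun x => c x ≠ km ∧ c x ≠ c h) with hO
    have h3 : ((D.image c).erase km).erase (c h) ⊆ O.image c := by
      intro k hk
      rw [Finset.mem_erase, Finset.mem_erase] at hk
      obtain ⟨x, hx, hxk⟩ := Finset.mem_image.1 hk.2.2
      refine Finset.mem_image.2 ⟨x, Finset.mem_filter.2 ⟨hx, ?_, ?_⟩, hxk⟩
      · rw [hxk]; exact hk.2.1
      · rw [hxk]; exact hk.1
    have h4 : A.card ≤ O.card := by
      have h5 := (Finset.card_le_card h3).trans Finset.card_image_le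
      have h6 := Finset.pred_card_le_card_erase (s := (D.image c).erase km) (a := c h)
      have h7 := Finset.pred_card_le_card_erase (s := D.image c) (a := km)
      omega
    have h5 : F (c h) ∪ O ⊆ D.filter (fun x => c x ≠ km) := by
      intro x hx
      rw [Finset.mem_union] at hx
      rcases hx with hx | hx
      · simp only [hF, Finset.mem_filter] at hx
        exact Finset.mem_filter.2 ⟨hx.1, by rw [hx.2]; exact hhk⟩
      · rw [hO, Finset.mem_filter] at hx
        exact Finset.mem_filter.2 ⟨hx.1, hx.2.1⟩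
    have h6 : Disjoint (F (c h)) O := by
      rw [Finset.disjoint_left]
      intro x hx hx'
      simp only [hF, Finset.mem_filter] at hx
      rw [hO, Finset.mem_filter] at hx'
      exact hx'.2.2 hx.2
    have h7 := Finset.card_le_card h5
    rw [Finset.card_union_of_disjoint h6] at h7
    omega
  · intro h hh h' hh'
    rw [Finset.mem_filter] at hh hh'
    set Q := D.filter (fun x => c x ≠ c h ∧ c x ≠ c h') with hQ
    have h1 : Q ⊆ nb G h ∩ nb G h' ∩ X := by
      intro x hx
      rw [hQ, Finset.mem_filter] at hx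
      rw [Finset.mem_inter, Finset.mem_inter, mem_nb, mem_nb]
      refine ⟨⟨hc h hh.1 x hx.1 (fun e => hx.2.1 e.symm),
        hc h' hh'.1 x hx.1 (fun e => hx.2.2 e.symm)⟩, ?_⟩
      have := hx.1
      rw [hD, Finset.mem_sdiff] at this
      exact this.1
    have h2 : F km ⊆ Q := by
      intro x hx
      simp only [hF, Finset.mem_filter] at hx
      rw [hQ, Finset.mem_filter]
      refine ⟨hx.1, ?_, ?_⟩
      · rw [hx.2]; exact fun e => hh.2 e.symm
      · rw [hx.2]; exact fun e => hh'.2 e.symm
    have h3 : D ⊆ F (c h) ∪ F (c h') ∪ Q := by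
      intro x hx
      rw [Finset.mem_union, Finset.mem_union]
      simp only [hF, hQ, Finset.mem_filter]
      by_cases e1 : c x = c h
      · exact Or.inl (Or.inl ⟨hx, e1⟩)
      · by_cases e2 : c x = c h'
        · exact Or.inl (Or.inr ⟨hx, e2⟩)
        · exact Or.inr ⟨hx, e1, e2⟩
    have h4 : (F (c h)).card ≤ (F km).card := hmax (c h) (Finset.mem_image_of_mem c hh.1)
    have h5 : (F (c h')).card ≤ (F km).card := hmax (c h') (Finset.mem_image_of_mem c hh'.1)
    have h6 := Finset.card_le_card h2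
    have h7 := (Finset.card_le_card h3).trans (Finset.card_union_le _ _)
    have h8 := Finset.card_union_le (F (c h)) (F (c h'))
    have h9 := Finset.card_le_card h1
    omega

theorem hub (G : SimpleGraph V) (X : Finset V) (hX : Even X.card) :
    (∃ M : Finset (Sym2 V), IsMt M X G ∧ ∀ x ∈ X, ∃ e ∈ M, x ∈ e) ∨
    (∃ Hs ⊆ X, Hs.Nonempty ∧ (∀ h ∈ Hs, (X \ nb G h).card ≤ Hs.card) ∧
      ∀ h ∈ Hs, ∀ h' ∈ Hs, X.card ≤ 6 * (nb G h ∩ nb G h' ∩ X).card) := by
  set B : SimpleGraph X := Gᶜ.comap (Subtype.val : X → V) with hB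
  have hBadj : ∀ x y : X, B.Adj x y ↔ (x : V) ≠ y ∧ ¬ G.Adj (x : V) y := by
    intro x y
    rw [hB, SimpleGraph.comap_adj, SimpleGraph.compl_adj]
  by_cases hT : ∃ M : SimpleGraph.Subgraph B, M.IsPerfectMatching
  · left
    obtain ⟨M, hM⟩ := hT
    refine ⟨(univ : Finset (Sym2 V)).filter (fun e => ∃ x y : X, M.Adj x y ∧
      e = s((x : V), (y : V))), ⟨?_, ?_, ?_, ?_⟩, ?_⟩
    · intro e he
      obtain ⟨x, y, hxy, rfl⟩ := (Finset.mem_filter.1 he).2
      have := ((hBadj x y).1 hxy.adj_sub).1
      simpa using this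
    · intro e he
      obtain ⟨x, y, hxy, rfl⟩ := (Finset.mem_filter.1 he).2
      rw [ins_mk]
      exact ⟨x.2, y.2⟩
    · intro e he
      obtain ⟨x, y, hxy, rfl⟩ := (Finset.mem_filter.1 he).2
      rw [SimpleGraph.mem_edgeSet]
      exact ((hBadj x y).1 hxy.adj_sub).2
    · intro e he e' he' v hv hv'
      obtain ⟨x, y, hxy, rfl⟩ := (Finset.mem_filter.1 he).2
      obtain ⟨x', y', hxy', rfl⟩ := (Finset.mem_filter.1 he').2
      have key : ∀ x y : X, M.Adj x y → v ∈ s((x : V), (y : V)) →
          ∃ (a b : X), (a : V) = v ∧ M.Adj a b ∧ s((x : V), (y : V)) = s((a : V), (b : V)) := by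
        intro x y hxy hv
        rcases Sym2.mem_iff.1 hv with h | h
        · exact ⟨x, y, h.symm, hxy, rfl⟩
        · exact ⟨y, x, h.symm, hxy.symm, Sym2.eq_swap⟩
      obtain ⟨a, b, ha, hab, h1⟩ := key x y hxy hv
      obtain ⟨a', b', ha', hab', h2⟩ := key x' y' hxy' hv'
      have haa : a = a' := Subtype.ext (by rw [ha, ha'])
      subst haa
      have hbb : b = b' := hM.1.eq_of_adj_left hab hab'
      rw [h1, h2, hbb]
    · intro x hx
      obtain ⟨w, hw, -⟩ := hM.1 (hM.2 ⟨x, hx⟩)
      exact ⟨s(x, (w : V)), Finset.mem_filter.2 ⟨Finset.mem_univ _, ⟨x, hx⟩, w, hw, rfl⟩,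
        by simp⟩
  · right
    rw [SimpleGraph.tutte] at hT
    push Not at hT
    obtain ⟨u, hu⟩ := hT
    unfold SimpleGraph.IsTutteViolator at hu
    set S := (⊤ : B.Subgraph).deleteVerts u with hS
    set K := S.coe with hK
    have hSv : ∀ x : X, x ∈ S.verts ↔ x ∉ u := by
      intro x
      rw [hS, SimpleGraph.Subgraph.deleteVerts_verts]
      simp
    have hSadj : ∀ x y : X, S.Adj x y ↔ x ∉ u ∧ y ∉ u ∧ B.Adj x y := by
      intro x y
      rw [hS, SimpleGraph.Subgraph.deleteVerts_adj]
      simp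
    set A : Finset V := (univ : Finset V).filter (fun v => ∃ hx : v ∈ X, (⟨v, hx⟩ : X) ∈ u)
      with hA
    have hmemA : ∀ v (hx : v ∈ X), v ∈ A ↔ (⟨v, hx⟩ : X) ∈ u := by
      intro v hx
      rw [hA, Finset.mem_filter]
      exact ⟨fun h => h.2.2, fun h => ⟨Finset.mem_univ _, hx, h⟩⟩
    have hAX : A ⊆ X := by
      intro v hv
      rw [hA, Finset.mem_filter] at hv
      exact hv.2.1
    have hAcard : A.card = u.ncard := by
      have h1 : (A : Set V) = Subtype.val '' u := by
        ext v
        rw [Finset.mem_coe]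
        constructor
        · intro hv
          exact ⟨⟨v, hAX hv⟩, (hmemA v (hAX hv)).1 hv, rfl⟩
        · rintro ⟨⟨w, hw⟩, hwu, rfl⟩
          exact (hmemA w hw).2 hwu
      rw [← Set.ncard_coe_finset, h1, Set.ncard_image_of_injective _ Subtype.val_injective]
    set c : V → Option K.ConnectedComponent := fun v =>
      if h : ∃ hx : v ∈ X, (⟨v, hx⟩ : X) ∈ S.verts then
        some (K.connectedComponentMk ⟨⟨v, h.choose⟩, h.choose_spec⟩) else none with hc
    have hcv : ∀ v (hx : v ∈ X) (hv : (⟨v, hx⟩ : X) ∈ S.verts),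
        c v = some (K.connectedComponentMk ⟨⟨v, hx⟩, hv⟩) := by
      intro v hx hv
      simp only [hc]
      rw [dif_pos ⟨hx, hv⟩]
    refine hub_core G X A hAX c ?_ ?_
    · intro x hx y hy hxy
      rw [Finset.mem_sdiff] at hx hy
      by_contra hadj
      have hxS : (⟨x, hx.1⟩ : X) ∈ S.verts := by
        rw [hSv, ← hmemA]; exact hx.2
      have hyS : (⟨y, hy.1⟩ : X) ∈ S.verts := by
        rw [hSv, ← hmemA]; exact hy.2
      apply hxy
      rw [hcv x hx.1 hxS, hcv y hy.1 hyS]
      congr 1
      rw [SimpleGraph.ConnectedComponent.eq]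
      have hne : x ≠ y := by
        rintro rfl
        exact hxy rfl
      have hBxy : B.Adj ⟨x, hx.1⟩ ⟨y, hy.1⟩ := (hBadj _ _).2 ⟨hne, hadj⟩
      apply SimpleGraph.Adj.reachable
      rw [hK, SimpleGraph.Subgraph.coe_adj]
      exact (hSadj _ _).2 ⟨(hSv _).1 hxS, (hSv _).1 hyS, hBxy⟩
    · have hpar := SimpleGraph.odd_ncard_oddComponents K
      have hKcard : Nat.card S.verts = X.card - A.card := by
        have h1 : S.verts = (uᶜ : Set X) := by
          ext x
          rw [hSv]
          rfl
        rw [Nat.card_coe_set_eq, h1, Set.ncard_compl, hAcard]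
        simp
      have h1 : K.oddComponents.ncard ≤ ((X \ A).image c).card := by
        have hfin : K.oddComponents.Finite := Set.toFinite _
        rw [Set.ncard_eq_toFinset_card _ hfin,
          ← Finset.card_image_of_injective _ (Option.some_injective K.ConnectedComponent)]
        apply Finset.card_le_card
        intro k hk
        obtain ⟨k', -, rfl⟩ := Finset.mem_image.1 hk
        induction k' using SimpleGraph.ConnectedComponent.ind with
        | h x =>
          obtain ⟨⟨v, hv⟩, hx⟩ := x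
          refine Finset.mem_image.2 ⟨v, ?_, hcv v hv hx⟩
          rw [Finset.mem_sdiff]
          refine ⟨hv, ?_⟩
          rw [hmemA v hv, ← hSv]
          exact hx
      have h2 : A.card ≤ X.card := Finset.card_le_card hAX
      have h3 : A.card < K.oddComponents.ncard := by rw [hAcard]; exact hu
      rw [hKcard] at hpar
      have h4 : K.oddComponents.ncard ≠ A.card + 1 := by
        intro h5
        rw [h5, Nat.odd_iff, Nat.odd_iff] at hpar
        rw [Nat.even_iff] at hX
        omega
      have h6 : A.card + 2 ≤ ((X \ A).image c).card := by omega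
      exact h6

end OddImm
end

section

end

section

/-! The minimum degree theorem. -/

open Finset Classical

namespace OddImm

universe u

variable {V : Type u} [Fintype V] {R : Multiset (Sym2 V) → Prop} {t : ℕ} {W : Finset V}
  {H : SimpleGraph V} {v₀ : V}

theorem plain_mem_nb {G : SimpleGraph V} {v w : V} : w ∈ nb G v ↔ G.Adj v w := by
  unfold nb
  simp

/-- One step of the process. -/
theorem Config.step (hR : LiftClosed R) (ht : 2 ≤ t) (hg : Good R (29 * t) W H v₀)
    (hno : ¬ ∃ P : Finset V, P.card = t ∧ R (prs P)) {E : Finset V} {L : List V}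
    {G : SimpleGraph V} (hc : Config R t W H v₀ E L G) :
    (∃ (W' : Finset V) (H' : SimpleGraph V) (v₀' : V), W'.card < W.card ∧
      Good R (29 * t) W' H' v₀') ∨
    (∃ (E' : Finset V) (L' : List V) (G' : SimpleGraph V), Config R t W H v₀ E' L' G' ∧
      (E.card + L.length < E'.card + L'.length ∨
        (E.card + L.length = E'.card + L'.length ∧ E.card < E'.card))) := by
  -- adding hubs always works
  have hubs : ∀ {r : V} {L₂ : List V}, L = r :: L₂ → ∀ X' : Finset V,
      X' ⊆ nb G r \ (r :: L₂).toFinset → (nb G r \ (r :: L₂).toFinset).card ≤ X'.card + 1 →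
      (∃ Hs ⊆ X', Hs.Nonempty ∧ (∀ h ∈ Hs, (X' \ nb G h).card ≤ Hs.card) ∧
        ∀ h ∈ Hs, ∀ h' ∈ Hs, X'.card ≤ 6 * (nb G h ∩ nb G h' ∩ X').card) →
      (∃ (E' : Finset V) (L' : List V) (G' : SimpleGraph V), Config R t W H v₀ E' L' G' ∧
        (E.card + L.length < E'.card + L'.length ∨
          (E.card + L.length = E'.card + L'.length ∧ E.card < E'.card))) := by
    rintro r L₂ rfl X' hX' hX1 ⟨Hs, hHs, hne, hh, hcom⟩
    refine ⟨E, Hs.toList ++ (r :: L₂), G,
      Config.addHubs hR ht hg hno hc X' hX' hX1 Hs hHs hne hh hcom, Or.inl ?_⟩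
    have h1 : 0 < Hs.card := Finset.card_pos.2 hne
    rw [List.length_append, Finset.length_toList]
    omega
  obtain ⟨l, hl⟩ := hc.last
  rcases l with _ | ⟨r, l⟩
  · -- only `v₀` is pending
    have hL : L = [v₀] := by simpa using hl
    subst hL
    have hX : nb G v₀ \ ([v₀] : List V).toFinset = nb G v₀ := by
      ext x
      simp only [List.toFinset_cons, List.toFinset_nil, Finset.mem_sdiff, Finset.mem_insert,
        Finset.notMem_empty, or_false, plain_mem_nb]
      constructor
      · exact fun h => h.1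
      · exact fun h => ⟨h, fun h' => h.ne h'.symm⟩
    have hex : ∃ Y : Finset V, Y.card ≤ 1 ∧ Y ⊆ nb G v₀ ∧ Even (nb G v₀ \ Y).card := by
      rcases Nat.even_or_odd (nb G v₀).card with h | h
      · exact ⟨∅, by simp, by simp, by simpa using h⟩
      · obtain ⟨y, hy⟩ : (nb G v₀).Nonempty := Finset.card_pos.1 h.pos
        refine ⟨{y}, by simp, by simpa using hy, ?_⟩
        rw [Finset.sdiff_singleton_eq_erase, Finset.card_erase_of_mem hy]
        exact Nat.Odd.sub_odd h odd_one
    obtain ⟨Y, hY1, hYs, hY⟩ := hex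
    rcases hub G (nb G v₀ \ Y) hY with ⟨M, hM, hcov⟩ | hH
    · exact Or.inl (Config.final hR ht hg hc Y hY1 M hM hcov)
    · refine Or.inr (hubs rfl (nb G v₀ \ Y) ?_ ?_ hH)
      · rw [hX]
        exact Finset.sdiff_subset
      · rw [hX, Finset.card_sdiff_of_subset hYs]
        omega
  · -- a further pending vertex
    have hL : L = r :: (l ++ [v₀]) := by simpa using hl
    set L₂ : List V := l ++ [v₀] with hL₂
    have hne : L₂ ≠ [] := by simp [hL₂]
    clear_value L₂
    subst hL
    have hrE : r ∉ E := (hc.LW r (by simp)).2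
    obtain ⟨p, hp, hrp⟩ : ∃ p ∈ L₂, G.Adj r p := by
      have h5 := hc.c5
      rcases h5.1 with h | h
      · exact absurd h hne
      · exact h
    have hXl := Config.large hg hc (z := r) (by simp)
    have hXp := Config.large hg hc (z := p) (by simp [hp])
    rcases Nat.even_or_odd (nb G r \ (r :: L₂).toFinset).card with hev | hodd
    · rcases hub G (nb G r \ (r :: L₂).toFinset) hev with ⟨M, hM, hcov⟩ | hH
      · refine Or.inr ⟨insert r E, L₂, elimG G r M,
          Config.elimEven hR hg hne hc M hM hcov, Or.inr ⟨?_, ?_⟩⟩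
        · rw [Finset.card_insert_of_notMem hrE, List.length_cons]
          omega
        · rw [Finset.card_insert_of_notMem hrE]
          omega
      · exact Or.inr (hubs rfl _ subset_rfl (Nat.le_succ _) hH)
    · by_cases hyz : ∃ y ∈ nb G r \ (r :: L₂).toFinset, ∃ z ∈ nb G p \ (r :: L₂).toFinset,
          y ≠ z ∧ ¬ G.Adj y z
      · obtain ⟨y, hy, z, hz, hyz, hnyz⟩ := hyz
        have hev : Even ((nb G r \ (r :: L₂).toFinset).erase y).card := by
          rw [Finset.card_erase_of_mem hy]
          exact Nat.Odd.sub_odd hodd odd_one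
        rcases hub G _ hev with ⟨M, hM, hcov⟩ | hH
        · refine Or.inr ⟨insert r E, L₂, elimG (plG G y r p z) r M,
            Config.elimOdd hR hg hc hp hrp hy hz hyz hnyz M hM hcov, Or.inr ⟨?_, ?_⟩⟩
          · rw [Finset.card_insert_of_notMem hrE, List.length_cons]
            omega
          · rw [Finset.card_insert_of_notMem hrE]
            omega
        · refine Or.inr (hubs rfl _ (Finset.erase_subset _ _) ?_ hH)
          rw [Finset.card_erase_of_mem hy]
          omega
      · exfalso
        push Not at hyz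
        obtain ⟨P, hPs, hPc⟩ := Finset.exists_subset_card_eq
          (show t ≤ (nb G r \ (r :: L₂).toFinset).card by omega)
        refine hno ⟨P, hPc, clique_of_common hR G hc.real P ?_⟩
        intro a ha b hb _
        have hsub : (nb G p \ (r :: L₂).toFinset) \ P ⊆ (nb G a ∩ nb G b) \ P := by
          intro z hz
          rw [Finset.mem_sdiff] at hz
          obtain ⟨hz1, hz2⟩ := hz
          rw [Finset.mem_sdiff, Finset.mem_inter, plain_mem_nb, plain_mem_nb]
          refine ⟨⟨?_, ?_⟩, hz2⟩
          · exact hyz a (hPs ha) z hz1 fun h => hz2 (h ▸ ha)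
          · exact hyz b (hPs hb) z hz1 fun h => hz2 (h ▸ hb)
        have h1 := Finset.card_le_card hsub
        have h2 := Finset.le_card_sdiff P (nb G p \ (r :: L₂).toFinset)
        omega

theorem descend (hR : LiftClosed R) (ht : 2 ≤ t) (hg : Good R (29 * t) W H v₀)
    (hno : ¬ ∃ P : Finset V, P.card = t ∧ R (prs P)) :
    ∃ (W' : Finset V) (H' : SimpleGraph V) (v₀' : V), W'.card < W.card ∧
      Good R (29 * t) W' H' v₀' := by
  have key : ∀ (n : ℕ) (E : Finset V) (L : List V) (G : SimpleGraph V),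
      Config R t W H v₀ E L G → t * t - ((E.card + L.length) * t + E.card) ≤ n →
      ∃ (W' : Finset V) (H' : SimpleGraph V) (v₀' : V), W'.card < W.card ∧
        Good R (29 * t) W' H' v₀' := by
    intro n
    induction n with
    | zero =>
      intro E L G hc hn
      exfalso
      have h1 := hc.small
      have h2 : (E.card + L.length + 1) * t ≤ t * t := Nat.mul_le_mul_right _ h1
      have h3 : (E.card + L.length + 1) * t = (E.card + L.length) * t + t := by ring
      omega
    | succ n ih =>
      intro E L G hc hn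
      rcases Config.step hR ht hg hno hc with h | ⟨E', L', G', hc', hlt⟩
      · exact h
      · refine ih E' L' G' hc' ?_
        have h1 := hc.small
        have h1' := hc'.small
        have h2 : (E.card + L.length + 1) * t ≤ t * t := Nat.mul_le_mul_right _ h1
        have h3 : (E.card + L.length + 1) * t = (E.card + L.length) * t + t := by ring
        rcases hlt with h | ⟨h, h'⟩
        · have h4 : (E.card + L.length + 1) * t ≤ (E'.card + L'.length) * t :=
            Nat.mul_le_mul_right _ h
          omega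
        · rw [← h]
          omega
  exact key _ _ _ _ (Config.start ht hg) le_rfl

theorem plain (hR : LiftClosed R) (ht : 2 ≤ t) (hW : W.Nonempty)
    (hin : ∀ x y, H.Adj x y → x ∈ W) (hdeg : ∀ x ∈ W, 29 * t ≤ (nb H x).card)
    (hH : R (ed H)) : ∃ P : Finset V, P.card = t ∧ R (prs P) := by
  by_contra hno
  have key : ∀ (n : ℕ) (W : Finset V) (H : SimpleGraph V) (v₀ : V), W.card ≤ n →
      Good R (29 * t) W H v₀ → False := by
    intro n
    induction n with
    | zero =>
      intro W H v₀ hn hg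
      have : W = ∅ := Finset.card_eq_zero.1 (Nat.le_zero.1 hn)
      have h := hg.mem
      rw [this] at h
      exact Finset.notMem_empty _ h
    | succ n ih =>
      intro W H v₀ hn hg
      obtain ⟨W', H', v₀', hlt, hg'⟩ := descend hR ht hg hno
      exact ih W' H' v₀' (by omega) hg'
  obtain ⟨v₀, hv₀⟩ := hW
  exact key W.card W H v₀ le_rfl
    ⟨hin, hv₀, (hdeg v₀ hv₀).trans (Nat.le_succ _), fun x hx _ => hdeg x hx, hH⟩

end OddImm
end

section

/-! Elimination of a cluster and realisation of bounded degree subgraphs of the cluster graph. -/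

open Finset Classical

namespace OddImm

universe u

variable {V : Type u} [Fintype V]

/-- Lifting along a star: replace `v u` and `u w` by `v w`. -/
theorem CElim_multilift {V : Type u} {R : Multiset (Sym2 V) → Prop} (hR : LiftClosed R) (v : V)
    (N : Finset V) (u w : V → V) (hw : ∀ y ∈ N, v ≠ w y) :
    ∀ G₀ : Multiset (Sym2 V),
      R ((N.filter (fun y => u y ≠ v)).val.map (fun y => s(v, u y)) +
        (N.val.map (fun y => s(u y, w y)) + G₀)) →
      R (N.val.map (fun y => s(v, w y)) + G₀) := by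
  induction N using Finset.induction_on with
  | empty =>
    intro G₀ h
    simpa using h
  | insert y N hy ih =>
    intro G₀ h
    have hw' : ∀ z ∈ N, v ≠ w z := fun z hz => hw z (Finset.mem_insert_of_mem hz)
    have hwy := hw y (Finset.mem_insert_self _ _)
    rw [Finset.insert_val_of_notMem hy, Multiset.map_cons, Multiset.cons_add]
    rw [Finset.insert_val_of_notMem hy, Multiset.map_cons, Multiset.cons_add] at h
    have key : R (s(v, w y) ::ₘ ((N.filter (fun y => u y ≠ v)).val.map (fun y => s(v, u y)) +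
        (N.val.map (fun y => s(u y, w y)) + G₀))) := by
      by_cases huy : u y = v
      · rw [Finset.filter_insert, if_neg (by simp [huy])] at h
        rw [huy, Multiset.add_cons] at h
        exact h
      · have hyf : y ∉ N.filter (fun y => u y ≠ v) := fun h' => hy (Finset.mem_filter.1 h').1
        rw [Finset.filter_insert, if_pos huy, Finset.insert_val_of_notMem hyf,
          Multiset.map_cons, Multiset.cons_add, Multiset.add_cons] at h
        exact hR.lift hwy h
    have h2 := ih hw' (s(v, w y) ::ₘ G₀) (by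
      rw [Multiset.add_cons, Multiset.add_cons]
      exact key)
    rw [Multiset.add_cons] at h2
    exact h2

/-- The edges of `G`: those at `v` and the others. -/
theorem CElim_ed (G : SimpleGraph V) (v : V) :
    ed G = (nb G v).val.map (fun y => s(v, y)) +
      ((univ : Finset (Sym2 V)).filter (fun e => e ∈ G.edgeSet ∧ v ∉ e)).val := by
  have hinj : Set.InjOn (fun y : V => s(v, y)) (nb G v : Set V) := by
    intro a _ b _ hab
    exact Sym2.congr_right.1 hab
  have hd : Disjoint ((nb G v).image (fun y => s(v, y)))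
      ((univ : Finset (Sym2 V)).filter (fun e => e ∈ G.edgeSet ∧ v ∉ e)) := by
    rw [Finset.disjoint_left]
    intro e he he'
    obtain ⟨y, _, rfl⟩ := Finset.mem_image.1 he
    exact (Finset.mem_filter.1 he').2.2 (Sym2.mem_mk_left _ _)
  have h1 : (univ : Finset (Sym2 V)).filter (fun e => e ∈ G.edgeSet)
      = ((nb G v).image (fun y => s(v, y))).disjUnion
        ((univ : Finset (Sym2 V)).filter (fun e => e ∈ G.edgeSet ∧ v ∉ e)) hd := by
    ext e
    simp only [Finset.mem_filter, Finset.mem_univ, true_and, Finset.mem_disjUnion,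
      Finset.mem_image, nb]
    constructor
    · intro he
      by_cases hv : v ∈ e
      · left
        obtain ⟨y, rfl⟩ := Sym2.mem_iff_exists.1 hv
        exact ⟨y, he, rfl⟩
      · exact Or.inr ⟨he, hv⟩
    · rintro (⟨y, hy, rfl⟩ | ⟨he, _⟩)
      · exact hy
      · exact he
  unfold ed
  rw [h1, Finset.disjUnion_val, Finset.image_val_of_injOn hinj]

/-- The basic step: the cluster of `v` is contracted to `v`. -/
theorem CElim_step {R : Multiset (Sym2 V) → Prop} (hR : LiftClosed R) {κ : ℕ} {A : Finset V}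
    {Cl : V → Finset V} {Iv : Multiset (Sym2 V)} {G : SimpleGraph V}
    {Pr : Sym2 V → Sym2 V} {v : V} (hv : v ∈ A)
    (mem : ∀ x ∈ A, x ∈ Cl x)
    (disj : ∀ x ∈ A, ∀ y ∈ A, x ≠ y → Disjoint (Cl x) (Cl y))
    (loopless : Loopless Iv) (ins : ∀ e ∈ Iv, Ins (Cl v) e)
    (conn : ∀ S ⊆ Cl v, S.Nonempty → S ≠ Cl v → κ ≤ cut Iv S)
    (inA : ∀ x y, G.Adj x y → x ∈ A)
    (pr : ∀ x y, G.Adj x y → ∃ u ∈ Cl x, ∃ w ∈ Cl y, Pr s(x, y) = s(u, w))
    (hd : (nb G v).card ≤ κ) (T : Multiset (Sym2 V)) (hreal : R (Iv + (T + (ed G).map Pr))) :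
    ∃ w : V → V, (∀ y ∈ nb G v, w y ∈ Cl y) ∧
      R ((nb G v).val.map (fun y => s(v, w y)) +
        (T + ((univ : Finset (Sym2 V)).filter
          (fun e => e ∈ G.edgeSet ∧ v ∉ e)).val.map Pr)) := by
  have hadj : ∀ y ∈ nb G v, G.Adj v y := fun y hy => (Finset.mem_filter.1 hy).2
  have hch : ∀ y : V, ∃ p : V × V, y ∈ nb G v →
      p.1 ∈ Cl v ∧ p.2 ∈ Cl y ∧ Pr s(v, y) = s(p.1, p.2) := by
    intro y
    by_cases hy : y ∈ nb G v
    · obtain ⟨u, hu, w, hw, h⟩ := pr v y (hadj y hy)
      exact ⟨(u, w), fun _ => ⟨hu, hw, h⟩⟩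
    · exact ⟨(v, v), fun h => absurd h hy⟩
  choose p hp using hch
  set u : V → V := fun y => (p y).1 with hu
  set w : V → V := fun y => (p y).2 with hw
  have huC : ∀ y ∈ nb G v, u y ∈ Cl v := fun y hy => (hp y hy).1
  have hwC : ∀ y ∈ nb G v, w y ∈ Cl y := fun y hy => (hp y hy).2.1
  have hPr : ∀ y ∈ nb G v, Pr s(v, y) = s(u y, w y) := fun y hy => (hp y hy).2.2
  refine ⟨w, hwC, ?_⟩
  have hvw : ∀ y ∈ nb G v, v ≠ w y := by
    intro y hy h
    have h1 := disj v hv y (inA y v (hadj y hy).symm) (hadj y hy).ne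
    exact Finset.disjoint_left.1 h1 (mem v hv) (h ▸ hwC y hy)
  apply CElim_multilift hR v (nb G v) u w hvw
  -- the fan
  have hterm : ((nb G v).filter (fun y => u y ≠ v)).val.map (fun y => s(v, u y))
      = (((nb G v).filter (fun y => u y ≠ v)).val.map u).map (fun a => s(v, a)) := by
    rw [Multiset.map_map]
    rfl
  have hmapPr : (nb G v).val.map (fun y => s(u y, w y))
      = ((nb G v).val.map (fun y => s(v, y))).map Pr := by
    rw [Multiset.map_map]
    apply Multiset.map_congr rfl
    intro y hy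
    exact (hPr y hy).symm
  rw [hterm, hmapPr]
  have hsum : Multiset.map Pr (Multiset.map (fun y => s(v, y)) (nb G v).val) +
      (T + Multiset.map Pr ((univ : Finset (Sym2 V)).filter
        (fun e => e ∈ G.edgeSet ∧ v ∉ e)).val) = T + (ed G).map Pr := by
    rw [CElim_ed G v, Multiset.map_add]
    rw [← add_assoc, ← add_assoc, add_comm (Multiset.map Pr _) T]
  rw [hsum]
  apply fan hR v Iv loopless _ _ _ _ hreal
  · intro hmem
    obtain ⟨y, hy, hyv⟩ := Multiset.mem_map.1 hmem
    exact (Finset.mem_filter.1 hy).2 hyv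
  · intro S hvS
    set B := ((nb G v).filter (fun y => u y ≠ v)).val.map u with hB
    have hBC : ∀ a ∈ B, a ∈ Cl v := by
      intro a ha
      obtain ⟨y, hy, rfl⟩ := Multiset.mem_map.1 ha
      exact huC y (Finset.mem_filter.1 hy).1
    have hcountS : B.countP (fun a => a ∈ S) = B.countP (fun a => a ∈ S ∩ Cl v) := by
      apply Multiset.countP_congr rfl
      intro a ha
      apply propext
      rw [Finset.mem_inter]
      exact ⟨fun h => ⟨h, hBC a ha⟩, fun h => h.1⟩
    have hcutS : cut Iv S = cut Iv (S ∩ Cl v) := by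
      unfold cut
      apply Multiset.countP_congr rfl
      intro e he
      have h1 := ins e he
      unfold Cr
      apply propext
      constructor
      · rintro ⟨⟨a, ha, haS⟩, ⟨b, hb, hbS⟩⟩
        exact ⟨⟨a, ha, Finset.mem_inter.2 ⟨haS, h1 a ha⟩⟩,
          ⟨b, hb, fun h => hbS (Finset.mem_inter.1 h).1⟩⟩
      · rintro ⟨⟨a, ha, haS⟩, ⟨b, hb, hbS⟩⟩
        exact ⟨⟨a, ha, (Finset.mem_inter.1 haS).1⟩,
          ⟨b, hb, fun h => hbS (Finset.mem_inter.2 ⟨h, h1 b hb⟩)⟩⟩
    rw [hcountS, hcutS]
    rcases Finset.eq_empty_or_nonempty (S ∩ Cl v) with he | hne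
    · rw [he]
      simp
    · have h1 := conn (S ∩ Cl v) Finset.inter_subset_right hne (by
        intro h
        have : v ∈ S ∩ Cl v := by rw [h]; exact mem v hv
        exact hvS (Finset.mem_inter.1 this).1)
      refine le_trans ?_ h1
      calc B.countP (fun a => a ∈ S ∩ Cl v) ≤ B.card := Multiset.countP_le_card _ _
        _ = ((nb G v).filter (fun y => u y ≠ v)).card := by rw [hB, Multiset.card_map]; rfl
        _ ≤ (nb G v).card := Finset.card_le_card (Finset.filter_subset _ _)
        _ ≤ κ := hd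

theorem CElim_ed_elim {G : SimpleGraph V} {v : V} {M : Finset (Sym2 V)}
    (hM : IsMt M (nb G v) G) :
    ed (elimG G v M) = M.val +
      ((univ : Finset (Sym2 V)).filter (fun e => e ∈ G.edgeSet ∧ v ∉ e)).val := by
  have hd : Disjoint M
      ((univ : Finset (Sym2 V)).filter (fun e => e ∈ G.edgeSet ∧ v ∉ e)) := by
    rw [Finset.disjoint_left]
    intro e he he'
    exact hM.nadj e he (Finset.mem_filter.1 he').2.1
  have h1 : (univ : Finset (Sym2 V)).filter (fun e => e ∈ (elimG G v M).edgeSet)
      = M.disjUnion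
        ((univ : Finset (Sym2 V)).filter (fun e => e ∈ G.edgeSet ∧ v ∉ e)) hd := by
    ext e
    simp only [Finset.mem_filter, Finset.mem_univ, true_and, Finset.mem_disjUnion]
    induction e using Sym2.ind with
    | _ a b =>
      rw [SimpleGraph.mem_edgeSet, elimG_adj hM, SimpleGraph.mem_edgeSet, Sym2.mem_iff, not_or]
      constructor
      · rintro (⟨h2, h3, h4⟩ | h2)
        · exact Or.inr ⟨h2, h3.symm, h4.symm⟩
        · exact Or.inl h2
      · rintro (h2 | ⟨h2, h3, h4⟩)
        · exact Or.inr h2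
        · exact Or.inl ⟨h2, Ne.symm h3, Ne.symm h4⟩
  unfold ed
  rw [h1, Finset.disjUnion_val]

theorem CS.elim {R : Multiset (Sym2 V) → Prop} (hR : LiftClosed R) {κ : ℕ} {A : Finset V}
    {Cl : V → Finset V} {I : V → Multiset (Sym2 V)} {G : SimpleGraph V}
    {Pr : Sym2 V → Sym2 V} (h : CS R κ A Cl I G Pr) {v : V} (hv : v ∈ A)
    (hd : (nb G v).card ≤ κ) (M : Finset (Sym2 V)) (hM : IsMt M (nb G v) G) :
    ∃ Pr', CS R κ (A.erase v) Cl I (elimG G v M) Pr' := by
  have hadj : ∀ y ∈ nb G v, G.Adj v y := fun y hy => (Finset.mem_filter.1 hy).2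
  have hreal := h.real
  rw [← Finset.add_sum_erase A I hv, add_assoc] at hreal
  obtain ⟨w, hw, hRw⟩ := CElim_step hR hv h.mem h.disj (h.loopless v hv) (h.ins v hv)
    (h.conn v hv) h.inA h.pr hd _ hreal
  have hMA : ∀ i j, s(i, j) ∈ M → i ∈ nb G v ∧ j ∈ nb G v ∧ i ≠ j := by
    intro i j hij
    have h1 := hM.ins _ hij
    have h2 := hM.ndiag _ hij
    refine ⟨h1 i (Sym2.mem_mk_left _ _), h1 j (Sym2.mem_mk_right _ _), ?_⟩
    intro h3
    exact h2 (by rw [h3]; simp)
  have hstar := lift_star hR v (nb G v) w M hM.ndiag hM.ins hM.disj (by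
    intro i j hij hwij
    obtain ⟨h1, h2, h3⟩ := hMA i j hij
    have h4 := h.disj i (h.inA i v (hadj i h1).symm) j (h.inA j v (hadj j h2).symm) h3
    exact Finset.disjoint_left.1 h4 (hw i h1) (hwij ▸ hw j h2)) _ hRw
  refine ⟨fun e => if e ∈ M then Sym2.map w e else Pr e, ?_⟩
  have hsub : ∀ x ∈ A.erase v, x ∈ A := fun x hx => Finset.mem_of_mem_erase hx
  refine ⟨fun x hx => h.mem x (hsub x hx), fun x hx y hy => h.disj x (hsub x hx) y (hsub y hy),
    fun x hx => h.loopless x (hsub x hx), fun x hx => h.ins x (hsub x hx),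
    fun x hx => h.conn x (hsub x hx), ?_, ?_, ?_⟩
  · intro x y hxy
    rw [elimG_adj hM] at hxy
    rw [Finset.mem_erase]
    rcases hxy with ⟨h1, h2, _⟩ | h1
    · exact ⟨h2, h.inA x y h1⟩
    · obtain ⟨h2, _, _⟩ := hMA x y h1
      exact ⟨(hadj x h2).ne', h.inA x v (hadj x h2).symm⟩
  · intro x y hxy
    rw [elimG_adj hM] at hxy
    rcases hxy with ⟨h1, h2, _⟩ | h1
    · have h3 : s(x, y) ∉ M := fun h4 => hM.nadj _ h4 h1
      simp only [if_neg h3]
      exact h.pr x y h1
    · obtain ⟨h2, h3, _⟩ := hMA x y h1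
      simp only [if_pos h1]
      exact ⟨w x, hw x h2, w y, hw y h3, rfl⟩
  · rw [CElim_ed_elim hM, Multiset.map_add]
    have h1 : M.val.map (fun e => if e ∈ M then Sym2.map w e else Pr e)
        = M.val.map (Sym2.map w) := by
      apply Multiset.map_congr rfl
      intro e he
      rw [if_pos (Finset.mem_def.2 he)]
    have h2 : ((univ : Finset (Sym2 V)).filter (fun e => e ∈ G.edgeSet ∧ v ∉ e)).val.map
        (fun e => if e ∈ M then Sym2.map w e else Pr e)
        = ((univ : Finset (Sym2 V)).filter (fun e => e ∈ G.edgeSet ∧ v ∉ e)).val.map Pr := by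
      apply Multiset.map_congr rfl
      intro e he
      have h3 := (Finset.mem_filter.1 (Finset.mem_def.2 he)).2.1
      rw [if_neg (fun h4 => hM.nadj _ h4 h3)]
    rw [h1, h2]
    have h3 : (∑ x ∈ A.erase v, I x) + (M.val.map (Sym2.map w) +
        ((univ : Finset (Sym2 V)).filter (fun e => e ∈ G.edgeSet ∧ v ∉ e)).val.map Pr)
        = M.val.map (Sym2.map w) + ((∑ x ∈ A.erase v, I x) +
        ((univ : Finset (Sym2 V)).filter (fun e => e ∈ G.edgeSet ∧ v ∉ e)).val.map Pr) := by
      rw [← add_assoc, ← add_assoc, add_comm (∑ x ∈ A.erase v, I x)]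
    rw [h3]
    exact hstar

theorem CElim_ed_mono {G₁ G : SimpleGraph V} (hG : G₁ ≤ G) : ed G₁ ≤ ed G := by
  unfold ed
  rw [Finset.val_le_iff]
  intro e he
  rw [Finset.mem_filter] at he ⊢
  exact ⟨he.1, SimpleGraph.edgeSet_mono hG he.2⟩

theorem CS.sub {R : Multiset (Sym2 V) → Prop} (hR : LiftClosed R) {κ : ℕ} {A : Finset V}
    {Cl : V → Finset V} {I : V → Multiset (Sym2 V)} {G : SimpleGraph V}
    {Pr : Sym2 V → Sym2 V} (h : CS R κ A Cl I G Pr) {G₁ : SimpleGraph V} (hG : G₁ ≤ G) :
    CS R κ A Cl I G₁ Pr :=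
  ⟨h.mem, h.disj, h.loopless, h.ins, h.conn, fun x y hxy => h.inA x y (hG hxy),
    fun x y hxy => h.pr x y (hG hxy),
    hR.mono (add_le_add_right (Multiset.map_le_map (CElim_ed_mono hG)) _) h.real⟩

theorem CS.realise {R : Multiset (Sym2 V) → Prop} (hR : LiftClosed R) {κ : ℕ} {A : Finset V}
    {Cl : V → Finset V} {I : V → Multiset (Sym2 V)} {G : SimpleGraph V}
    {Pr : Sym2 V → Sym2 V} (h : CS R κ A Cl I G Pr) (hd : ∀ x, (nb G x).card ≤ κ) :
    R (ed G) := by
  -- process the clusters one after another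
  have key : ∀ B : Finset V, B ⊆ A → ∃ Pr' : Sym2 V → Sym2 V,
      (∀ x y, G.Adj x y → ∃ u ∈ (if x ∈ B then ({x} : Finset V) else Cl x),
        ∃ w ∈ (if y ∈ B then ({y} : Finset V) else Cl y), Pr' s(x, y) = s(u, w)) ∧
      R ((∑ x ∈ A \ B, I x) + (ed G).map Pr') := by
    intro B
    induction B using Finset.induction_on with
    | empty =>
      intro _
      refine ⟨Pr, ?_, ?_⟩
      · intro x y hxy
        simpa using h.pr x y hxy
      · simpa using h.real
    | insert v B hvB ih =>
      intro hBA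
      have hvA : v ∈ A := hBA (Finset.mem_insert_self _ _)
      have hBA' : B ⊆ A := fun x hx => hBA (Finset.mem_insert_of_mem hx)
      obtain ⟨Pr₁, hpr₁, hR₁⟩ := ih hBA'
      set Cl' : V → Finset V := fun x => if x ∈ B then ({x} : Finset V) else Cl x with hCl'
      have hvD : v ∈ A \ B := Finset.mem_sdiff.2 ⟨hvA, hvB⟩
      have hsd : (A \ B).erase v = A \ insert v B := by
        ext x
        simp only [Finset.mem_erase, Finset.mem_sdiff, Finset.mem_insert, not_or]
        tauto
      have hCv : Cl' v = Cl v := by simp [hCl', hvB]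
      have hCsub : ∀ x ∈ A, Cl' x ⊆ Cl x := by
        intro x hx
        simp only [hCl']
        split_ifs with h1
        · rw [Finset.singleton_subset_iff]
          exact h.mem x hx
        · exact Finset.Subset.refl _
      have hmem' : ∀ x ∈ A, x ∈ Cl' x := by
        intro x hx
        simp only [hCl']
        split_ifs with h1
        · exact Finset.mem_singleton_self x
        · exact h.mem x hx
      rw [← Finset.add_sum_erase _ I hvD, hsd, add_assoc] at hR₁
      obtain ⟨w, hw, hRw⟩ := CElim_step (Cl := Cl') hR hvA hmem'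
        (fun x hx y hy hxy => Finset.disjoint_of_subset_left (hCsub x hx)
          (Finset.disjoint_of_subset_right (hCsub y hy) (h.disj x hx y hy hxy)))
        (h.loopless v hvA) (by rw [hCv]; exact h.ins v hvA) (by rw [hCv]; exact h.conn v hvA)
        h.inA hpr₁ (hd v) _ hR₁
      refine ⟨fun e => if hve : v ∈ e then s(v, w (Sym2.Mem.other hve)) else Pr₁ e, ?_, ?_⟩
      · intro x y hxy
        have hmemnb : ∀ z, G.Adj v z → z ∈ nb G v := fun z hz =>
          Finset.mem_filter.2 ⟨Finset.mem_univ _, hz⟩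
        have hClins : ∀ z, z ≠ v → (if z ∈ insert v B then ({z} : Finset V) else Cl z)
            = Cl' z := by
          intro z hz
          simp [hCl', Finset.mem_insert, hz]
        by_cases hxv : x = v
        · subst hxv
          have hve : x ∈ s(x, y) := Sym2.mem_mk_left _ _
          have hoth : Sym2.Mem.other hve = y := by
            have := Sym2.other_spec hve
            exact Sym2.congr_right.1 this
          refine ⟨x, by simp, w y, ?_, ?_⟩
          · rw [hClins y hxy.ne']
            exact hw y (hmemnb y hxy)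
          · simp only [dif_pos hve, hoth]
        · by_cases hyv : y = v
          · subst hyv
            have hve : y ∈ s(x, y) := Sym2.mem_mk_right _ _
            have hoth : Sym2.Mem.other hve = x := by
              have h1 : s(y, Sym2.Mem.other hve) = s(y, x) :=
                (Sym2.other_spec hve).trans Sym2.eq_swap
              exact Sym2.congr_right.1 h1
            refine ⟨w x, ?_, y, by simp, ?_⟩
            · rw [hClins x hxv]
              exact hw x (hmemnb x hxy.symm)
            · simp only [dif_pos hve, hoth]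
              exact Sym2.eq_swap
          · have hve : v ∉ s(x, y) := by
              rw [Sym2.mem_iff, not_or]
              exact ⟨Ne.symm hxv, Ne.symm hyv⟩
            simp only [dif_neg hve]
            rw [hClins x hxv, hClins y hyv]
            exact hpr₁ x y hxy
      · rw [CElim_ed G v, Multiset.map_add, Multiset.map_map]
        have h1 : (nb G v).val.map ((fun e => if hve : v ∈ e then
              s(v, w (Sym2.Mem.other hve)) else Pr₁ e) ∘ (fun y => s(v, y)))
            = (nb G v).val.map (fun y => s(v, w y)) := by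
          apply Multiset.map_congr rfl
          intro y _
          have hve : v ∈ s(v, y) := Sym2.mem_mk_left _ _
          have hoth : Sym2.Mem.other hve = y := Sym2.congr_right.1 (Sym2.other_spec hve)
          simp only [Function.comp, dif_pos hve, hoth]
        have h2 : ((univ : Finset (Sym2 V)).filter (fun e => e ∈ G.edgeSet ∧ v ∉ e)).val.map
            (fun e => if hve : v ∈ e then s(v, w (Sym2.Mem.other hve)) else Pr₁ e)
            = ((univ : Finset (Sym2 V)).filter
              (fun e => e ∈ G.edgeSet ∧ v ∉ e)).val.map Pr₁ := by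
          apply Multiset.map_congr rfl
          intro e he
          have h3 := (Finset.mem_filter.1 (Finset.mem_def.2 he)).2.2
          rw [dif_neg h3]
        rw [h1, h2, ← add_assoc, add_comm (∑ x ∈ A \ insert v B, I x), add_assoc]
        exact hRw
  obtain ⟨Pr', hpr', hR'⟩ := key A (Finset.Subset.refl _)
  rw [Finset.sdiff_self, Finset.sum_empty, zero_add] at hR'
  have h1 : (ed G).map Pr' = ed G := by
    conv_rhs => rw [← Multiset.map_id (ed G)]
    apply Multiset.map_congr rfl
    intro e he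
    have h2 := (Finset.mem_filter.1 (Finset.mem_def.2 he)).2
    induction e using Sym2.ind with
    | _ x y =>
      have hxy : G.Adj x y := h2
      obtain ⟨u, hu, w, hw, h3⟩ := hpr' x y hxy
      rw [if_pos (h.inA x y hxy), Finset.mem_singleton] at hu
      rw [if_pos (h.inA y x hxy.symm), Finset.mem_singleton] at hw
      rw [h3, hu, hw]
      rfl
  rwa [h1] at hR'

end OddImm
end

section

/-! Maximal matchings in the complement. -/

open Finset Classical

namespace OddImm

universe u

variable {V : Type u} [Fintype V]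

theorem MaxMt_cover (M : Finset (Sym2 V)) (X : Finset V) (G : SimpleGraph V) (hM : IsMt M X G) :
    (X.filter fun x => ∃ e ∈ M, x ∈ e).card = 2 * M.card := by
  have h1 : (X.filter fun x => ∃ e ∈ M, x ∈ e) = M.biUnion fun e => e.toFinset := by
    ext x
    simp only [mem_filter, mem_biUnion, Sym2.mem_toFinset]
    constructor
    · rintro ⟨_, h⟩
      exact h
    · rintro ⟨e, he, hx⟩
      exact ⟨hM.ins e he x hx, e, he, hx⟩
  rw [h1, Finset.card_biUnion]
  · rw [Finset.sum_congr rfl fun e he => Sym2.card_toFinset_of_not_isDiag e (hM.ndiag e he),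
      Finset.sum_const, smul_eq_mul, mul_comm]
  · intro e he e' he' hne
    show Disjoint e.toFinset e'.toFinset
    rw [Finset.disjoint_left]
    intro x hx hx'
    rw [Sym2.mem_toFinset] at hx hx'
    exact hne (hM.disj e he e' he' x hx hx')

theorem exists_max_mt (G : SimpleGraph V) (X : Finset V) :
    ∃ M : Finset (Sym2 V), IsMt M X G ∧ ∃ U ⊆ X, X.card = 2 * M.card + U.card ∧
      ∀ u ∈ U, ∀ w ∈ U, u ≠ w → G.Adj u w := by
  have h0 : IsMt (∅ : Finset (Sym2 V)) X G :=
    ⟨by simp, by simp, by simp, by simp⟩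
  obtain ⟨M, hM, hmax⟩ := Finset.exists_max_image
    ((univ : Finset (Finset (Sym2 V))).filter fun M => IsMt M X G) (fun M => M.card)
    ⟨∅, by simp [h0]⟩
  have hM' : IsMt M X G := (mem_filter.1 hM).2
  refine ⟨M, hM', X.filter (fun x => ¬ ∃ e ∈ M, x ∈ e), filter_subset _ _, ?_, ?_⟩
  · rw [← MaxMt_cover M X G hM']
    exact (Finset.card_filter_add_card_filter_not (s := X) (fun x => ∃ e ∈ M, x ∈ e)).symm
  · intro u hu w hw huw
    by_contra hadj
    obtain ⟨huX, hu⟩ := mem_filter.1 hu
    obtain ⟨hwX, hw⟩ := mem_filter.1 hw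
    have hnot : s(u, w) ∉ M := fun h => hu ⟨_, h, Sym2.mem_mk_left u w⟩
    have hnew : IsMt (insert s(u, w) M) X G := by
      refine ⟨?_, ?_, ?_, ?_⟩
      · intro e he
        rcases mem_insert.1 he with rfl | he
        · simpa using huw
        · exact hM'.ndiag e he
      · intro e he
        rcases mem_insert.1 he with rfl | he
        · intro v hv
          rcases Sym2.mem_iff.1 hv with rfl | rfl
          · exact huX
          · exact hwX
        · exact hM'.ins e he
      · intro e he
        rcases mem_insert.1 he with rfl | he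
        · rw [SimpleGraph.mem_edgeSet]
          exact hadj
        · exact hM'.nadj e he
      · intro e he e' he' x hx hx'
        rcases mem_insert.1 he with rfl | h1 <;> rcases mem_insert.1 he' with rfl | h2
        · rfl
        · exfalso
          rcases Sym2.mem_iff.1 hx with h3 | h3
          · exact hu ⟨e', h2, h3 ▸ hx'⟩
          · exact hw ⟨e', h2, h3 ▸ hx'⟩
        · exfalso
          rcases Sym2.mem_iff.1 hx' with h3 | h3
          · exact hu ⟨e, h1, h3 ▸ hx⟩
          · exact hw ⟨e, h1, h3 ▸ hx⟩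
        · exact hM'.disj e h1 e' h2 x hx hx'
    have h1 := hmax (insert s(u, w) M) (mem_filter.2 ⟨mem_univ _, hnew⟩)
    rw [card_insert_of_notMem hnot] at h1
    omega

end OddImm
end

section

/-! Reduction of the cluster graph to a graph with large minimum degree on vertices. -/

open Finset Classical

namespace OddImm

universe u

variable {V : Type u} [Fintype V]

/-- The graph induced on `W`, as a graph on all vertices. -/
def stepI_ind (G : SimpleGraph V) (W : Finset V) : SimpleGraph V where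
  Adj x y := G.Adj x y ∧ x ∈ W ∧ y ∈ W
  symm := ⟨fun _ _ h => ⟨h.1.symm, h.2.2, h.2.1⟩⟩
  loopless := ⟨fun x h => G.loopless.irrefl x h.1⟩

theorem stepI_ind_adj {G : SimpleGraph V} {W : Finset V} {x y : V} :
    (stepI_ind G W).Adj x y ↔ G.Adj x y ∧ x ∈ W ∧ y ∈ W := Iff.rfl

theorem stepI_ind_le (G : SimpleGraph V) (W : Finset V) : stepI_ind G W ≤ G :=
  fun _ _ h => h.1

theorem stepI_isMt_empty (G : SimpleGraph V) (X : Finset V) : IsMt ∅ X G where
  ndiag := by simp
  ins := by simp
  nadj := by simp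
  disj := by simp

theorem stepI_ind_erase (G : SimpleGraph V) (W : Finset V) (v : V) :
    stepI_ind G (W.erase v) = elimG (stepI_ind G W) v ∅ := by
  ext x y
  rw [elimG_adj (stepI_isMt_empty _ _), stepI_ind_adj, stepI_ind_adj]
  simp only [Finset.mem_erase, Finset.notMem_empty, or_false]
  tauto

theorem stepI_card_erase (G : SimpleGraph V) (W : Finset V) (v : V) :
    (ed (stepI_ind G (W.erase v))).card + (nb (stepI_ind G W) v).card =
      (ed (stepI_ind G W)).card := by
  rw [stepI_ind_erase, ed_elim_card (stepI_isMt_empty _ _)]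
  simp

theorem stepI_ed_empty (G : SimpleGraph V) : (ed (stepI_ind G ∅)).card = 0 := by
  rw [Multiset.card_eq_zero, Multiset.eq_zero_iff_forall_notMem]
  intro e he
  rw [mem_ed] at he
  induction e using Sym2.inductionOn with
  | hf a b =>
    rw [SimpleGraph.mem_edgeSet, stepI_ind_adj] at he
    exact absurd he.2.1 (Finset.notMem_empty a)

theorem stepI_nb_mono {G₁ G : SimpleGraph V} (h : G₁ ≤ G) (x : V) :
    (nb G₁ x).card ≤ (nb G x).card := by
  apply Finset.card_le_card
  intro y hy
  rw [mem_nb] at hy ⊢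
  exact h hy

/-- A graph with many edges has a nonempty induced subgraph of large minimum degree. -/
theorem stepI_core (G : SimpleGraph V) {β : ℕ} (hβ : 1 ≤ β) :
    ∀ (n : ℕ) (W : Finset V), W.card = n → W.Nonempty →
      β * W.card ≤ (ed (stepI_ind G W)).card →
      ∃ W' ⊆ W, W'.Nonempty ∧ ∀ x ∈ W', β ≤ (nb (stepI_ind G W') x).card := by
  intro n
  induction n with
  | zero =>
    intro W hW hne
    exact absurd (Finset.card_pos.2 hne) (by omega)
  | succ n ih =>
    intro W hW hne he
    by_cases hall : ∀ x ∈ W, β ≤ (nb (stepI_ind G W) x).card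
    · exact ⟨W, Finset.Subset.refl W, hne, hall⟩
    · push Not at hall
      obtain ⟨v, hv, hlt⟩ := hall
      have h1 := stepI_card_erase G W v
      have h2 : (W.erase v).card = n := by rw [Finset.card_erase_of_mem hv]; omega
      have hne' : (W.erase v).Nonempty := by
        rw [Finset.nonempty_iff_ne_empty]
        intro h3
        rw [h3, stepI_ed_empty] at h1
        rw [h3, Finset.card_empty] at h2
        rw [hW, ← h2] at he
        omega
      have h3 : β * (W.erase v).card ≤ (ed (stepI_ind G (W.erase v))).card := by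
        rw [h2]
        rw [hW, mul_add, mul_one] at he
        omega
      obtain ⟨W', hW', h4⟩ := ih (W.erase v) h2 hne' h3
      exact ⟨W', hW'.trans (Finset.erase_subset v W), h4⟩

/-- Deleting a set of vertices. -/
theorem stepI_delete (G : SimpleGraph V) (A T : Finset V) :
    (ed (stepI_ind G A)).card ≤ (ed (stepI_ind G (A \ T))).card + ∑ v ∈ T, (nb G v).card := by
  induction T using Finset.induction_on with
  | empty => simp
  | insert v T hv ih =>
    have h1 := stepI_card_erase G (A \ T) v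
    have h2 := stepI_nb_mono (stepI_ind_le G (A \ T)) v
    have h3 : A \ insert v T = (A \ T).erase v := by
      rw [Finset.sdiff_insert]
    rw [h3, Finset.sum_insert hv]
    omega

theorem stepI_ind_self {G : SimpleGraph V} {A : Finset V} (h : ∀ x y, G.Adj x y → x ∈ A) :
    stepI_ind G A = G := by
  ext x y
  rw [stepI_ind_adj]
  exact ⟨fun h1 => h1.1, fun h1 => ⟨h1, h x y h1, h y x h1.symm⟩⟩

/-- Subgraph with a prescribed number of edges. -/
theorem stepI_sub (G : SimpleGraph V) {m : ℕ} (hm : m ≤ (ed G).card) :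
    ∃ G₁ : SimpleGraph V, G₁ ≤ G ∧ (ed G₁).card = m := by
  have hm' : m ≤ ((univ : Finset (Sym2 V)).filter (fun e => e ∈ G.edgeSet)).card := hm
  obtain ⟨T, hT, hcard⟩ := Finset.exists_subset_card_eq hm'
  refine ⟨SimpleGraph.fromEdgeSet {e | e ∈ T}, ?_, ?_⟩
  · intro x y h
    rw [SimpleGraph.fromEdgeSet_adj] at h
    have := hT h.1
    rw [Finset.mem_filter] at this
    exact this.2
  · rw [← hcard]
    have key : ed (SimpleGraph.fromEdgeSet {e | e ∈ T}) = T.val := by
      rw [Multiset.Nodup.ext (ed_nodup _) T.nodup]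
      intro e
      rw [mem_ed, SimpleGraph.edgeSet_fromEdgeSet]
      constructor
      · rintro ⟨h1, -⟩
        exact h1
      · intro h1
        refine ⟨h1, ?_⟩
        have := hT h1
        rw [Finset.mem_filter] at this
        exact G.not_isDiag_of_mem_edgeSet this.2
    rw [key]
    rfl

theorem stepI {R : Multiset (Sym2 V) → Prop} (hR : LiftClosed R) {κ α t : ℕ}
    (hκ : 4 * α ≤ κ) (ht : 1 ≤ t) (htα : 2 * t < α) {A : Finset V}
    {Cl : V → Finset V} {I : V → Multiset (Sym2 V)} {G : SimpleGraph V}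
    {Pr : Sym2 V → Sym2 V} (h : CS R κ A Cl I G Pr) (hA : A.Nonempty)
    (he : α * A.card ≤ (ed G).card) :
    (∃ P : Finset V, P.card = t ∧ R (prs P)) ∨
    (∃ (W : Finset V) (H : SimpleGraph V), W.Nonempty ∧ (∀ x y, H.Adj x y → x ∈ W) ∧
      (∀ x ∈ W, α - 2 * t ≤ (nb H x).card) ∧ R (ed H)) := by
  by_contra hcon
  rw [not_or] at hcon
  obtain ⟨hK, hW⟩ := hcon
  -- minimal state
  obtain ⟨A₀, ⟨hA₀, G₀', Pr₀, h₀', he₀'⟩, hmin⟩ := WellFounded.has_min
    (measure (fun A : Finset V => A.card)).wf
    {A : Finset V | A.Nonempty ∧ ∃ (G : SimpleGraph V) (Pr : Sym2 V → Sym2 V),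
      CS R κ A Cl I G Pr ∧ α * A.card ≤ (ed G).card} ⟨A, hA, G, Pr, h, he⟩
  have hmin' : ∀ A' : Finset V, A'.Nonempty → (∃ (G : SimpleGraph V) (Pr : Sym2 V → Sym2 V),
      CS R κ A' Cl I G Pr ∧ α * A'.card ≤ (ed G).card) → A₀.card ≤ A'.card :=
    fun A' h1 h2 => not_lt.1 (hmin A' ⟨h1, h2⟩)
  clear hmin
  obtain ⟨G₀, hG₀le, he₀⟩ := stepI_sub G₀' he₀'
  have h₀ : CS R κ A₀ Cl I G₀ Pr₀ := CS.sub hR h₀' hG₀le
  have hout : ∀ v, v ∉ A₀ → (nb G₀ v).card = 0 := by
    intro v hv
    rw [Finset.card_eq_zero, Finset.eq_empty_iff_forall_notMem]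
    intro w hw
    exact hv (h₀.inA v w (mem_nb.1 hw))
  -- no realised clique inside a clique of the cluster graph
  have hclique : ∀ U : Finset V, (∀ u ∈ U, ∀ w ∈ U, u ≠ w → G₀.Adj u w) → U.card < t := by
    intro U hU
    by_contra hlt
    push Not at hlt
    obtain ⟨P, hP, hPt⟩ := Finset.exists_subset_card_eq hlt
    apply hK
    refine ⟨P, hPt, ?_⟩
    have h1 : R (ed (stepI_ind G₀ P)) := by
      refine CS.realise hR (CS.sub hR h₀ (stepI_ind_le G₀ P)) ?_
      intro x
      have : nb (stepI_ind G₀ P) x ⊆ P := by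
        intro y hy
        exact (stepI_ind_adj.1 (mem_nb.1 hy)).2.2
      have := Finset.card_le_card this
      omega
    refine hR.mono ?_ h1
    rw [prs, ed, Finset.val_le_iff]
    intro e he
    rw [Finset.mem_filter] at he ⊢
    refine ⟨Finset.mem_univ _, ?_⟩
    obtain ⟨-, he1, he2⟩ := he
    induction e using Sym2.inductionOn with
    | hf a b =>
      rw [ins_mk] at he2
      have hab : a ≠ b := by simpa using he1
      rw [SimpleGraph.mem_edgeSet, stepI_ind_adj]
      exact ⟨hU a (hP he2.1) b (hP he2.2) hab, he2⟩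
  -- degrees are large
  have hdeg : ∀ v ∈ A₀, 2 * α ≤ (nb G₀ v).card + t := by
    intro v hv
    by_cases hbig : (nb G₀ v).card ≤ 2 * α
    · obtain ⟨M, hM, U, hU, hcard, hUc⟩ := exists_max_mt G₀ (nb G₀ v)
      have hUt := hclique U hUc
      obtain ⟨Pr', hCS'⟩ := CS.elim hR h₀ hv (by omega) M hM
      have h1 := ed_elim_card hM
      have h2 : (A₀.erase v).card + 1 = A₀.card := Finset.card_erase_add_one hv
      have hne : (A₀.erase v).Nonempty := by
        rw [← Finset.card_pos]
        by_contra h3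
        have h4 : A₀.card = 1 := by omega
        rw [h4, mul_one] at he₀
        have h5 : 0 < (ed G₀).card := by omega
        obtain ⟨e, he⟩ := Multiset.card_pos_iff_exists_mem.1 h5
        rw [mem_ed] at he
        induction e using Sym2.inductionOn with
        | hf a b =>
          rw [SimpleGraph.mem_edgeSet] at he
          have ha := h₀.inA a b he
          have hb := h₀.inA b a he.symm
          have := Finset.one_lt_card.2 ⟨a, ha, b, hb, he.ne⟩
          omega
      have h6 : ¬ α * (A₀.erase v).card ≤ (ed (elimG G₀ v M)).card := by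
        intro h7
        have := hmin' (A₀.erase v) hne ⟨_, _, hCS', h7⟩
        omega
      rw [← h2, mul_add, mul_one] at he₀
      omega
    · omega
  -- the vertices of high degree
  set Hi := A₀.filter (fun v => 4 * α < (nb G₀ v).card) with hHi
  have hsum : ∑ v ∈ A₀, (nb G₀ v).card = 2 * (α * A₀.card) := by
    rw [← he₀, ← sum_nb]
    apply Finset.sum_subset (Finset.subset_univ _)
    intro v _ hv
    exact hout v hv
  have hsumHi : ∑ v ∈ Hi, (nb G₀ v).card ≤ 2 * (t * A₀.card) := by
    have h1 : ∀ v ∈ A₀, (if v ∈ Hi then (nb G₀ v).card else 0) + 2 * (2 * α) ≤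
        2 * (nb G₀ v).card + 2 * t := by
      intro v hv
      have h2 := hdeg v hv
      by_cases h3 : v ∈ Hi
      · rw [if_pos h3]
        rw [hHi, Finset.mem_filter] at h3
        omega
      · rw [if_neg h3]
        omega
    have h2 := Finset.sum_le_sum h1
    rw [Finset.sum_add_distrib, Finset.sum_add_distrib, Finset.sum_const, Finset.sum_const,
      ← Finset.mul_sum, hsum, ← Finset.sum_filter, smul_eq_mul, smul_eq_mul] at h2
    have h3 : A₀.filter (fun v => v ∈ Hi) = Hi := by
      ext v
      rw [Finset.mem_filter]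
      exact ⟨fun h => h.2, fun h => ⟨(Finset.mem_filter.1 (hHi ▸ h)).1, h⟩⟩
    rw [h3] at h2
    have e1 : A₀.card * (2 * (2 * α)) = 2 * (2 * (α * A₀.card)) := by ring
    have e2 : A₀.card * (2 * t) = 2 * (t * A₀.card) := by ring
    rw [e1, e2] at h2
    omega
  have hdel := stepI_delete G₀ A₀ Hi
  rw [stepI_ind_self h₀.inA, he₀] at hdel
  have hβ : 1 ≤ α - 2 * t := by omega
  have hmany : (α - 2 * t) * A₀.card ≤ (ed (stepI_ind G₀ (A₀ \ Hi))).card := by
    have h1 : (α - 2 * t) * A₀.card + 2 * (t * A₀.card) = α * A₀.card := by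
      rw [← mul_assoc, ← add_mul]
      congr 1
      omega
    omega
  have hne : (A₀ \ Hi).Nonempty := by
    rw [Finset.nonempty_iff_ne_empty]
    intro h1
    rw [h1, stepI_ed_empty] at hmany
    have h2 : 0 < A₀.card := Finset.card_pos.2 hA₀
    have h3 : 0 < (α - 2 * t) * A₀.card := Nat.mul_pos (by omega) h2
    omega
  obtain ⟨W, hWsub, hWne, hWdeg⟩ := stepI_core G₀ hβ (A₀ \ Hi).card (A₀ \ Hi) rfl hne
    ((Nat.mul_le_mul_left _ (Finset.card_le_card Finset.sdiff_subset)).trans hmany)
  apply hW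
  refine ⟨W, stepI_ind G₀ W, hWne, fun x y hxy => (stepI_ind_adj.1 hxy).2.1, hWdeg, ?_⟩
  refine CS.realise hR (CS.sub hR h₀ (stepI_ind_le G₀ W)) ?_
  intro x
  by_cases hx : x ∈ W
  · have h1 := hWsub hx
    rw [Finset.mem_sdiff] at h1
    have h2 : ¬ 4 * α < (nb G₀ x).card := by
      intro h3
      exact h1.2 (by rw [hHi, Finset.mem_filter]; exact ⟨h1.1, h3⟩)
    have h3 := stepI_nb_mono (stepI_ind_le G₀ W) x
    omega
  · have : nb (stepI_ind G₀ W) x = ∅ := by
      rw [Finset.eq_empty_iff_forall_notMem]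
      intro y hy
      exact hx (stepI_ind_adj.1 (mem_nb.1 hy)).2.1
    rw [this]
    simp

end OddImm
end
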