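import Pool.Agent.Lib.MP_361057_co.Stmt

section

/-!
Definitions and the most basic facts for MP_361057_co (lifting calculus).
-/

open Finset Classical

namespace OddImm

universe u

section Basic

variable {V : Type u}

/-- Degree of `v` in a multiset of pairs. -/
noncomputable def dg (F : Multiset (Sym2 V)) (v : V) : ℕ := F.countP (fun e => v ∈ e)

/-- Both ends of `e` lie in `S`. -/
def Ins (S : Finset V) (e : Sym2 V) : Prop := ∀ v ∈ e, v ∈ S

/-- Exactly one end of `e` lies in `S`. -/
def Cr (S : Finset V) (e : Sym2 V) : Prop := (∃ v ∈ e, v ∈ S) ∧ (∃ v ∈ e, v ∉ S)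

/-- Number of pairs of `F` with exactly one end in `S`. -/
noncomputable def cut (F : Multiset (Sym2 V)) (S : Finset V) : ℕ := F.countP (Cr S)

/-- No loops. -/
def Loopless (F : Multiset (Sym2 V)) : Prop := ∀ e ∈ F, ¬ e.IsDiag

/-- A predicate on multisets of pairs closed under deletion of pairs and under lifting. -/
structure LiftClosed (R : Multiset (Sym2 V) → Prop) : Prop where
  mono : ∀ {S T : Multiset (Sym2 V)}, T ≤ S → R S → R T
  lift : ∀ {S : Multiset (Sym2 V)} {a b c : V}, a ≠ c →
    R (s(a, b) ::ₘ s(b, c) ::ₘ S) → R (s(a, c) ::ₘ S)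

end Basic

section Fin

variable {V : Type u} [Fintype V]

/-- The edges of a simple graph, as a multiset. -/
noncomputable def ed (G : SimpleGraph V) : Multiset (Sym2 V) :=
  ((univ : Finset (Sym2 V)).filter (fun e => e ∈ G.edgeSet)).val

/-- The neighbours of a vertex, as a finset. -/
noncomputable def nb (G : SimpleGraph V) (v : V) : Finset V :=
  (univ : Finset V).filter (fun w => G.Adj v w)

/-- All pairs of distinct elements of `P`, as a multiset. -/
noncomputable def prs (P : Finset V) : Multiset (Sym2 V) :=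
  ((univ : Finset (Sym2 V)).filter (fun e => ¬ e.IsDiag ∧ Ins P e)).val

/-- `M` is a matching of pairs of elements of `X` that are not adjacent in `G`. -/
structure IsMt (M : Finset (Sym2 V)) (X : Finset V) (G : SimpleGraph V) : Prop where
  ndiag : ∀ e ∈ M, ¬ e.IsDiag
  ins : ∀ e ∈ M, Ins X e
  nadj : ∀ e ∈ M, e ∉ G.edgeSet
  disj : ∀ e ∈ M, ∀ e' ∈ M, ∀ x, x ∈ e → x ∈ e' → e = e'

/-- Delete the vertex `r` from `G` and add the pairs of `M` as edges. -/
def elimG (G : SimpleGraph V) (r : V) (M : Finset (Sym2 V)) : SimpleGraph V :=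
  SimpleGraph.fromEdgeSet ({e | e ∈ G.edgeSet ∧ r ∉ e} ∪ {e | e ∈ M})

/-- Remove the edges `yr`, `rp`, `pz` of `G` and add `yz`. -/
def plG (G : SimpleGraph V) (y r p z : V) : SimpleGraph V :=
  SimpleGraph.fromEdgeSet
    ({e | e ∈ G.edgeSet ∧ e ≠ s(y, r) ∧ e ≠ s(r, p) ∧ e ≠ s(p, z)} ∪ {s(y, z)})

/-- A structure of odd classes with, for every pair of types, a perfect matching of the union
of the two classes. -/
structure Str (R : Multiset (Sym2 V) → Prop) {ι : Type} [Fintype ι] (O : ι → Finset V)
    (F : Sym2 ι → Multiset (Sym2 V)) : Prop where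
  loopless : ∀ e, Loopless (F e)
  odd : ∀ i, Odd (O i).card
  disj : ∀ i j, i ≠ j → Disjoint (O i) (O j)
  deg : ∀ i j, i ≠ j → ∀ v, dg (F s(i, j)) v = if v ∈ O i ∨ v ∈ O j then 1 else 0
  real : R (∑ e ∈ (univ : Finset (Sym2 ι)).filter (fun e => ¬ e.IsDiag), F e)

/-- The labels of `i` on the boundary of `C`. -/
noncomputable def JJ {ι : Type} [Fintype ι] (F : Sym2 ι → Multiset (Sym2 V)) (i : ι)
    (C : Finset V) : Finset ι :=
  (univ : Finset ι).filter (fun j => j ≠ i ∧ 1 ≤ cut (F s(i, j)) C)

/-- Cluster state. -/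
structure CS (R : Multiset (Sym2 V) → Prop) (κ : ℕ) (A : Finset V) (Cl : V → Finset V)
    (I : V → Multiset (Sym2 V)) (G : SimpleGraph V) (Pr : Sym2 V → Sym2 V) : Prop where
  mem : ∀ x ∈ A, x ∈ Cl x
  disj : ∀ x ∈ A, ∀ y ∈ A, x ≠ y → Disjoint (Cl x) (Cl y)
  loopless : ∀ x ∈ A, Loopless (I x)
  ins : ∀ x ∈ A, ∀ e ∈ I x, Ins (Cl x) e
  conn : ∀ x ∈ A, ∀ S ⊆ Cl x, S.Nonempty → S ≠ Cl x → κ ≤ cut (I x) S
  inA : ∀ x y, G.Adj x y → x ∈ A
  pr : ∀ x y, G.Adj x y → ∃ u ∈ Cl x, ∃ w ∈ Cl y, Pr s(x, y) = s(u, w)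
  real : R ((∑ x ∈ A, I x) + (ed G).map Pr)

/-- A graph on `W`, of minimum degree at least `D`, except that `v₀` may have degree `D - 1`. -/
structure Good (R : Multiset (Sym2 V) → Prop) (D : ℕ) (W : Finset V) (H : SimpleGraph V)
    (v₀ : V) : Prop where
  inW : ∀ x y, H.Adj x y → x ∈ W
  mem : v₀ ∈ W
  deg₀ : D ≤ (nb H v₀).card + 1
  deg : ∀ x ∈ W, x ≠ v₀ → D ≤ (nb H x).card
  real : R (ed H)

/-- Every element of the list except the last one has a neighbour further down. -/
def Ch (G : SimpleGraph V) : List V → Prop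
  | [] => True
  | z :: l => (l = [] ∨ ∃ p ∈ l, G.Adj z p) ∧ Ch G l

/-- Configurations of the elimination process: `E` eliminated vertices, `L` stack of pending
vertices (its last element is `v₀`), `G` the current graph. -/
structure Config (R : Multiset (Sym2 V) → Prop) (t : ℕ) (W : Finset V) (H : SimpleGraph V)
    (v₀ : V) (E : Finset V) (L : List V) (G : SimpleGraph V) : Prop where
  nodup : L.Nodup
  last : ∃ l, L = l ++ [v₀]
  EW : E ⊆ W
  LW : ∀ x ∈ L, x ∈ W ∧ x ∉ E
  inG : ∀ x y, G.Adj x y → x ∈ W ∧ x ∉ E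
  real : R (ed G)
  small : E.card + L.length < t
  c1 : ∀ x ∈ W, x ∉ E → x ∉ L → (nb G x).card = (nb H x).card
  c2 : ∀ z ∈ L, ((nb H v₀ \ (E ∪ L.toFinset)) \ nb G z).card ≤ 2 * (E.card + L.length) + E.card
  c3 : ∀ x ∈ W, x ∉ E → (nb G x \ nb H x).card ≤ 2 * E.card
  c4 : ∀ z, z ∈ E ∨ z ∈ L → (nb H v₀ \ nb H z).card ≤ 6 * (E.card + L.length)
  c5 : Ch G L

end Fin

section Statement

variable {V : Type u}

/-- `S` is realised in `G` by walks that together use every edge at most once. -/
def Real (G : SimpleGraph V) (S : Multiset (Sym2 V)) : Prop :=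
  ∃ L : Multiset (Σ p : V × V, G.Walk p.1 p.2),
    L.map (fun w => s(w.1.1, w.1.2)) = S ∧
    (L.bind (fun w => ((w.2.edges : List (Sym2 V)) : Multiset (Sym2 V)))).Nodup

end Statement

end OddImm
end

section

/-!
Basic facts on `dg`, `cut`.
-/

open Finset Classical

namespace OddImm

universe u

variable {V : Type u}

@[simp] theorem ins_mk {S : Finset V} {a b : V} : Ins S s(a, b) ↔ a ∈ S ∧ b ∈ S := by
  unfold Ins
  constructor
  · intro h
    exact ⟨h a (by simp), h b (by simp)⟩
  · rintro ⟨ha, hb⟩ v hv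
    rcases Sym2.mem_iff.1 hv with rfl | rfl
    · exact ha
    · exact hb

@[simp] theorem cr_mk {S : Finset V} {a b : V} :
    Cr S s(a, b) ↔ (a ∈ S ∧ b ∉ S) ∨ (a ∉ S ∧ b ∈ S) := by
  unfold Cr
  constructor
  · rintro ⟨⟨v, hv, hvS⟩, ⟨w, hw, hwS⟩⟩
    rcases Sym2.mem_iff.1 hv with rfl | rfl <;> rcases Sym2.mem_iff.1 hw with rfl | rfl
    · exact absurd hvS hwS
    · exact Or.inl ⟨hvS, hwS⟩
    · exact Or.inr ⟨hwS, hvS⟩
    · exact absurd hvS hwS
  · rintro (⟨ha, hb⟩ | ⟨ha, hb⟩)
    · exact ⟨⟨a, by simp, ha⟩, ⟨b, by simp, hb⟩⟩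
    · exact ⟨⟨b, by simp, hb⟩, ⟨a, by simp, ha⟩⟩

@[simp] theorem dg_zero (v : V) : dg (0 : Multiset (Sym2 V)) v = 0 := by simp [dg]

@[simp] theorem cut_zero (S : Finset V) : cut (0 : Multiset (Sym2 V)) S = 0 := by simp [cut]

theorem dg_add (F G : Multiset (Sym2 V)) (v : V) : dg (F + G) v = dg F v + dg G v := by
  simp [dg, Multiset.countP_add]

theorem cut_add (F G : Multiset (Sym2 V)) (S : Finset V) :
    cut (F + G) S = cut F S + cut G S := by
  simp [cut, Multiset.countP_add]

theorem dg_cons (e : Sym2 V) (F : Multiset (Sym2 V)) (v : V) :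
    dg (e ::ₘ F) v = dg F v + if v ∈ e then 1 else 0 := by
  simp [dg, Multiset.countP_cons]

theorem cut_cons (e : Sym2 V) (F : Multiset (Sym2 V)) (S : Finset V) :
    cut (e ::ₘ F) S = cut F S + if Cr S e then 1 else 0 := by
  simp [cut, Multiset.countP_cons]

theorem dg_sum {κ : Type*} (T : Finset κ) (F : κ → Multiset (Sym2 V)) (v : V) :
    dg (∑ e ∈ T, F e) v = ∑ e ∈ T, dg (F e) v := by
  induction T using Finset.induction_on with
  | empty => simp
  | insert a s ha ih => rw [Finset.sum_insert ha, Finset.sum_insert ha, dg_add, ih]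

theorem cut_sum {κ : Type*} (T : Finset κ) (F : κ → Multiset (Sym2 V)) (S : Finset V) :
    cut (∑ e ∈ T, F e) S = ∑ e ∈ T, cut (F e) S := by
  induction T using Finset.induction_on with
  | empty => simp
  | insert a s ha ih => rw [Finset.sum_insert ha, Finset.sum_insert ha, cut_add, ih]

theorem dg_mono {F G : Multiset (Sym2 V)} (h : F ≤ G) (v : V) : dg F v ≤ dg G v :=
  Multiset.countP_le_of_le _ h

theorem cut_mono {F G : Multiset (Sym2 V)} (h : F ≤ G) (S : Finset V) : cut F S ≤ cut G S :=
  Multiset.countP_le_of_le _ h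

theorem Loopless.mono {F G : Multiset (Sym2 V)} (h : F ≤ G) (hG : Loopless G) : Loopless F :=
  fun e he => hG e (Multiset.mem_of_le h he)

theorem loopless_add {F G : Multiset (Sym2 V)} (hF : Loopless F) (hG : Loopless G) :
    Loopless (F + G) := by
  intro e he
  rcases Multiset.mem_add.1 he with h | h
  · exact hF e h
  · exact hG e h

theorem loopless_cons {e : Sym2 V} {F : Multiset (Sym2 V)} :
    Loopless (e ::ₘ F) ↔ ¬ e.IsDiag ∧ Loopless F := by
  unfold Loopless
  simp

/-- Double counting: degrees, crossing pairs and inner pairs. -/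
theorem sum_dg {F : Multiset (Sym2 V)} (hF : Loopless F) (S : Finset V) :
    ∑ v ∈ S, dg F v = cut F S + 2 * F.countP (Ins S) := by
  induction F using Multiset.induction_on with
  | empty => simp
  | cons e F ih =>
    obtain ⟨he, hF'⟩ := loopless_cons.1 hF
    have ih' := ih hF'
    induction e using Sym2.inductionOn with
    | hf a b =>
      have hab : a ≠ b := by simpa using he
      rw [Multiset.countP_cons, cut_cons]
      simp only [dg_cons, Finset.sum_add_distrib, ih']
      have h1 : ∑ v ∈ S, (if v ∈ s(a, b) then 1 else 0)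
          = (if a ∈ S then 1 else 0) + (if b ∈ S then 1 else 0) := by
        have : ∀ v ∈ S, (if v ∈ s(a, b) then 1 else 0)
            = (if v = a then 1 else 0) + (if v = b then 1 else 0) := by
          intro v _
          by_cases h1 : v = a
          · subst h1; simp [hab]
          · by_cases h2 : v = b
            · subst h2; simp [h1]
            · simp [h1, h2]
        rw [Finset.sum_congr rfl this, Finset.sum_add_distrib]
        simp
      rw [h1]
      simp only [ins_mk, cr_mk]
      by_cases ha : a ∈ S <;> by_cases hb : b ∈ S <;> simp [ha, hb] <;> omega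

theorem cut_singleton {F : Multiset (Sym2 V)} (hF : Loopless F) (v : V) :
    cut F {v} = dg F v := by
  induction F using Multiset.induction_on with
  | empty => simp
  | cons e F ih =>
    obtain ⟨he, hF'⟩ := loopless_cons.1 hF
    rw [cut_cons, dg_cons, ih hF']
    induction e using Sym2.inductionOn with
    | hf a b =>
      have hab : a ≠ b := by simpa using he
      congr 1
      simp only [cr_mk, Finset.mem_singleton, Sym2.mem_iff]
      by_cases h1 : a = v
      · subst h1
        simp [hab.symm]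
      · by_cases h2 : b = v
        · subst h2; simp [h1]
        · simp [h1, h2, Ne.symm h1, Ne.symm h2]

theorem cut_submod (F : Multiset (Sym2 V)) (S T : Finset V) :
    cut F (S ∩ T) + cut F (S ∪ T) ≤ cut F S + cut F T := by
  induction F using Multiset.induction_on with
  | empty => simp
  | cons e F ih =>
    induction e using Sym2.inductionOn with
    | hf a b =>
      simp only [cut_cons, cr_mk, Finset.mem_inter, Finset.mem_union]
      by_cases h1 : a ∈ S <;> by_cases h2 : a ∈ T <;> by_cases h3 : b ∈ S <;>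
        by_cases h4 : b ∈ T <;> simp [h1, h2, h3, h4] <;> omega

/-- Adding one vertex to a set. -/
theorem cut_insert {F : Multiset (Sym2 V)} (hF : Loopless F) {S : Finset V} {v : V}
    (hv : v ∉ S) :
    cut F (insert v S) + 2 * F.countP (fun e => v ∈ e ∧ ∃ w ∈ e, w ∈ S) = cut F S + dg F v := by
  induction F using Multiset.induction_on with
  | empty => simp
  | cons e F ih =>
    obtain ⟨he, hF'⟩ := loopless_cons.1 hF
    have ih' := ih hF'
    induction e using Sym2.inductionOn with
    | hf a b =>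
      have hab : a ≠ b := by simpa using he
      have key : ((∃ w ∈ s(a, b), w ∈ S) ↔ (a ∈ S ∨ b ∈ S)) := by
        constructor
        · rintro ⟨w, hw, hwS⟩
          rcases Sym2.mem_iff.1 hw with rfl | rfl
          · exact Or.inl hwS
          · exact Or.inr hwS
        · rintro (h | h)
          · exact ⟨a, by simp, h⟩
          · exact ⟨b, by simp, h⟩
      rw [Multiset.countP_cons]
      simp only [cut_cons, dg_cons, cr_mk, Finset.mem_insert, Sym2.mem_iff, key]
      by_cases h1 : a = v
      · subst h1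
        have hb : b ≠ a := hab.symm
        by_cases h3 : b ∈ S <;> simp [h3, hv, hb] <;> omega
      · by_cases h2 : b = v
        · subst h2
          by_cases h3 : a ∈ S <;> simp [h3, hv, h1] <;> omega
        · have h1' : ¬ v = a := fun h => h1 h.symm
          have h2' : ¬ v = b := fun h => h2 h.symm
          by_cases h3 : a ∈ S <;> by_cases h4 : b ∈ S <;>
            simp [h1, h2, h1', h2', h3, h4] <;> omega

end OddImm
end

section

/-! Edges and neighbourhoods. -/

open Finset Classical

namespace OddImm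

universe u

variable {V : Type u} [Fintype V]

theorem mem_nb {G : SimpleGraph V} {v w : V} : w ∈ nb G v ↔ G.Adj v w := by
  simp [nb]

theorem mem_ed {G : SimpleGraph V} {e : Sym2 V} : e ∈ ed G ↔ e ∈ G.edgeSet := by
  simp [ed]

theorem ed_nodup (G : SimpleGraph V) : (ed G).Nodup := Finset.nodup _

theorem ed_loopless (G : SimpleGraph V) : Loopless (ed G) := by
  intro e he
  exact G.not_isDiag_of_mem_edgeSet (mem_ed.1 he)

/-- Handshake. -/
theorem sum_nb (G : SimpleGraph V) : ∑ v, (nb G v).card = 2 * (ed G).card := by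
  have h1 : ∀ v, (nb G v).card = G.degree v := by
    intro v
    rw [← SimpleGraph.card_neighborFinset_eq_degree]
    congr 1
    ext w
    rw [mem_nb, SimpleGraph.mem_neighborFinset]
  have h2 : (ed G).card = G.edgeFinset.card := by
    rw [ed, Finset.card_val]
    congr 1
    ext e
    simp
  rw [h2, ← G.sum_degrees_eq_twice_card_edges]
  exact Finset.sum_congr rfl fun v _ => h1 v

end OddImm
end
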