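import Pool.Agent.Lib.MP_361057_co.Mg.G001
import Pool.Agent.Lib.MP_361057_co.Mg.G004

section

/-! `Real G` is lift-closed, and the edges of `G` are realised in `G`. -/

open Finset Classical

namespace OddImm

universe u

variable {V : Type u}

theorem RealClosed_exists_sub {α β : Type*} (f : α → β) (L : Multiset α) :
    ∀ T : Multiset β, T ≤ L.map f → ∃ L' ≤ L, L'.map f = T := by
  induction L using Multiset.induction with
  | empty =>
    intro T hT
    refine ⟨0, le_refl _, ?_⟩
    simp only [Multiset.map_zero, Multiset.le_zero] at hT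
    simp [hT]
  | cons a L ih =>
    intro T hT
    rw [Multiset.map_cons] at hT
    by_cases ha : f a ∈ T
    · obtain ⟨T', rfl⟩ := Multiset.exists_cons_of_mem ha
      obtain ⟨L', hL', h⟩ := ih T' ((Multiset.cons_le_cons_iff _).1 hT)
      exact ⟨a ::ₘ L', (Multiset.cons_le_cons_iff _).2 hL', by simp [h]⟩
    · obtain ⟨L', hL', h⟩ := ih T ((Multiset.le_cons_of_notMem ha).1 hT)
      exact ⟨L', hL'.trans (Multiset.le_cons_self _ _), h⟩

theorem RealClosed_orient (G : SimpleGraph V) (w : Σ p : V × V, G.Walk p.1 p.2) (a b : V)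
    (h : s(w.1.1, w.1.2) = s(a, b)) :
    ∃ p : G.Walk a b, ((p.edges : List (Sym2 V)) : Multiset (Sym2 V)) = (w.2.edges : List (Sym2 V)) := by
  obtain ⟨⟨x, y⟩, q⟩ := w
  simp only [Sym2.eq_iff] at h
  rcases h with ⟨rfl, rfl⟩ | ⟨rfl, rfl⟩
  · exact ⟨q, rfl⟩
  · refine ⟨q.reverse, ?_⟩
    simp

theorem real_closed (G : SimpleGraph V) : LiftClosed (Real G) where
  mono := by
    rintro S T hTS ⟨L, rfl, hnd⟩
    obtain ⟨L', hL', h⟩ := RealClosed_exists_sub _ L T hTS
    refine ⟨L', h, ?_⟩
    obtain ⟨U, rfl⟩ := Multiset.le_iff_exists_add.1 hL'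
    rw [Multiset.add_bind] at hnd
    exact (Multiset.nodup_add.1 hnd).1
  lift := by
    rintro S a b c hac ⟨L, hL, hnd⟩
    obtain ⟨w₁, hw₁, h₁, hL₁⟩ := (Multiset.map_eq_cons _ _ _ _).2 hL
    obtain ⟨w₂, hw₂, h₂, hL₂⟩ := (Multiset.map_eq_cons _ _ _ _).2 hL₁
    obtain ⟨p, hp⟩ := RealClosed_orient G w₁ a b h₁
    obtain ⟨q, hq⟩ := RealClosed_orient G w₂ b c h₂
    have e : L = w₁ ::ₘ w₂ ::ₘ (L.erase w₁).erase w₂ := by
      rw [Multiset.cons_erase hw₂, Multiset.cons_erase hw₁]
    refine ⟨⟨(a, c), p.append q⟩ ::ₘ (L.erase w₁).erase w₂, ?_, ?_⟩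
    · rw [Multiset.map_cons, hL₂]
    · rw [e, Multiset.cons_bind, Multiset.cons_bind, ← hp, ← hq, ← add_assoc] at hnd
      rw [Multiset.cons_bind]
      simp only [SimpleGraph.Walk.edges_append, ← Multiset.coe_add]
      exact hnd

theorem real_edges [Fintype V] (G : SimpleGraph V) : Real G (ed G) := by
  set F : Finset (Sym2 V) := (univ : Finset (Sym2 V)).filter (fun e => e ∈ G.edgeSet) with hF
  have key : ∀ e : {e // e ∈ F}, ∃ w : Σ p : V × V, G.Walk p.1 p.2,
      s(w.1.1, w.1.2) = e.1 ∧ ((w.2.edges : List (Sym2 V)) : Multiset (Sym2 V)) = {e.1} := by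
    rintro ⟨e, he⟩
    simp only [hF, mem_filter, mem_univ, true_and] at he
    induction e using Sym2.ind with
    | _ x y =>
      rw [SimpleGraph.mem_edgeSet] at he
      exact ⟨⟨(x, y), he.toWalk⟩, rfl, by simp⟩
  choose g hg1 hg2 using key
  refine ⟨F.attach.val.map g, ?_, ?_⟩
  · rw [Multiset.map_map]
    have : ((fun w : (Σ p : V × V, G.Walk p.1 p.2) => s(w.1.1, w.1.2)) ∘ g) = Subtype.val := by
      funext e
      exact hg1 e
    rw [this]
    have h2 : F.attach.val.map Subtype.val = F.val := by
      rw [Finset.attach_val]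
      exact Multiset.attach_map_val _
    rw [h2]
    rfl
  · rw [Multiset.bind_map]
    simp only [hg2]
    have h2 : (F.attach.val.bind fun e => ({e.1} : Multiset (Sym2 V))) = F.val := by
      rw [Multiset.bind_singleton, Finset.attach_val]
      exact Multiset.attach_map_val _
    rw [h2]
    exact F.nodup

end OddImm
end

section

/-! An oddomorphism gives a structure. -/

open Finset Classical

namespace OddImm

universe u

variable {V : Type u} [Fintype V]

theorem init_dg (G : SimpleGraph V) {ι : Type} (f : V → ι) {i j : ι} (_hij : i ≠ j) {v : V}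
    (hv : f v = i) :
    dg ((ed G).filter (fun x => x.map f = s(i, j))) v = {w | G.Adj v w ∧ f w = j}.ncard := by
  have h1 : dg ((ed G).filter (fun x => x.map f = s(i, j))) v =
      (((univ : Finset (Sym2 V)).filter (fun e => e ∈ G.edgeSet)).filter
        (fun e => v ∈ e ∧ e.map f = s(i, j))).card := by
    unfold dg ed
    rw [Multiset.countP_filter, Multiset.countP_eq_card_filter]
    rfl
  have h2 : {w | G.Adj v w ∧ f w = j} =
      (((univ : Finset V).filter (fun w => G.Adj v w ∧ f w = j) : Finset V) : Set V) := by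
    ext w
    simp
  rw [h1, h2, Set.ncard_coe_finset]
  symm
  apply Finset.card_bij (fun w _ => s(v, w))
  · intro w hw
    rw [Finset.mem_filter] at hw
    rw [Finset.mem_filter, Finset.mem_filter]
    refine ⟨⟨Finset.mem_univ _, hw.2.1⟩, Sym2.mem_mk_left _ _, ?_⟩
    rw [Sym2.map_mk]
    simp only [hv, hw.2.2]
  · intro a _ b _ hab
    exact Sym2.congr_right.1 hab
  · intro e he
    rw [Finset.mem_filter, Finset.mem_filter] at he
    obtain ⟨⟨-, he1⟩, he2, he3⟩ := he
    obtain ⟨w, rfl⟩ := Sym2.mem_iff_exists.1 he2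
    refine ⟨w, ?_, rfl⟩
    rw [Finset.mem_filter]
    refine ⟨Finset.mem_univ _, he1, ?_⟩
    rw [Sym2.map_mk] at he3
    have he4 : s(f v, f w) = s(i, j) := he3
    rw [hv] at he4
    exact Sym2.congr_right.1 he4

theorem init_dg_zero (G : SimpleGraph V) {ι : Type} (f : V → ι) {i j : ι} {v : V}
    (hi : f v ≠ i) (hj : f v ≠ j) :
    dg ((ed G).filter (fun x => x.map f = s(i, j))) v = 0 := by
  unfold dg
  rw [Multiset.countP_eq_zero]
  intro e he hv
  rw [Multiset.mem_filter] at he
  obtain ⟨w, rfl⟩ := Sym2.mem_iff_exists.1 hv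
  have h3 := he.2
  rw [Sym2.map_mk] at h3
  have h4 : f v ∈ s(i, j) := by
    rw [← h3]
    exact Sym2.mem_mk_left _ _
  rcases Sym2.mem_iff.1 h4 with h | h
  · exact hi h
  · exact hj h

theorem init_sum (G : SimpleGraph V) {ι : Type} [Fintype ι] (f : V → ι) (T : Finset (Sym2 ι)) :
    (∑ e ∈ T, (ed G).filter (fun x => x.map f = e)) ≤ ed G := by
  have h : (∑ e ∈ T, (ed G).filter (fun x => x.map f = e)) =
      (ed G).filter (fun x => x.map f ∈ T) := by
    induction T using Finset.induction_on with
    | empty =>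
      simp
    | insert a s ha ih =>
      rw [Finset.sum_insert ha, ih]
      have h2 : (ed G).filter (fun x => x.map f ∈ insert a s) =
          (ed G).filter (fun x => x.map f = a ∨ x.map f ∈ s) := by
        apply Multiset.filter_congr
        intro x _
        rw [Finset.mem_insert]
      rw [h2, Multiset.filter_add_filter]
      have h3 : (ed G).filter (fun x => x.map f = a ∧ x.map f ∈ s) = 0 := by
        rw [Multiset.filter_eq_nil]
        rintro x - ⟨h4, h5⟩
        rw [h4] at h5
        exact ha h5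
      rw [h3, add_zero]
  rw [h]
  exact Multiset.filter_le _ _

theorem exists_str (G : SimpleGraph V) {ι : Type} [Fintype ι] (f : V → ι)
    (hf : IsOddomorphism G f) :
    ∃ (O : ι → Finset V) (F : Sym2 ι → Multiset (Sym2 V)), Str (Real G) O F := by
  set T : Finset (Sym2 ι) := (univ : Finset (Sym2 ι)).filter (fun e => ¬ e.IsDiag) with hT
  set F₀ : Sym2 ι → Multiset (Sym2 V) := fun e => (ed G).filter (fun x => x.map f = e) with hF₀
  have hloop : ∀ e ∈ T, Loopless (F₀ e) := by
    intro e _ x hx
    have h1 := (Multiset.mem_filter.1 hx).1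
    unfold ed at h1
    have h2 : x ∈ (univ : Finset (Sym2 V)).filter (fun e => e ∈ G.edgeSet) := h1
    rw [Finset.mem_filter] at h2
    exact G.not_isDiag_of_mem_edgeSet h2.2
  have hreal : Real G (∑ e ∈ T, F₀ e) := (real_closed G).mono (init_sum G f T) (real_edges G)
  obtain ⟨M, hM1, hM2, hM3⟩ := parity_family (real_closed G) T F₀ hloop hreal
  refine ⟨fun i => (univ : Finset V).filter (fun v => f v = i ∧ OddVertex G f v), M, ?_⟩
  constructor
  · intro e
    by_cases he : e ∈ T
    · exact (hM1 e he).1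
    · rw [hM2 e he]
      intro x hx
      simp at hx
  · intro i
    have h := hf.odd_class i
    have h2 : {v | f v = i ∧ OddVertex G f v} =
        (((univ : Finset V).filter (fun v => f v = i ∧ OddVertex G f v) : Finset V) : Set V) := by
      ext v
      simp
    rw [h2, Set.ncard_coe_finset] at h
    exact h
  · intro i j hij
    rw [Finset.disjoint_left]
    intro v hv hv'
    rw [Finset.mem_filter] at hv hv'
    exact hij (hv.2.1.symm.trans hv'.2.1)
  · intro i j hij v
    have hmem : s(i, j) ∈ T := by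
      rw [hT, Finset.mem_filter]
      exact ⟨Finset.mem_univ _, by rwa [Sym2.mk_isDiag_iff]⟩
    rw [(hM1 _ hmem).2 v]
    have hkey : ∀ i j : ι, i ≠ j → f v = i →
        {w | G.Adj v w ∧ f w = j}.ncard % 2 =
          if v ∈ (univ : Finset V).filter (fun v => f v = i ∧ OddVertex G f v) ∨
            v ∈ (univ : Finset V).filter (fun v => f v = j ∧ OddVertex G f v) then 1 else 0 := by
      intro i j hij hi
      have hj : f v ≠ j := fun h => hij (hi.symm.trans h)
      by_cases ho : OddVertex G f v
      · rw [if_pos (Or.inl (by rw [Finset.mem_filter]; exact ⟨Finset.mem_univ _, hi, ho⟩))]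
        exact Nat.odd_iff.1 (ho j (fun h => hj h.symm))
      · rw [if_neg (by
          rw [Finset.mem_filter, Finset.mem_filter]
          rintro (h | h)
          · exact ho h.2.2
          · exact ho h.2.2)]
        have he := (hf.odd_or_even v).resolve_left ho
        exact Nat.even_iff.1 (he j (fun h => hj h.symm))
    by_cases hi : f v = i
    · have h1 : dg (F₀ s(i, j)) v = _ := init_dg G f hij hi
      rw [h1]
      exact hkey i j hij hi
    · by_cases hj : f v = j
      · have h1 : dg (F₀ s(j, i)) v = _ := init_dg G f hij.symm hj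
        rw [Sym2.eq_swap (a := i) (b := j), h1, hkey j i hij.symm hj]
        simp only [or_comm]
      · have h1 : dg (F₀ s(i, j)) v = 0 := init_dg_zero G f hi hj
        rw [h1, if_neg]
        rw [Finset.mem_filter, Finset.mem_filter]
        rintro (h | h)
        · exact hi h.2.1
        · exact hj h.2.1
  · exact hM3

end OddImm
end
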