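import Pool.Agent.Lib.MP_361057_co.Mg.G001

section

/-! Elimination of a vertex: adjacency and degrees. -/

open Finset Classical

namespace OddImm

universe u

variable {V : Type u} [Fintype V]

theorem ElimNb_mem_nb {G : SimpleGraph V} {v w : V} : w ∈ nb G v ↔ G.Adj v w := by
  simp [nb]

theorem elimG_adj {G : SimpleGraph V} {r : V} {M : Finset (Sym2 V)}
    (hM : IsMt M (nb G r) G) {a b : V} :
    (elimG G r M).Adj a b ↔ (G.Adj a b ∧ a ≠ r ∧ b ≠ r) ∨ s(a, b) ∈ M := by
  unfold elimG
  rw [SimpleGraph.fromEdgeSet_adj]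
  constructor
  · rintro ⟨h | h, hne⟩
    · left
      obtain ⟨h1, h2⟩ := h
      refine ⟨h1, ?_, ?_⟩
      · rintro rfl
        exact h2 (Sym2.mem_mk_left _ _)
      · rintro rfl
        exact h2 (Sym2.mem_mk_right _ _)
    · exact Or.inr h
  · rintro (⟨h1, h2, h3⟩ | h)
    · refine ⟨Or.inl ⟨h1, ?_⟩, h1.ne⟩
      rw [Sym2.mem_iff]
      rintro (h | h)
      · exact h2 h.symm
      · exact h3 h.symm
    · refine ⟨Or.inr h, ?_⟩
      have := hM.ndiag _ h
      simpa using this

theorem ElimNb_partner {G : SimpleGraph V} {r : V} {M : Finset (Sym2 V)}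
    (hM : IsMt M (nb G r) G) {x y z : V} (h1 : s(x, y) ∈ M) (h2 : s(x, z) ∈ M) : y = z := by
  have h := hM.disj _ h1 _ h2 x (Sym2.mem_mk_left _ _) (Sym2.mem_mk_left _ _)
  rwa [Sym2.congr_right] at h

/-- Degrees after elimination: matched vertices keep their degree. -/
theorem nb_elim_matched {G : SimpleGraph V} {r : V} {M : Finset (Sym2 V)}
    (hM : IsMt M (nb G r) G) {x : V} (hx : ∃ e ∈ M, x ∈ e) :
    (nb (elimG G r M) x).card = (nb G x).card := by
  obtain ⟨e, he, hxe⟩ := hx
  obtain ⟨y, rfl⟩ := Sym2.mem_iff_exists.1 hxe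
  have hxr : G.Adj r x := ElimNb_mem_nb.1 (hM.ins _ he x (Sym2.mem_mk_left _ _))
  have hyr : G.Adj r y := ElimNb_mem_nb.1 (hM.ins _ he y (Sym2.mem_mk_right _ _))
  have hxy : ¬ G.Adj x y := by
    have := hM.nadj _ he
    rwa [SimpleGraph.mem_edgeSet] at this
  have h1 : nb (elimG G r M) x = insert y ((nb G x).erase r) := by
    ext b
    rw [ElimNb_mem_nb, elimG_adj hM, mem_insert, mem_erase, ElimNb_mem_nb]
    constructor
    · rintro (⟨h1, h2, h3⟩ | h)
      · exact Or.inr ⟨h3, h1⟩
      · exact Or.inl (ElimNb_partner hM h he)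
    · rintro (rfl | ⟨h1, h2⟩)
      · exact Or.inr he
      · exact Or.inl ⟨h2, hxr.ne', h1⟩
  have h2 : y ∉ (nb G x).erase r := by
    rw [mem_erase, ElimNb_mem_nb]
    exact fun h => hxy h.2
  have h3 : r ∈ nb G x := ElimNb_mem_nb.2 hxr.symm
  rw [h1, card_insert_of_notMem h2, card_erase_add_one h3]

/-- Degrees after elimination: vertices not adjacent to `r` keep their neighbourhood. -/
theorem nb_elim_far {G : SimpleGraph V} {r : V} {M : Finset (Sym2 V)}
    (hM : IsMt M (nb G r) G) {x : V} (hxr : x ≠ r) (hx : x ∉ nb G r) :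
    nb (elimG G r M) x = nb G x := by
  have hx' : ¬ G.Adj r x := fun h => hx (ElimNb_mem_nb.2 h)
  ext b
  rw [ElimNb_mem_nb, elimG_adj hM, ElimNb_mem_nb]
  constructor
  · rintro (h | h)
    · exact h.1
    · exact absurd (hM.ins _ h x (Sym2.mem_mk_left _ _)) hx
  · intro h
    refine Or.inl ⟨h, hxr, ?_⟩
    rintro rfl
    exact hx' h.symm

/-- Degrees after elimination: unmatched neighbours of `r` lose `r`. -/
theorem nb_elim_unmatched {G : SimpleGraph V} {r : V} {M : Finset (Sym2 V)}
    (hM : IsMt M (nb G r) G) {x : V} (hxr : x ≠ r) (hx : ¬ ∃ e ∈ M, x ∈ e) :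
    nb (elimG G r M) x = (nb G x).erase r := by
  ext b
  rw [ElimNb_mem_nb, elimG_adj hM, mem_erase, ElimNb_mem_nb]
  constructor
  · rintro (h | h)
    · exact ⟨h.2.2, h.1⟩
    · exact absurd ⟨_, h, Sym2.mem_mk_left _ _⟩ hx
  · rintro ⟨h1, h2⟩
    exact Or.inl ⟨h2, hxr, h1⟩

/-- At most one new neighbour. -/
theorem nb_elim_new {G : SimpleGraph V} {r : V} {M : Finset (Sym2 V)}
    (hM : IsMt M (nb G r) G) (x : V) :
    (nb (elimG G r M) x \ nb G x).card ≤ 1 := by
  rw [card_le_one]
  intro a ha b hb
  rw [mem_sdiff, ElimNb_mem_nb, ElimNb_mem_nb, elimG_adj hM] at ha hb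
  rcases ha with ⟨ha | ha, ha'⟩
  · exact absurd ha.1 ha'
  · rcases hb with ⟨hb | hb, hb'⟩
    · exact absurd hb.1 hb'
    · exact ElimNb_partner hM ha hb

/-- Only `r` is lost. -/
theorem nb_elim_sup {G : SimpleGraph V} {r : V} {M : Finset (Sym2 V)}
    (hM : IsMt M (nb G r) G) {x : V} (hxr : x ≠ r) :
    (nb G x).erase r ⊆ nb (elimG G r M) x := by
  intro b hb
  rw [mem_erase, ElimNb_mem_nb] at hb
  rw [ElimNb_mem_nb, elimG_adj hM]
  exact Or.inl ⟨hb.2, hxr, hb.1⟩

/-- Number of edges after elimination. -/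
theorem ed_elim_card {G : SimpleGraph V} {r : V} {M : Finset (Sym2 V)}
    (hM : IsMt M (nb G r) G) :
    (ed (elimG G r M)).card + (nb G r).card = (ed G).card + M.card := by
  have e1 : ∀ H : SimpleGraph V,
      (ed H).card = ((univ : Finset (Sym2 V)).filter (fun e => e ∈ H.edgeSet)).card := fun H => rfl
  rw [e1, e1]
  set A := (univ : Finset (Sym2 V)).filter (fun e => e ∈ G.edgeSet ∧ r ∉ e) with hA
  set B := (univ : Finset (Sym2 V)).filter (fun e => e ∈ G.edgeSet ∧ r ∈ e) with hB
  have h1 : (univ : Finset (Sym2 V)).filter (fun e => e ∈ G.edgeSet) = A ∪ B := by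
    ext e
    simp only [hA, hB, mem_filter, mem_univ, true_and, mem_union]
    tauto
  have h2 : Disjoint A B := by
    rw [Finset.disjoint_left]
    intro e he he'
    simp only [hA, hB, mem_filter, mem_univ, true_and] at he he'
    exact he.2 he'.2
  have h3 : (univ : Finset (Sym2 V)).filter (fun e => e ∈ (elimG G r M).edgeSet) = A ∪ M := by
    ext e
    simp only [hA, mem_filter, mem_univ, true_and, mem_union]
    induction e using Sym2.ind with
    | _ a b =>
      rw [SimpleGraph.mem_edgeSet, elimG_adj hM, SimpleGraph.mem_edgeSet, Sym2.mem_iff]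
      constructor
      · rintro (⟨h1, h2, h3⟩ | h)
        · refine Or.inl ⟨h1, ?_⟩
          rintro (h | h)
          · exact h2 h.symm
          · exact h3 h.symm
        · exact Or.inr h
      · rintro (⟨h1, h2⟩ | h)
        · exact Or.inl ⟨h1, fun h => h2 (Or.inl h.symm), fun h => h2 (Or.inr h.symm)⟩
        · exact Or.inr h
  have h4 : Disjoint A M := by
    rw [Finset.disjoint_left]
    intro e he he'
    simp only [hA, mem_filter, mem_univ, true_and] at he
    exact hM.nadj e he' he.1
  have h5 : B.card = (nb G r).card := by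
    have : B = (nb G r).image (fun w => s(r, w)) := by
      ext e
      simp only [hB, mem_filter, mem_univ, true_and, mem_image]
      constructor
      · rintro ⟨he1, he2⟩
        obtain ⟨y, rfl⟩ := Sym2.mem_iff_exists.1 he2
        exact ⟨y, ElimNb_mem_nb.2 he1, rfl⟩
      · rintro ⟨w, hw, rfl⟩
        exact ⟨ElimNb_mem_nb.1 hw, Sym2.mem_mk_left _ _⟩
    rw [this, card_image_of_injective]
    intro a b hab
    exact Sym2.congr_right.1 hab
  rw [h1, h3, card_union_of_disjoint h2, card_union_of_disjoint h4, h5]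
  omega

end OddImm
end

section

/-! Elimination of a vertex: lifting along a matching. -/

open Finset Classical

namespace OddImm

universe u

variable {V : Type u} [Fintype V]

/-- Lifting a star with centre `b` along a matching of its leaves. -/
theorem lift_star {R : Multiset (Sym2 V) → Prop} (hR : LiftClosed R) {κ : Type*} (b : V)
    (N : Finset κ) (x : κ → V) (M : Finset (Sym2 κ)) (hnd : ∀ e ∈ M, ¬ e.IsDiag)
    (hin : ∀ e ∈ M, ∀ k ∈ e, k ∈ N)
    (hdisj : ∀ e ∈ M, ∀ e' ∈ M, ∀ k, k ∈ e → k ∈ e' → e = e')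
    (hx : ∀ i j, s(i, j) ∈ M → x i ≠ x j)
    (G₀ : Multiset (Sym2 V)) (h : R (N.val.map (fun k => s(b, x k)) + G₀)) :
    R (M.val.map (Sym2.map x) + G₀) := by
  induction M using Finset.induction_on generalizing N G₀ with
  | empty =>
    refine hR.mono ?_ h
    simp
  | insert e M he ih =>
    induction e using Sym2.inductionOn with
    | hf i j =>
      have hij : i ≠ j := by simpa using hnd s(i, j) (Finset.mem_insert_self _ _)
      have hi : i ∈ N := hin s(i, j) (Finset.mem_insert_self _ _) i (by simp)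
      have hj : j ∈ N := hin s(i, j) (Finset.mem_insert_self _ _) j (by simp)
      have hj' : j ∈ N.erase i := Finset.mem_erase.2 ⟨hij.symm, hj⟩
      have hN : N.val = i ::ₘ j ::ₘ ((N.erase i).erase j).val := by
        rw [Finset.erase_val, Multiset.cons_erase hj', Finset.erase_val, Multiset.cons_erase hi]
      have h1 : R (s(x i, b) ::ₘ s(b, x j) ::ₘ
          (((N.erase i).erase j).val.map (fun k => s(b, x k)) + G₀)) := by
        rw [hN, Multiset.map_cons, Multiset.map_cons, Sym2.eq_swap (a := b) (b := x i)] at h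
        simpa [Multiset.cons_add] using h
      have h2 := hR.lift (hx i j (Finset.mem_insert_self _ _)) h1
      have h3 : R (((N.erase i).erase j).val.map (fun k => s(b, x k)) +
          (s(x i, x j) ::ₘ G₀)) := by
        rw [Multiset.add_cons]
        exact h2
      have h4 := ih ((N.erase i).erase j) (fun e' he' => hnd e' (Finset.mem_insert_of_mem he'))
        (by
          intro e' he' k hk
          have hkN := hin e' (Finset.mem_insert_of_mem he') k hk
          refine Finset.mem_erase.2 ⟨?_, Finset.mem_erase.2 ⟨?_, hkN⟩⟩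
          · rintro rfl
            have := hdisj e' (Finset.mem_insert_of_mem he') s(i, k)
              (Finset.mem_insert_self _ _) k hk (by simp)
            exact he (this ▸ he')
          · rintro rfl
            have := hdisj e' (Finset.mem_insert_of_mem he') s(k, j)
              (Finset.mem_insert_self _ _) k hk (by simp)
            exact he (this ▸ he'))
        (fun e' he' e'' he'' => hdisj e' (Finset.mem_insert_of_mem he') e''
          (Finset.mem_insert_of_mem he''))
        (fun i' j' h' => hx i' j' (Finset.mem_insert_of_mem h')) _ h3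
      rw [Finset.insert_val_of_notMem he, Multiset.map_cons, Sym2.map_mk, Multiset.cons_add]
      rw [Multiset.add_cons] at h4
      exact h4

theorem R_elim {R : Multiset (Sym2 V) → Prop} (hR : LiftClosed R) (G : SimpleGraph V) (r : V)
    (M : Finset (Sym2 V)) (hM : IsMt M (nb G r) G) (h : R (ed G)) :
    R (ed (elimG G r M)) := by
  let rest : Finset (Sym2 V) := univ.filter (fun e => e ∈ G.edgeSet ∧ r ∉ e)
  have h1 : ed G = (nb G r).val.map (fun k => s(r, k)) + rest.val := by
    have h2 : (univ : Finset (Sym2 V)).filter (fun e => e ∈ G.edgeSet) =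
        ((nb G r).image (fun k => s(r, k))).disjUnion rest (by
          rw [Finset.disjoint_left]
          intro e he he'
          obtain ⟨k, hk, rfl⟩ := Finset.mem_image.1 he
          exact (Finset.mem_filter.1 he').2.2 (by simp)) := by
      ext e
      simp only [Finset.mem_filter, Finset.mem_univ, true_and, Finset.mem_disjUnion,
        Finset.mem_image, rest]
      constructor
      · intro he
        by_cases hr : r ∈ e
        · left
          obtain ⟨k, rfl⟩ := hr
          exact ⟨k, mem_nb.2 he, rfl⟩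
        · exact Or.inr ⟨he, hr⟩
      · rintro (⟨k, hk, rfl⟩ | he)
        · exact mem_nb.1 hk
        · exact he.1
    have h3 : ((nb G r).image (fun k => s(r, k))).val = (nb G r).val.map (fun k => s(r, k)) := by
      refine Finset.image_val_of_injOn ?_
      intro a _ b _ hab
      exact Sym2.congr_right.1 hab
    rw [ed, h2, Finset.disjUnion_val, h3]
  have h4 : ed (elimG G r M) = M.val + rest.val := by
    have h5 : (univ : Finset (Sym2 V)).filter (fun e => e ∈ (elimG G r M).edgeSet) =
        M.disjUnion rest (by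
          rw [Finset.disjoint_left]
          intro e he he'
          exact hM.nadj e he (Finset.mem_filter.1 he').2.1) := by
      ext e
      simp only [Finset.mem_filter, Finset.mem_univ, true_and, Finset.mem_disjUnion, rest,
        elimG, SimpleGraph.edgeSet_fromEdgeSet]
      constructor
      · rintro ⟨he | he, _⟩
        · exact Or.inr he
        · exact Or.inl he
      · rintro (he | he)
        · exact ⟨Or.inr he, hM.ndiag e he⟩
        · exact ⟨Or.inl he, G.not_isDiag_of_mem_edgeSet he.1⟩
    rw [ed, h5, Finset.disjUnion_val]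
  rw [h1] at h
  have h5 := lift_star hR r (nb G r) (fun k => k) M hM.ndiag hM.ins hM.disj (by
    intro i j hij
    simpa using hM.ndiag _ hij) rest.val h
  rw [h4]
  have h6 : (M.val.map (Sym2.map fun k => k)) = M.val := by
    have : (Sym2.map fun k : V => k) = id := Sym2.map_id
    rw [this, Multiset.map_id]
  rwa [h6] at h5

end OddImm
end

section

end

section

/-! Many common neighbours give a clique. -/

open Finset Classical

namespace OddImm

universe u

variable {V : Type u} [Fintype V]

/-- The two edges joining the ends of `e` with `c e`. -/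
noncomputable def commonStar (c : Sym2 V → V) (e : Sym2 V) : Finset (Sym2 V) :=
  (univ.filter (fun x => x ∈ e)).image (fun x => s(x, c e))

theorem mem_commonStar {c : Sym2 V → V} {e g : Sym2 V} :
    g ∈ commonStar c e ↔ ∃ x ∈ e, s(x, c e) = g := by
  simp [commonStar]

/-- Greedy choice of connecting vertices. -/
theorem common_choice (G : SimpleGraph V) (P : Finset V)
    (hP : ∀ p ∈ P, ∀ q ∈ P, p ≠ q → 2 * P.card ≤ ((nb G p ∩ nb G q) \ P).card)
    (T : Finset (Sym2 V)) (hT : ∀ e ∈ T, ¬ e.IsDiag ∧ Ins P e) :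
    ∃ c : Sym2 V → V, (∀ e ∈ T, c e ∉ P ∧ ∀ x ∈ e, G.Adj x (c e)) ∧
      ∀ e ∈ T, ∀ e' ∈ T, ∀ x, x ∈ e → x ∈ e' → c e = c e' → e = e' := by
  induction T using Finset.induction_on with
  | empty =>
    by_cases hne : Nonempty V
    · exact ⟨fun _ => hne.some, by simp, by simp⟩
    · refine ⟨fun e => ?_, by simp, by simp⟩
      exact absurd ⟨e.out.1⟩ hne
  | insert e T heT ih =>
    obtain ⟨c, hc1, hc2⟩ := ih (fun e he => hT e (mem_insert_of_mem he))
    obtain ⟨hnd, hins⟩ := hT e (mem_insert_self _ _)
    induction e using Sym2.ind with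
    | _ p q =>
      have hpq : p ≠ q := by simpa using hnd
      rw [ins_mk] at hins
      obtain ⟨hp, hq⟩ := hins
      -- the forbidden values
      set B : Finset V := ((T.filter (fun e' => p ∈ e' ∨ q ∈ e')).image c) with hB
      have hBcard : B.card < 2 * P.card := by
        have h1 : B.card ≤ (T.filter (fun e' => p ∈ e' ∨ q ∈ e')).card := card_image_le
        have h2 : (T.filter (fun e' => p ∈ e' ∨ q ∈ e')) ⊆
            ((P.erase p).image (fun x => s(p, x))) ∪ ((P.erase q).image (fun x => s(q, x))) := by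
          intro e' he'
          rw [mem_filter] at he'
          obtain ⟨he'T, he'⟩ := he'
          obtain ⟨hnd', hins'⟩ := hT e' (mem_insert_of_mem he'T)
          rw [mem_union]
          rcases he' with h | h
          · left
            obtain ⟨y, rfl⟩ := Sym2.mem_iff_exists.mp h
            rw [ins_mk] at hins'
            rw [mem_image]
            exact ⟨y, mem_erase.mpr ⟨fun h => by subst h; simp at hnd', hins'.2⟩, rfl⟩
          · right
            obtain ⟨y, rfl⟩ := Sym2.mem_iff_exists.mp h
            rw [ins_mk] at hins'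
            rw [mem_image]
            exact ⟨y, mem_erase.mpr ⟨fun h => by subst h; simp at hnd', hins'.2⟩, rfl⟩
        have h3 := card_le_card h2
        have h4 : (((P.erase p).image (fun x => s(p, x))) ∪
            ((P.erase q).image (fun x => s(q, x)))).card ≤ (P.card - 1) + (P.card - 1) := by
          refine (card_union_le _ _).trans (add_le_add ?_ ?_)
          · exact card_image_le.trans (le_of_eq (card_erase_of_mem hp))
          · exact card_image_le.trans (le_of_eq (card_erase_of_mem hq))
        have h5 : 0 < P.card := card_pos.mpr ⟨p, hp⟩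
        omega
      obtain ⟨w, hw, hwB⟩ : ∃ w ∈ (nb G p ∩ nb G q) \ P, w ∉ B := by
        by_contra hcon
        push Not at hcon
        have := card_le_card (show (nb G p ∩ nb G q) \ P ⊆ B from hcon)
        have := hP p hp q hq hpq
        omega
      rw [mem_sdiff, mem_inter, mem_nb, mem_nb] at hw
      have hold : ∀ e' ∈ T, Function.update c s(p, q) w e' = c e' := by
        intro e' he'
        rw [Function.update_of_ne]
        rintro rfl
        exact heT he'
      have hnew : Function.update c s(p, q) w s(p, q) = w := Function.update_self ..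
      have hkey : ∀ e' ∈ T, ∀ x, x ∈ s(p, q) → x ∈ e' → w ≠ c e' := by
        intro e' he' x hx hxe' hwc
        apply hwB
        rw [hB, mem_image]
        refine ⟨e', mem_filter.mpr ⟨he', ?_⟩, hwc.symm⟩
        rcases Sym2.mem_iff.mp hx with rfl | rfl
        · exact Or.inl hxe'
        · exact Or.inr hxe'
      refine ⟨Function.update c s(p, q) w, ?_, ?_⟩
      · intro e' he'
        rcases mem_insert.mp he' with rfl | he'
        · rw [hnew]
          refine ⟨hw.2, fun x hx => ?_⟩
          rcases Sym2.mem_iff.mp hx with rfl | rfl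
          · exact hw.1.1
          · exact hw.1.2
        · rw [hold e' he']
          exact hc1 e' he'
      · intro e₁ h₁ e₂ h₂ x hx₁ hx₂ heq
        rcases mem_insert.mp h₁ with h₁ | h₁
        · rcases mem_insert.mp h₂ with h₂ | h₂
          · rw [h₁, h₂]
          · exfalso
            subst h₁
            rw [hnew, hold e₂ h₂] at heq
            exact hkey e₂ h₂ x hx₁ hx₂ heq
        · rcases mem_insert.mp h₂ with h₂ | h₂
          · exfalso
            subst h₂
            rw [hnew, hold e₁ h₁] at heq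
            exact hkey e₁ h₁ x hx₂ hx₁ heq.symm
          · rw [hold e₁ h₁, hold e₂ h₂] at heq
            exact hc2 e₁ h₁ e₂ h₂ x hx₁ hx₂ heq

/-- Lifting all the stars. -/
theorem common_lift {R : Multiset (Sym2 V) → Prop} (hR : LiftClosed R) (P : Finset V)
    (c : Sym2 V → V) (T : Finset (Sym2 V)) (hT : ∀ e ∈ T, ¬ e.IsDiag ∧ Ins P e)
    (hc1 : ∀ e ∈ T, c e ∉ P)
    (hc2 : ∀ e ∈ T, ∀ e' ∈ T, ∀ x, x ∈ e → x ∈ e' → c e = c e' → e = e')
    (S : Multiset (Sym2 V)) (hS : R ((T.biUnion (commonStar c)).val + S)) : R (T.val + S) := by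
  induction T using Finset.induction_on generalizing S with
  | empty => simpa using hS
  | insert e T heT ih =>
    have hdis : Disjoint (commonStar c e) (T.biUnion (commonStar c)) := by
      rw [Finset.disjoint_left]
      intro g hg hg'
      rw [mem_biUnion] at hg'
      obtain ⟨e', he', hg'⟩ := hg'
      rw [mem_commonStar] at hg hg'
      obtain ⟨x, hx, rfl⟩ := hg
      obtain ⟨y, hy, hxy⟩ := hg'
      rw [Sym2.eq_iff] at hxy
      have hce := hc1 e (mem_insert_self _ _)
      have hce' := hc1 e' (mem_insert_of_mem he')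
      rcases hxy with ⟨h1, h2⟩ | ⟨h1, h2⟩
      · subst h1
        have := hc2 e (mem_insert_self _ _) e' (mem_insert_of_mem he') y hx hy h2.symm
        subst this
        exact heT he'
      · apply hce
        rw [← h1]
        exact (hT e' (mem_insert_of_mem he')).2 y hy
    rw [biUnion_insert, ← disjUnion_eq_union _ _ hdis, disjUnion_val] at hS
    have hS' : R ((T.biUnion (commonStar c)).val + ((commonStar c e).val + S)) := by
      have : (T.biUnion (commonStar c)).val + ((commonStar c e).val + S) =
          (commonStar c e).val + (T.biUnion (commonStar c)).val + S := by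
        rw [← add_assoc, add_comm (T.biUnion (commonStar c)).val]
      rw [this]
      exact hS
    have h1 := ih (fun e he => hT e (mem_insert_of_mem he))
      (fun e he => hc1 e (mem_insert_of_mem he))
      (fun e he e' he' => hc2 e (mem_insert_of_mem he) e' (mem_insert_of_mem he')) _ hS'
    obtain ⟨hnd, hins⟩ := hT e (mem_insert_self _ _)
    have hce := hc1 e (mem_insert_self _ _)
    clear hS hS' hdis ih hc2 hc1
    induction e using Sym2.ind with
    | _ p q =>
      have hpq : p ≠ q := by simpa using hnd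
      set w := c s(p, q) with hw
      have hstar : (commonStar c s(p, q)).val = s(p, w) ::ₘ s(w, q) ::ₘ 0 := by
        have h2 : commonStar c s(p, q) = insert s(p, w) {s(w, q)} := by
          ext g
          rw [mem_commonStar]
          simp only [mem_insert, mem_singleton]
          constructor
          · rintro ⟨x, hx, rfl⟩
            rcases Sym2.mem_iff.mp hx with rfl | rfl
            · left; rfl
            · right; exact Sym2.eq_swap
          · rintro (rfl | rfl)
            · exact ⟨p, by simp, rfl⟩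
            · exact ⟨q, by simp, Sym2.eq_swap⟩
        rw [h2, insert_val_of_notMem]
        · rfl
        · rw [mem_singleton, Sym2.eq_iff]
          rintro (⟨h3, h4⟩ | ⟨h3, h4⟩)
          · rw [ins_mk] at hins
            apply hce
            rw [← h3]
            exact hins.1
          · exact hpq h3
      rw [hstar] at h1
      have h3 : R (s(p, w) ::ₘ s(w, q) ::ₘ (T.val + S)) := by
        have : s(p, w) ::ₘ s(w, q) ::ₘ (T.val + S) =
            T.val + ((s(p, w) ::ₘ s(w, q) ::ₘ 0) + S) := by
          simp only [Multiset.cons_add, zero_add, Multiset.add_cons]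
        rw [this]
        exact h1
      have h4 := hR.lift hpq h3
      rw [insert_val_of_notMem heT, Multiset.cons_add]
      exact h4

theorem clique_of_common {R : Multiset (Sym2 V) → Prop} (hR : LiftClosed R)
    (G : SimpleGraph V) (hG : R (ed G)) (P : Finset V)
    (hP : ∀ p ∈ P, ∀ q ∈ P, p ≠ q → 2 * P.card ≤ ((nb G p ∩ nb G q) \ P).card) :
    R (prs P) := by
  set T : Finset (Sym2 V) := (univ : Finset (Sym2 V)).filter (fun e => ¬ e.IsDiag ∧ Ins P e)
    with hTdef
  have hT : ∀ e ∈ T, ¬ e.IsDiag ∧ Ins P e := by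
    intro e he
    rw [hTdef, mem_filter] at he
    exact he.2
  obtain ⟨c, hc1, hc2⟩ := common_choice G P hP T hT
  have h1 : R ((T.biUnion (commonStar c)).val + 0) := by
    rw [add_zero]
    refine hR.mono ?_ hG
    rw [Multiset.le_iff_subset (Finset.nodup _)]
    intro g hg
    rw [mem_ed]
    rw [Finset.mem_val, mem_biUnion] at hg
    obtain ⟨e, he, hg⟩ := hg
    rw [mem_commonStar] at hg
    obtain ⟨x, hx, rfl⟩ := hg
    exact (hc1 e he).2 x hx
  have h2 := common_lift hR P c T hT (fun e he => (hc1 e he).1) hc2 0 h1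
  rw [add_zero] at h2
  exact h2

end OddImm
end

section

/-! The elimination process: even elimination and final elimination. -/

open Finset Classical

namespace OddImm

universe u

variable {V : Type u} [Fintype V] {R : Multiset (Sym2 V) → Prop} {t : ℕ} {W : Finset V}
  {H : SimpleGraph V} {v₀ : V} {E : Finset V} {L : List V} {G : SimpleGraph V}

theorem ConfB_ch_mono {G G' : SimpleGraph V} : ∀ (L : List V),
    (∀ a ∈ L, ∀ b ∈ L, G.Adj a b → G'.Adj a b) → Ch G L → Ch G' L
  | [], _, _ => trivial
  | z :: l, h, hc => by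
    obtain ⟨h1, h2⟩ := hc
    refine ⟨?_, ConfB_ch_mono l (fun a ha b hb => h a (List.mem_cons_of_mem _ ha) b
      (List.mem_cons_of_mem _ hb)) h2⟩
    rcases h1 with h1 | ⟨p, hp, hzp⟩
    · exact Or.inl h1
    · exact Or.inr ⟨p, hp, h z List.mem_cons_self p (List.mem_cons_of_mem _ hp) hzp⟩

theorem ConfB_isMt_mono {M : Finset (Sym2 V)} {X Y : Finset V} (h : IsMt M X G) (hXY : X ⊆ Y) :
    IsMt M Y G :=
  ⟨h.ndiag, fun e he v hv => hXY (h.ins e he v hv), h.nadj, h.disj⟩

theorem ConfB_last {r : V} (hL : L ≠ []) (h : ∃ l, r :: L = l ++ [v₀]) : ∃ l, L = l ++ [v₀] := by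
  obtain ⟨l, hl⟩ := h
  cases l with
  | nil =>
    rw [List.nil_append] at hl
    exact absurd (List.cons.inj hl).2 hL
  | cons a l' =>
    rw [List.cons_append] at hl
    exact ⟨l', (List.cons.inj hl).2⟩

/-- Eliminating the top element (not the last one), even case. -/
theorem Config.elimEven (hR : LiftClosed R) (hg : Good R (29 * t) W H v₀) {r : V}
    (hL : L ≠ []) (hc : Config R t W H v₀ E (r :: L) G) (M : Finset (Sym2 V))
    (hM : IsMt M (nb G r \ (r :: L).toFinset) G)
    (hcov : ∀ x ∈ nb G r \ (r :: L).toFinset, ∃ e ∈ M, x ∈ e) :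
    Config R t W H v₀ (insert r E) L (elimG G r M) := by
  have hM' : IsMt M (nb G r) G := ConfB_isMt_mono hM Finset.sdiff_subset
  have hnd := List.nodup_cons.1 hc.nodup
  have hrW := hc.LW r List.mem_cons_self
  have hcard : (insert r E).card = E.card + 1 := Finset.card_insert_of_notMem hrW.2
  have hlen : (r :: L).length = L.length + 1 := rfl
  have hLr : ∀ x ∈ L, x ≠ r := fun x hx h => hnd.1 (h ▸ hx)
  have hun : insert r E ∪ L.toFinset = E ∪ (r :: L).toFinset := by
    ext x
    simp only [Finset.mem_union, Finset.mem_insert, List.mem_toFinset, List.mem_cons]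
    tauto
  refine ⟨hnd.2, ConfB_last hL hc.last, ?_, ?_, ?_, R_elim hR G r M hM' hc.real, ?_, ?_, ?_, ?_,
    ?_, ?_⟩
  · exact Finset.insert_subset hrW.1 hc.EW
  · intro x hx
    obtain ⟨h1, h2⟩ := hc.LW x (List.mem_cons_of_mem _ hx)
    refine ⟨h1, ?_⟩
    rw [Finset.mem_insert]
    rintro (h | h)
    · exact hLr x hx h
    · exact h2 h
  · intro x y hxy
    rw [elimG_adj hM'] at hxy
    rcases hxy with ⟨h1, h2, _⟩ | h1
    · obtain ⟨h3, h4⟩ := hc.inG x y h1
      refine ⟨h3, ?_⟩
      rw [Finset.mem_insert]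
      rintro (h | h)
      · exact h2 h
      · exact h4 h
    · have h2 : G.Adj r x := mem_nb.1 (hM'.ins _ h1 x (Sym2.mem_mk_left x y))
      obtain ⟨h3, h4⟩ := hc.inG x r h2.symm
      refine ⟨h3, ?_⟩
      rw [Finset.mem_insert]
      rintro (h | h)
      · exact h2.ne h.symm
      · exact h4 h
  · have := hc.small
    omega
  · intro x hxW hxE hxL
    rw [Finset.mem_insert] at hxE
    push Not at hxE
    have hxr : x ≠ r := hxE.1
    have hxL' : x ∉ r :: L := by
      rw [List.mem_cons]
      rintro (h | h)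
      · exact hxr h
      · exact hxL h
    rw [← hc.c1 x hxW hxE.2 hxL']
    by_cases hx : x ∈ nb G r
    · apply nb_elim_matched hM'
      apply hcov
      rw [Finset.mem_sdiff, List.mem_toFinset]
      exact ⟨hx, hxL'⟩
    · rw [nb_elim_far hM' hxr hx]
  · intro z hz
    have h1 := hc.c2 z (List.mem_cons_of_mem _ hz)
    have h2 : ((nb H v₀ \ (insert r E ∪ L.toFinset)) \ nb (elimG G r M) z) ⊆
        ((nb H v₀ \ (E ∪ (r :: L).toFinset)) \ nb G z) := by
      rw [hun]
      intro x hx
      rw [Finset.mem_sdiff] at hx ⊢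
      refine ⟨hx.1, fun h => hx.2 ?_⟩
      apply nb_elim_sup hM' (hLr z hz)
      rw [Finset.mem_erase]
      refine ⟨?_, h⟩
      rintro rfl
      have h3 := (Finset.mem_sdiff.1 hx.1).2
      apply h3
      simp
    have h3 := Finset.card_le_card h2
    omega
  · intro x hxW hxE
    rw [Finset.mem_insert] at hxE
    push Not at hxE
    have h1 := hc.c3 x hxW hxE.2
    have h2 := nb_elim_new hM' x
    have h3 : nb (elimG G r M) x \ nb H x ⊆
        (nb (elimG G r M) x \ nb G x) ∪ (nb G x \ nb H x) := by
      intro w hw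
      simp only [Finset.mem_union, Finset.mem_sdiff] at hw ⊢
      by_cases h4 : w ∈ nb G x
      · exact Or.inr ⟨h4, hw.2⟩
      · exact Or.inl ⟨hw.1, h4⟩
    have h4 := (Finset.card_le_card h3).trans (Finset.card_union_le _ _)
    omega
  · intro z hz
    have h1 := hc.c4 z (by
      rw [Finset.mem_insert] at hz
      rw [List.mem_cons]
      tauto)
    omega
  · refine ConfB_ch_mono L ?_ hc.c5.2
    intro a ha b hb hab
    rw [elimG_adj hM']
    exact Or.inl ⟨hab, hLr a ha, hLr b hb⟩

/-- Eliminating the last pending vertex: a smaller good graph. `Y` is empty or a singleton. -/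
theorem Config.final (hR : LiftClosed R) (ht : 2 ≤ t) (hg : Good R (29 * t) W H v₀)
    (hc : Config R t W H v₀ E [v₀] G) (Y : Finset V) (hY : Y.card ≤ 1)
    (M : Finset (Sym2 V)) (hM : IsMt M (nb G v₀ \ Y) G)
    (hcov : ∀ x ∈ nb G v₀ \ Y, ∃ e ∈ M, x ∈ e) :
    ∃ (W' : Finset V) (H' : SimpleGraph V) (v₀' : V), W'.card < W.card ∧
      Good R (29 * t) W' H' v₀' := by
  have hM' : IsMt M (nb G v₀) G := ConfB_isMt_mono hM Finset.sdiff_subset
  have hsmall := hc.small
  have hlen : ([v₀] : List V).length = 1 := rfl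
  rw [hlen] at hsmall
  set W' : Finset V := W \ insert v₀ E with hW'
  have hmemW' : ∀ x, x ∈ W' ↔ x ∈ W ∧ x ≠ v₀ ∧ x ∉ E := by
    intro x
    rw [hW', Finset.mem_sdiff, Finset.mem_insert]
    tauto
  have hne : W'.Nonempty := by
    have h1 : (nb H v₀ \ E).card ≠ 0 := by
      have h2 := hg.deg₀
      have h3 := Finset.le_card_sdiff E (nb H v₀)
      omega
    obtain ⟨x, hx⟩ := Finset.card_pos.1 (Nat.pos_of_ne_zero h1)
    rw [Finset.mem_sdiff, mem_nb] at hx
    refine ⟨x, (hmemW' x).2 ⟨hg.inW x v₀ hx.1.symm, hx.1.ne', hx.2⟩⟩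
  have hcard : W'.card < W.card := by
    apply Finset.card_lt_card
    refine ⟨Finset.sdiff_subset, fun h => ?_⟩
    exact ((hmemW' v₀).1 (h hg.mem)).2.1 rfl
  have hnbW' : ∀ x ∈ nb G v₀, x ∈ W' := by
    intro x hx
    rw [mem_nb] at hx
    obtain ⟨h1, h2⟩ := hc.inG x v₀ hx.symm
    exact (hmemW' x).2 ⟨h1, hx.ne', h2⟩
  have hdegG : ∀ x ∈ W', 29 * t ≤ (nb G x).card := by
    intro x hx
    obtain ⟨h1, h2, h3⟩ := (hmemW' x).1 hx
    rw [hc.c1 x h1 h3 (by rw [List.mem_singleton]; exact h2)]
    exact hg.deg x h1 h2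
  have hdeg : ∀ x ∈ W', x ∉ Y ∩ nb G v₀ → 29 * t ≤ (nb (elimG G v₀ M) x).card := by
    intro x hx hxY
    by_cases h1 : x ∈ nb G v₀
    · have h2 : x ∉ Y := fun h => hxY (Finset.mem_inter.2 ⟨h, h1⟩)
      rw [nb_elim_matched hM' (hcov x (Finset.mem_sdiff.2 ⟨h1, h2⟩))]
      exact hdegG x hx
    · rw [nb_elim_far hM' ((hmemW' x).1 hx).2.1 h1]
      exact hdegG x hx
  have hinW : ∀ x y, (elimG G v₀ M).Adj x y → x ∈ W' := by
    intro x y hxy
    rw [elimG_adj hM'] at hxy
    rcases hxy with ⟨h1, h2, _⟩ | h1
    · obtain ⟨h3, h4⟩ := hc.inG x y h1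
      exact (hmemW' x).2 ⟨h3, h2, h4⟩
    · exact hnbW' x (hM'.ins _ h1 x (Sym2.mem_mk_left x y))
  have hreal := R_elim hR G v₀ M hM' hc.real
  by_cases hYe : (Y ∩ nb G v₀).Nonempty
  · obtain ⟨y, hy⟩ := hYe
    obtain ⟨hyY, hyn⟩ := Finset.mem_inter.1 hy
    have hyW' := hnbW' y hyn
    refine ⟨W', elimG G v₀ M, y, hcard, hinW, hyW', ?_, ?_, hreal⟩
    · have hun : ¬ ∃ e ∈ M, y ∈ e := by
        rintro ⟨e, he, hye⟩
        exact (Finset.mem_sdiff.1 (hM.ins e he y hye)).2 hyY
      rw [nb_elim_unmatched hM' ((hmemW' y).1 hyW').2.1 hun]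
      have h1 := hdegG y hyW'
      have h2 := Finset.pred_card_le_card_erase (s := nb G y) (a := v₀)
      omega
    · intro x hx hxy
      apply hdeg x hx
      intro h
      apply hxy
      exact (Finset.card_le_one.1 hY) x (Finset.mem_inter.1 h).1 y hyY
  · obtain ⟨x₀, hx₀⟩ := hne
    have hno : ∀ x, x ∉ Y ∩ nb G v₀ := fun x hx => hYe ⟨x, hx⟩
    refine ⟨W', elimG G v₀ M, x₀, hcard, hinW, hx₀, ?_, ?_, hreal⟩
    · have := hdeg x₀ hx₀ (hno x₀)
      omega
    · intro x hx _
      exact hdeg x hx (hno x)

end OddImm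
end
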